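import Mathlib

/-!
Closures of sets under countably many operations of countable arity, with the
cardinality bound `(#X + ℵ₀) ^ ℵ₀`.
-/

universe u

open Cardinal Set

namespace Run7.h199

/-- `P` is closed under all the operations `op k : (ℕ → W) → W`. -/
def OpClosed {W : Type u} (op : ℕ → (ℕ → W) → W) (P : Set W) : Prop :=
  ∀ (k : ℕ) (f : ℕ → W), (∀ n, f n ∈ P) → op k f ∈ P

/-- The least closed set containing `X`. -/
def cl {W : Type u} (op : ℕ → (ℕ → W) → W) (X : Set W) : Set W :=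
  ⋂₀ {P | OpClosed op P ∧ X ⊆ P}

theorem OpClosed.inter {W : Type u} {op : ℕ → (ℕ → W) → W} {P Q : Set W}
    (hP : OpClosed op P) (hQ : OpClosed op Q) : OpClosed op (P ∩ Q) :=
  fun k f hf => ⟨hP k f fun n => (hf n).1, hQ k f fun n => (hf n).2⟩

theorem opClosed_cl {W : Type u} (op : ℕ → (ℕ → W) → W) (X : Set W) : OpClosed op (cl op X) := by
  intro k f hf P hP
  exact hP.1 k f fun n => hf n P hP

theorem subset_cl {W : Type u} (op : ℕ → (ℕ → W) → W) (X : Set W) : X ⊆ cl op X := by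
  intro x hx P hP
  exact hP.2 hx

theorem cl_subset {W : Type u} {op : ℕ → (ℕ → W) → W} {X P : Set W} (hP : OpClosed op P)
    (hX : X ⊆ P) : cl op X ⊆ P := by
  intro x hx
  exact hx P ⟨hP, hX⟩

/-- The arities used to present the closure as the image of a type of well founded trees. -/
def arity {W : Type u} (X : Set W) : (↥X ⊕ ULift.{u} ℕ) → Type u
  | Sum.inl _ => PEmpty
  | Sum.inr _ => ULift.{u} ℕ

/-- Evaluation of a tree of operations. -/
def evalTree {W : Type u} (op : ℕ → (ℕ → W) → W) (X : Set W) : WType (arity X) → W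
  | ⟨Sum.inl x, _⟩ => x
  | ⟨Sum.inr k, g⟩ => op k.down fun n => evalTree op X (g ⟨n⟩)

theorem cl_subset_range {W : Type u} (op : ℕ → (ℕ → W) → W) (X : Set W) :
    cl op X ⊆ Set.range (evalTree op X) := by
  apply cl_subset
  · intro k f hf
    choose g hg using hf
    refine ⟨WType.mk (Sum.inr ⟨k⟩) (fun n => g n.down), ?_⟩
    simp only [evalTree]
    congr 1
    funext n
    exact hg n
  · intro x hx
    exact ⟨WType.mk (Sum.inl ⟨x, hx⟩) (fun e => PEmpty.elim e), rfl⟩

theorem mk_cl_le {W : Type u} (op : ℕ → (ℕ → W) → W) (X : Set W) :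
    #(cl op X) ≤ (#X + ℵ₀) ^ ℵ₀ := by
  have h1 : #(cl op X) ≤ #(WType (arity X)) :=
    (mk_le_mk_of_subset (cl_subset_range op X)).trans mk_range_le
  refine h1.trans ?_
  set θ : Cardinal.{u} := (#X + ℵ₀) ^ ℵ₀ with hθ
  have hle : #X + ℵ₀ ≤ θ := self_le_power _ (by exact one_le_aleph0)
  have hθ0 : ℵ₀ ≤ θ := (le_add_left (le_refl ℵ₀)).trans hle
  have hθp : θ ^ ℵ₀ = θ := by
    rw [hθ, ← power_mul, aleph0_mul_aleph0]
  apply WType.cardinalMk_le_of_le
  have h2 : (Cardinal.sum fun a : (↥X ⊕ ULift.{u} ℕ) => θ ^ #(arity X a)) ≤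
      Cardinal.sum fun _ : (↥X ⊕ ULift.{u} ℕ) => θ := by
    apply Cardinal.sum_le_sum
    rintro (x | k)
    · have : #(arity X (Sum.inl x)) = 0 := by
        simp [arity]
      rw [this, power_zero]
      exact one_le_aleph0.trans hθ0
    · have : #(arity X (Sum.inr k)) = ℵ₀ := by
        simp [arity]
      rw [this, hθp]
  refine h2.trans ?_
  rw [Cardinal.sum_const', mk_sum]
  simp only [lift_id, mk_uLift, mk_nat, lift_aleph0]
  calc (#X + ℵ₀) * θ ≤ θ * θ := mul_le_mul' hle le_rfl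
    _ = θ := mul_eq_self hθ0

end Run7.h199
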