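import Mathlib
import Pool.Agent.Run7.h199.Closure

/-!
A well order `W`, the cardinality function `cd x = #(Iio x)`, coherent-free collapsing maps
`coll δ : Iio δ → {x | cd x < cd δ}`, and the sets closed under them and under countable
suprema.  The main point is `agree`: two closed sets that agree below `ρ` and are mutually
cofinal in each level `{x | cd x = l}`, `ρ ≤ l`, are equal.
-/

universe u

open Cardinal Set

namespace Run7.h199

variable {W : Type u} [LinearOrder W]

/-- The number of predecessors of `x`. -/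
def cd (x : W) : Cardinal.{u} := #(Set.Iio x)

theorem cd_mono {x y : W} (h : x ≤ y) : cd x ≤ cd y :=
  mk_le_mk_of_subset (Set.Iio_subset_Iio h)

theorem exists_coll [WellFoundedLT W] (hW : ∀ x : W, cd x < #W) (δ : W) :
    ∃ f : W → W, Set.InjOn f (Set.Iio δ) ∧ ∀ x, x < δ → cd (f x) < cd δ := by
  classical
  set B : Set W := {x | cd x < cd δ} with hB
  have hle : cd δ ≤ #B := by
    by_cases hBu : B = Set.univ
    · rw [hBu, mk_univ]
      exact (hW δ).le
    · have hne : (Bᶜ).Nonempty := by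
        rw [Set.nonempty_compl]
        exact hBu
      set w := WellFounded.min (wellFounded_lt (α := W)) Bᶜ hne with hw
      have hwB : w ∈ Bᶜ := WellFounded.min_mem _ _ _
      have hsub : Set.Iio w ⊆ B := by
        intro x hx
        by_contra hxB
        exact WellFounded.not_lt_min (wellFounded_lt (α := W)) Bᶜ hxB hx
      have h1 : cd δ ≤ cd w := by
        have : ¬ cd w < cd δ := hwB
        exact not_lt.mp this
      exact h1.trans (mk_le_mk_of_subset hsub)
  have hle' : #(Set.Iio δ) ≤ #B := hle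
  obtain ⟨g⟩ := (Cardinal.le_def _ _).mp hle'
  refine ⟨fun x => if h : x < δ then (g ⟨x, h⟩ : W) else x, ?_, ?_⟩
  · intro x hx y hy hxy
    have hx' : x < δ := hx
    have hy' : y < δ := hy
    simp only [hx', hy', dif_pos] at hxy
    have := g.injective (Subtype.ext hxy)
    simpa using this
  · intro x hx
    simp only [hx, dif_pos]
    exact (g ⟨x, hx⟩).2

section ops

variable [WellFoundedLT W]

open Classical in
/-- The least upper bound of a sequence, when there is one. -/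
noncomputable def supSeq (f : ℕ → W) : W :=
  if h : (upperBounds (Set.range f)).Nonempty then
    WellFounded.min (wellFounded_lt (α := W)) _ h else f 0

theorem supSeq_isLUB {f : ℕ → W} (h : BddAbove (Set.range f)) : IsLUB (Set.range f) (supSeq f) := by
  have h' : (upperBounds (Set.range f)).Nonempty := h
  have hs : supSeq f = WellFounded.min (wellFounded_lt (α := W)) _ h' := by
    unfold supSeq
    rw [dif_pos h']
  rw [hs]
  constructor
  · exact WellFounded.min_mem _ _ _
  · intro b hb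
    exact not_lt.mp (WellFounded.not_lt_min (wellFounded_lt (α := W)) _ hb)

theorem cd_supSeq {f : ℕ → W} (h : BddAbove (Set.range f)) {l : Cardinal.{u}} (hl : ℵ₀ ≤ l)
    (hf : ∀ n, cd (f n) = l) : cd (supSeq f) = l := by
  have hlub := supSeq_isLUB h
  apply le_antisymm
  · have hsub : Set.Iio (supSeq f) ⊆ ⋃ n, Set.Iio (f n) := by
      intro x hx
      have hx' : x < supSeq f := hx
      by_contra hcon
      simp only [Set.mem_iUnion, Set.mem_Iio, not_exists, not_lt] at hcon
      have : supSeq f ≤ x := by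
        apply hlub.2
        rintro _ ⟨n, rfl⟩
        exact hcon n
      exact absurd hx' (not_lt.mpr this)
    calc cd (supSeq f) ≤ #(⋃ n, Set.Iio (f n) : Set W) := mk_le_mk_of_subset hsub
      _ ≤ #(ULift.{u} ℕ) * ⨆ n : ULift.{u} ℕ, #(Set.Iio (f n.down)) := by
          have : (⋃ n, Set.Iio (f n)) = ⋃ n : ULift.{u} ℕ, Set.Iio (f n.down) := by
            ext x
            simp
          rw [this]
          exact mk_iUnion_le _
      _ ≤ ℵ₀ * l := by
          apply mul_le_mul'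
          · simp
          · apply ciSup_le'
            intro n
            exact (hf n.down).le
      _ = l := aleph0_mul_eq hl
  · rw [← hf 0]
    exact cd_mono (hlub.1 ⟨0, rfl⟩)

variable (e : W → W → W)

open Classical in
/-- A partial inverse of `e δ` on the predecessors of `δ`. -/
noncomputable def einv (δ y : W) : W :=
  if h : ∃ x, x < δ ∧ e δ x = y then h.choose else y

omit [WellFoundedLT W] in
theorem einv_spec (he : ∀ δ, Set.InjOn (e δ) (Set.Iio δ)) {δ x : W} (hx : x < δ) :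
    einv e δ (e δ x) = x := by
  have h : ∃ z, z < δ ∧ e δ z = e δ x := ⟨x, hx, rfl⟩
  unfold einv
  rw [dif_pos h]
  exact he δ h.choose_spec.1 hx h.choose_spec.2

/-- The operations: collapse, inverse collapse, supremum. -/
noncomputable def ops (k : ℕ) (f : ℕ → W) : W :=
  match k with
  | 0 => e (f 0) (f 1)
  | 1 => einv e (f 0) (f 1)
  | _ => supSeq f

variable {e}

theorem OpClosed.e_mem {P : Set W} (hP : OpClosed (ops e) P) {δ x : W} (hδ : δ ∈ P) (hx : x ∈ P) :
    e δ x ∈ P := by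
  have := hP 0 (fun n => if n = 0 then δ else x) (fun n => by split_ifs <;> assumption)
  simpa [ops] using this

theorem OpClosed.einv_mem {P : Set W} (hP : OpClosed (ops e) P) {δ x : W} (hδ : δ ∈ P)
    (hx : x ∈ P) : einv e δ x ∈ P := by
  have := hP 1 (fun n => if n = 0 then δ else x) (fun n => by split_ifs <;> assumption)
  simpa [ops] using this

theorem OpClosed.sup_mem {P : Set W} (hP : OpClosed (ops e) P) {f : ℕ → W} (hf : ∀ n, f n ∈ P) :
    supSeq f ∈ P := by
  have := hP 2 f hf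
  simpa [ops] using this

/-- One step of the induction in `agree`. -/
theorem agree_step (he : ∀ δ, Set.InjOn (e δ) (Set.Iio δ))
    (hec : ∀ δ x : W, x < δ → cd (e δ x) < cd δ)
    (hbdd : ∀ f : ℕ → W, BddAbove (Set.range f))
    {P₁ P₂ : Set W} (h1 : OpClosed (ops e) P₁) (h2 : OpClosed (ops e) P₂)
    {ρ : Cardinal.{u}} (hρ : ℵ₀ ≤ ρ)
    (hcof1 : ∀ x ∈ P₁, ρ ≤ cd x → ∃ y ∈ P₂, cd y = cd x ∧ x ≤ y)
    (hcof2 : ∀ x ∈ P₂, ρ ≤ cd x → ∃ y ∈ P₁, cd y = cd x ∧ x ≤ y)
    (x : W) (hρx : ρ ≤ cd x) (ih : ∀ y, cd y < cd x → y ∈ P₁ → y ∈ P₂) (hx : x ∈ P₁) : x ∈ P₂ := by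
  classical
  -- interleaving sequences
  have hF : ∀ z : {z : W // z ∈ P₁ ∧ cd z = cd x}, ∃ y : {y : W // y ∈ P₂ ∧ cd y = cd x},
      (z : W) ≤ y := by
    rintro ⟨z, hz, hzx⟩
    obtain ⟨y, hy, hyc, hzy⟩ := hcof1 z hz (by rw [hzx]; exact hρx)
    exact ⟨⟨y, hy, hyc.trans hzx⟩, hzy⟩
  have hG : ∀ z : {z : W // z ∈ P₂ ∧ cd z = cd x}, ∃ y : {y : W // y ∈ P₁ ∧ cd y = cd x},
      (z : W) ≤ y := by
    rintro ⟨z, hz, hzx⟩
    obtain ⟨y, hy, hyc, hzy⟩ := hcof2 z hz (by rw [hzx]; exact hρx)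
    exact ⟨⟨y, hy, hyc.trans hzx⟩, hzy⟩
  choose F hF using hF
  choose G hG using hG
  let a : ℕ → {z : W // z ∈ P₁ ∧ cd z = cd x} := fun n => Nat.rec ⟨x, hx, rfl⟩ (fun _ z => G (F z)) n
  let b : ℕ → {z : W // z ∈ P₂ ∧ cd z = cd x} := fun n => F (a n)
  have hab : ∀ n, (a n).1 ≤ (b n).1 := fun n => hF (a n)
  have hba : ∀ n, (b n).1 ≤ (a (n + 1)).1 := fun n => hG (b n)
  have hsa := supSeq_isLUB (hbdd (fun n => (a n).1))
  have hsb := supSeq_isLUB (hbdd (fun n => (b n).1))
  have hub : upperBounds (Set.range fun n => (a n).1) =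
      upperBounds (Set.range fun n => (b n).1) := by
    ext t
    constructor
    · rintro ht _ ⟨n, rfl⟩
      exact (hba n).trans (ht ⟨n + 1, rfl⟩)
    · rintro ht _ ⟨n, rfl⟩
      exact (hab n).trans (ht ⟨n, rfl⟩)
  have heq : supSeq (fun n => (a n).1) = supSeq (fun n => (b n).1) := by
    apply hsa.unique
    unfold IsLUB
    rw [hub]
    exact hsb
  set δ := supSeq (fun n => (a n).1) with hδ
  have hδ1 : δ ∈ P₁ := h1.sup_mem fun n => (a n).2.1
  have hδ2 : δ ∈ P₂ := by
    rw [heq]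
    exact h2.sup_mem fun n => (b n).2.1
  have hδc : cd δ = cd x := cd_supSeq (hbdd _) (hρ.trans hρx) fun n => (a n).2.2
  have hxδ : x ≤ δ := hsa.1 ⟨0, rfl⟩
  rcases hxδ.eq_or_lt with h | h
  · rw [h]
    exact hδ2
  · have h3 : e δ x ∈ P₂ := by
      apply ih
      · rw [← hδc]
        exact hec δ x h
      · exact h1.e_mem hδ1 hx
    have h4 := h2.einv_mem hδ2 h3
    rwa [einv_spec e he h] at h4

theorem agree (he : ∀ δ, Set.InjOn (e δ) (Set.Iio δ))
    (hec : ∀ δ x : W, x < δ → cd (e δ x) < cd δ)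
    (hbdd : ∀ f : ℕ → W, BddAbove (Set.range f))
    {P₁ P₂ : Set W} (h1 : OpClosed (ops e) P₁) (h2 : OpClosed (ops e) P₂)
    {ρ : Cardinal.{u}} (hρ : ℵ₀ ≤ ρ) (hbase : ∀ x, cd x < ρ → (x ∈ P₁ ↔ x ∈ P₂))
    (hcof1 : ∀ x ∈ P₁, ρ ≤ cd x → ∃ y ∈ P₂, cd y = cd x ∧ x ≤ y)
    (hcof2 : ∀ x ∈ P₂, ρ ≤ cd x → ∃ y ∈ P₁, cd y = cd x ∧ x ≤ y) : P₁ = P₂ := by
  have key : ∀ l : Cardinal.{u}, ∀ x : W, cd x = l → (x ∈ P₁ ↔ x ∈ P₂) := by
    intro l
    induction l using WellFoundedLT.induction with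
    | ind l ih =>
      intro x hx
      rcases lt_or_ge (cd x) ρ with h | h
      · exact hbase x h
      · have ih' : ∀ y, cd y < cd x → (y ∈ P₁ ↔ y ∈ P₂) := fun y hy => ih (cd y) (hx ▸ hy) y rfl
        exact ⟨agree_step he hec hbdd h1 h2 hρ hcof1 hcof2 x h fun y hy => (ih' y hy).1,
          agree_step he hec hbdd h2 h1 hρ hcof2 hcof1 x h fun y hy => (ih' y hy).2⟩
  ext x
  exact key _ x rfl

end ops

end Run7.h199
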