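import Mathlib
import Pool.Agent.Run7.h199.Levels

/-!
Counting the closed subsets of a given set `M` by their signatures.
-/

universe u

open Cardinal Set

namespace Run7.h199

variable {W : Type u} [LinearOrder W] [WellFoundedLT W]

open Classical in
/-- The least element of `M` in level `lvl j` that is above all elements of `P` in that level. -/
noncomputable def sig {J : Type u} (lvl : J → Cardinal.{u}) (M P : Set W) (j : J) : Option M :=
  if h : {m : M | cd (m : W) = lvl j ∧ ∀ p ∈ P, cd p = lvl j → p < m}.Nonempty then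
    some (WellFounded.min (wellFounded_lt (α := M)) _ h) else none

theorem cof_of_sig {J : Type u} {lvl : J → Cardinal.{u}} {M P₁ P₂ : Set W}
    (hP₁ : P₁ ⊆ M) (j : J) (hs : sig lvl M P₁ j = sig lvl M P₂ j) (x : W) (hx : x ∈ P₁)
    (hj : lvl j = cd x) : ∃ y ∈ P₂, cd y = cd x ∧ x ≤ y := by
  by_contra hcon
  push Not at hcon
  have h2 : {m : M | cd (m : W) = lvl j ∧ ∀ p ∈ P₂, cd p = lvl j → p < m}.Nonempty :=
    ⟨⟨x, hP₁ hx⟩, hj.symm, fun p hp hpl => hcon p hp (hpl.trans hj)⟩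
  have hs2 : sig lvl M P₂ j = some (WellFounded.min (wellFounded_lt (α := M)) _ h2) := by
    unfold sig
    rw [dif_pos h2]
  set m := WellFounded.min (wellFounded_lt (α := M)) _ h2 with hm
  have hmx : m ≤ ⟨x, hP₁ hx⟩ := by
    apply not_lt.mp
    apply WellFounded.not_lt_min (wellFounded_lt (α := M)) _
    exact ⟨hj.symm, fun p hp hpl => hcon p hp (hpl.trans hj)⟩
  rw [hs2] at hs
  unfold sig at hs
  split_ifs at hs with h1
  have h3 := WellFounded.min_mem (wellFounded_lt (α := M)) _ h1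
  rw [Option.some.inj hs] at h3
  have h4 : x < m := h3.2 x hx hj.symm
  have h5 : (m : W) ≤ x := hmx
  exact absurd h4 (not_lt.mpr h5)

variable {e : W → W → W}

theorem mk_closed_subsets_le (he : ∀ δ, Set.InjOn (e δ) (Set.Iio δ))
    (hec : ∀ δ x : W, x < δ → cd (e δ x) < cd δ)
    (hbdd : ∀ f : ℕ → W, BddAbove (Set.range f))
    {ρ : Cardinal.{u}} (hρ : ℵ₀ ≤ ρ) {J : Type u} (lvl : J → Cardinal.{u})
    (hJ : ∀ x : W, ρ ≤ cd x → ∃ j, lvl j = cd x) (M : Set W) :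
    #{P : Set W // OpClosed (ops e) P ∧ P ⊆ M ∧ ∀ x, cd x < ρ → (x ∈ P ↔ x ∈ M)} ≤
      (#M + 1) ^ #J := by
  have hinj : Function.Injective
      (fun P : {P : Set W // OpClosed (ops e) P ∧ P ⊆ M ∧ ∀ x, cd x < ρ → (x ∈ P ↔ x ∈ M)} =>
        sig lvl M P.1) := by
    rintro ⟨P₁, h11, h12, h13⟩ ⟨P₂, h21, h22, h23⟩ hs
    simp only at hs
    apply Subtype.ext
    simp only
    refine agree he hec hbdd h11 h21 hρ ?_ ?_ ?_
    · intro x hx
      rw [h13 x hx, h23 x hx]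
    · intro x hx hρx
      obtain ⟨j, hj⟩ := hJ x hρx
      exact cof_of_sig h12 j (congrFun hs j) x hx hj
    · intro x hx hρx
      obtain ⟨j, hj⟩ := hJ x hρx
      exact cof_of_sig h22 j (congrFun hs j).symm x hx hj
  have h1 := mk_le_of_injective hinj
  refine h1.trans ?_
  rw [← Cardinal.power_def, mk_option]

/-- The graph of a family `K : I → W → Set W` at `γ`. -/
def grph {I : Type u} (K : I → W → Set W) (γ : W) : Set (W × I) := {p | p.1 ∈ K p.2 γ}

theorem mk_traces_le (he : ∀ δ, Set.InjOn (e δ) (Set.Iio δ))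
    (hec : ∀ δ x : W, x < δ → cd (e δ x) < cd δ)
    (hbdd : ∀ f : ℕ → W, BddAbove (Set.range f))
    {ρ : Cardinal.{u}} (hρ : ℵ₀ ≤ ρ) {J : Type u} (lvl : J → Cardinal.{u})
    (hJ : ∀ x : W, ρ ≤ cd x → ∃ j, lvl j = cd x)
    {I : Type u} (K : I → W → Set W) (hK : ∀ i γ, OpClosed (ops e) (K i γ))
    (hKb : ∀ i γ x, cd x < ρ → x ∈ K i γ) (z : Set (W × I)) :
    #{t : Set (W × I) | ∃ γ, t = grph K γ ∩ z} ≤
      ((#(cl (ops e) (Prod.fst '' z)) + 1) ^ #J) ^ #I := by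
  set M := cl (ops e) (Prod.fst '' z) with hM
  have hMc : OpClosed (ops e) M := opClosed_cl _ _
  set T := {P : Set W // OpClosed (ops e) P ∧ P ⊆ M ∧ ∀ x, cd x < ρ → (x ∈ P ↔ x ∈ M)} with hT
  have hsub : {t : Set (W × I) | ∃ γ, t = grph K γ ∩ z} ⊆
      Set.range (fun g : I → T => {p : W × I | p ∈ z ∧ p.1 ∈ (g p.2).1}) := by
    rintro t ⟨γ, rfl⟩
    refine ⟨fun i => ⟨K i γ ∩ M, (hK i γ).inter hMc, Set.inter_subset_right, ?_⟩, ?_⟩
    · intro x hx
      exact ⟨fun h => h.2, fun h => ⟨hKb i γ x hx, h⟩⟩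
    · ext p
      simp only [Set.mem_ofPred_eq, Set.mem_inter_iff, grph]
      constructor
      · rintro ⟨h1, h2, -⟩
        exact ⟨h2, h1⟩
      · rintro ⟨h1, h2⟩
        exact ⟨h2, h1, subset_cl _ _ ⟨p, h2, rfl⟩⟩
  calc #{t : Set (W × I) | ∃ γ, t = grph K γ ∩ z}
      ≤ #(Set.range (fun g : I → T => {p : W × I | p ∈ z ∧ p.1 ∈ (g p.2).1})) :=
        mk_le_mk_of_subset hsub
    _ ≤ #(I → T) := mk_range_le
    _ = #T ^ #I := by rw [Cardinal.power_def]
    _ ≤ ((#M + 1) ^ #J) ^ #I :=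
        power_le_power_right (mk_closed_subsets_le he hec hbdd hρ lvl hJ M)

end Run7.h199
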