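import Mathlib

/-!
The two cardinal tree property and the strong tree property.  Lists are indexed by the subsets
of size `< κ` of a type `α`; the values of `d` at larger sets are irrelevant.
-/

universe u

open Cardinal

namespace Run7.h199

/-- `d` is a `P_κ α`-list: `d x ⊆ x` for every `x` of size `< κ`. -/
def IsList (κ : Cardinal.{u}) {α : Type u} (d : Set α → Set α) : Prop :=
  ∀ x : Set α, #x < κ → d x ⊆ x

/-- The list `d` is thin: for every `y` of size `< κ` there are fewer than `κ` sets of the form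
`d x ∩ y` with `x` of size `< κ` and `y ⊆ x`. -/
def IsThin (κ : Cardinal.{u}) {α : Type u} (d : Set α → Set α) : Prop :=
  ∀ y : Set α, #y < κ → #{t : Set α | ∃ x : Set α, #x < κ ∧ y ⊆ x ∧ t = d x ∩ y} < κ

/-- `b` is a cofinal branch of `d`. -/
def IsCofinalBranch (κ : Cardinal.{u}) {α : Type u} (d : Set α → Set α) (b : Set α) : Prop :=
  ∀ y : Set α, #y < κ → ∃ x : Set α, #x < κ ∧ y ⊆ x ∧ b ∩ y = d x ∩ y

/-- `TP(κ, lam)`: every thin `P_κ α`-list with `#α = lam` has a cofinal branch. -/
def TwoCardinalTP (κ lam : Cardinal.{u}) : Prop :=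
  ∀ (α : Type u), #α = lam → ∀ d : Set α → Set α, IsList κ d → IsThin κ d →
    ∃ b : Set α, IsCofinalBranch κ d b

/-- The strong tree property. -/
def StrongTreeProperty (κ : Cardinal.{u}) : Prop :=
  ∀ lam : Cardinal.{u}, κ ≤ lam → TwoCardinalTP κ lam

end Run7.h199
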