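import Mathlib
import Pool.Agent.Run7.h199.Traces
import Pool.Agent.Run7.h199.TreeProp

/-!
The covering family `K i γ` and the main counting argument.
-/

universe u

open Cardinal Set

namespace Run7.h199

variable {W : Type u} [LinearOrder W] [WellFoundedLT W]

omit [WellFoundedLT W] in
/-- Every set of size at most `μ` in a well order of size `μ⁺` with small initial segments is
strictly bounded. -/
theorem exists_strict_bound {μ : Cardinal.{u}} (hμ : ℵ₀ ≤ μ) (hW : #W = Order.succ μ)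
    (hcd : ∀ x : W, cd x ≤ μ) (X : Set W) (hX : #X ≤ μ) : ∃ γ : W, ∀ x ∈ X, x < γ := by
  by_contra hcon
  push Not at hcon
  have hsub : (Set.univ : Set W) ⊆ ⋃ x : X, Set.Iic (x : W) := by
    intro γ _
    obtain ⟨x, hx, hxγ⟩ := hcon γ
    exact Set.mem_iUnion.mpr ⟨⟨x, hx⟩, hxγ⟩
  have h1 : #W ≤ μ := by
    rw [← mk_univ]
    calc #(Set.univ : Set W) ≤ #(⋃ x : X, Set.Iic (x : W)) := mk_le_mk_of_subset hsub
      _ ≤ #X * ⨆ x : X, #(Set.Iic (x : W)) := mk_iUnion_le _
      _ ≤ μ * μ := by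
          apply mul_le_mul' hX
          apply ciSup_le'
          intro x
          have : Set.Iic (x : W) = insert (x : W) (Set.Iio (x : W)) := by
            ext t
            simp [le_iff_eq_or_lt]
          rw [this]
          calc #(insert (x : W) (Set.Iio (x : W)) : Set W) ≤ #(Set.Iio (x : W)) + 1 :=
                mk_insert_le
            _ ≤ μ + 1 := by
                gcongr
                exact hcd x
            _ = μ := add_one_eq hμ
      _ = μ := mul_eq_self hμ
  rw [hW] at h1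
  exact absurd h1 (not_le.mpr (Order.lt_succ μ))

/-- The elements with fewer than `l` predecessors form a set of size at most `l`. -/
theorem mk_cd_lt_le (l : Cardinal.{u}) : #{x : W | cd x < l} ≤ l := by
  have hmap : ∀ x : {x : W | cd x < l}, Ordinal.typein (α := W) (· < ·) x.1 ∈ Set.Iio l.ord := by
    rintro ⟨x, hx⟩
    simp only [Set.mem_Iio, lt_ord, Ordinal.card_typein]
    exact hx
  have hinj : Function.Injective
      (fun x : {x : W | cd x < l} => (⟨_, hmap x⟩ : Set.Iio l.ord)) := by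
    intro x y hxy
    have := congrArg Subtype.val hxy
    simp only at this
    exact Subtype.ext (Ordinal.typein_injective _ this)
  have h1 := Cardinal.mk_le_of_injective (α := ULift.{u+1} {x : W | cd x < l})
    (β := Set.Iio l.ord) (f := fun x => ⟨_, hmap x.down⟩) (by
      intro x y hxy
      apply ULift.down_injective
      exact hinj hxy)
  rw [mk_uLift, mk_Iio_ordinal, card_ord] at h1
  simpa using h1

section core

variable {e : W → W → W} {I : Type u} (lvl : I → Cardinal.{u})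

/-- The covering family: the closure of `{x | cd x < lvl i} ∪ {γ}`. -/
def Kf (e : W → W → W) (lvl : I → Cardinal.{u}) (i : I) (γ : W) : Set W :=
  cl (ops e) (insert γ {x : W | cd x < lvl i})

theorem mk_Kf_lt {μ : Cardinal.{u}} (hμ : μ.IsStrongLimit) (hμ0 : ℵ₀ < μ) (hlvl : ∀ i, lvl i < μ)
    (i : I) (γ : W) : #(Kf e lvl i γ) < μ := by
  have h1 : #(insert γ {x : W | cd x < lvl i} : Set W) + ℵ₀ < μ := by
    apply add_lt_of_lt hμ0.le _ hμ0
    calc #(insert γ {x : W | cd x < lvl i} : Set W) ≤ #{x : W | cd x < lvl i} + 1 := mk_insert_le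
      _ ≤ lvl i + 1 := by
          gcongr
          exact mk_cd_lt_le _
      _ < μ := add_lt_of_lt hμ0.le (hlvl i) (one_lt_aleph0.trans hμ0)
  set a := #(insert γ {x : W | cd x < lvl i} : Set W) + ℵ₀ with ha
  have ha0 : ℵ₀ ≤ a := self_le_add_left _ _
  calc #(Kf e lvl i γ) ≤ a ^ ℵ₀ := mk_cl_le _ _
    _ ≤ a ^ a := power_le_power_left (aleph0_pos.trans_le ha0).ne' ha0
    _ = 2 ^ a := power_self_eq ha0
    _ < μ := hμ.isStrongPrelimit h1

theorem mem_Kf_self (i : I) (γ : W) : γ ∈ Kf e lvl i γ :=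
  subset_cl _ _ (Set.mem_insert _ _)

theorem mem_Kf_of_cd_lt {i : I} {γ x : W} (h : cd x < lvl i) : x ∈ Kf e lvl i γ :=
  subset_cl _ _ (Set.mem_insert_of_mem _ h)

theorem opClosed_Kf (i : I) (γ : W) : OpClosed (ops e) (Kf e lvl i γ) := opClosed_cl _ _

theorem exists_mem_Kf (he : ∀ δ, Set.InjOn (e δ) (Set.Iio δ))
    (hec : ∀ δ x : W, x < δ → cd (e δ x) < cd δ) {μ ρ : Cardinal.{u}} (hμ : μ.IsStrongLimit)
    (hρμ : ρ < μ) (hcov : ∀ l, ρ ≤ l → l < μ → ∃ i, lvl i = l) {γ x : W} (hγ : cd γ = μ)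
    (hx : x < γ) : ∃ i, x ∈ Kf e lvl i γ := by
  have h1 : cd (e γ x) < μ := hγ ▸ hec γ x hx
  have h2 : Order.succ (cd (e γ x)) < μ := hμ.isSuccLimit.succ_lt h1
  obtain ⟨i, hi⟩ := hcov (max ρ (Order.succ (cd (e γ x)))) (le_max_left _ _) (max_lt hρμ h2)
  refine ⟨i, ?_⟩
  have h3 : e γ x ∈ Kf e lvl i γ := by
    apply mem_Kf_of_cd_lt
    rw [hi]
    exact (Order.lt_succ _).trans_le (le_max_right _ _)
  have h4 := (opClosed_Kf lvl i γ).einv_mem (mem_Kf_self lvl i γ) h3
  rwa [einv_spec e he hx] at h4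

end core

end Run7.h199
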