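import Mathlib
import Pool.Agent.Run7.h199.Main

/-!
Recursion along a well order, sizes of levels, limit points, closing off in `ω₁` steps.
-/

universe u v w

open Cardinal Set

namespace Run7.h199

theorem exists_rec {B : Type v} [LinearOrder B] [WellFoundedLT B] {V : Type w} [Nonempty V]
    (P : B → (B → V) → V → Prop) (hex : ∀ i g, ∃ v, P i g v)
    (hcongr : ∀ i g g' v, (∀ x, x < i → g x = g' x) → P i g v → P i g' v) :
    ∃ ξ : B → V, ∀ i, P i ξ (ξ i) := by
  classical
  choose F hF using hex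
  let ξ : B → V := WellFounded.fix (wellFounded_lt (α := B))
    (fun i rec => F i (fun x => if h : x < i then rec x h else Classical.arbitrary V))
  have hξ : ∀ i, ξ i = F i (fun x => if x < i then ξ x else Classical.arbitrary V) := by
    intro i
    have h1 := WellFounded.fix_eq (wellFounded_lt (α := B))
      (fun i (rec : ∀ y, y < i → V) =>
        F i (fun x => if h : x < i then rec x h else Classical.arbitrary V)) i
    refine h1.trans ?_
    congr 1
  refine ⟨ξ, fun i => ?_⟩
  have h2 := hF i (fun x => if x < i then ξ x else Classical.arbitrary V)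
  rw [← hξ i] at h2
  refine hcongr i _ ξ _ ?_ h2
  intro x hx
  simp [hx]

section

variable {W : Type u} [LinearOrder W] [WellFoundedLT W]

theorem le_mk_cd_lt {l : Cardinal.{u}} (hl : l ≤ #W) :
    l ≤ #{x : W | cd x < l} := by
  set B : Set W := {x | cd x < l} with hB
  by_cases hBu : B = Set.univ
  · rw [hBu, mk_univ]
    exact hl
  · have hne : (Bᶜ).Nonempty := by
      rw [Set.nonempty_compl]
      exact hBu
    set w := WellFounded.min (wellFounded_lt (α := W)) Bᶜ hne with hw
    have hwB : w ∈ Bᶜ := WellFounded.min_mem _ _ _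
    have hsub : Set.Iio w ⊆ B := by
      intro x hx
      by_contra hxB
      exact WellFounded.not_lt_min (wellFounded_lt (α := W)) Bᶜ hxB hx
    have h1 : l ≤ cd w := by
      have : ¬ cd w < l := hwB
      exact not_lt.mp this
    exact h1.trans (mk_le_mk_of_subset hsub)

theorem exists_level_bound {l : Cardinal.{u}} (hl : ℵ₀ ≤ l)
    (hlW : l < #W) (X : Set W) (hX : #X ≤ l) (hXl : ∀ x ∈ X, cd x ≤ l) :
    ∃ γ : W, cd γ = l ∧ ∀ x ∈ X, x < γ := by
  set Z : Set W := {x | cd x < l} with hZ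
  have hZl : l ≤ #Z := le_mk_cd_lt hlW.le
  have hZl' : #Z ≤ l := mk_cd_lt_le l
  by_contra hcon
  have hno : ∀ γ : W, cd γ ≤ l → ∃ x ∈ X ∪ Z, γ ≤ x := by
    intro γ hγ
    by_contra hno
    push Not at hno
    apply hcon
    refine ⟨γ, le_antisymm hγ ?_, fun x hx => hno x (Or.inl hx)⟩
    exact hZl.trans (mk_le_mk_of_subset fun z hz => hno z (Or.inr hz))
  have h1 : Order.succ l ≤ #{x : W | cd x < Order.succ l} :=
    le_mk_cd_lt (Order.succ_le_of_lt hlW)
  have hsub : {x : W | cd x < Order.succ l} ⊆ ⋃ x : (X ∪ Z : Set W), Set.Iic (x : W) := by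
    intro γ hγ
    obtain ⟨x, hx, hxγ⟩ := hno γ (Order.lt_succ_iff.mp hγ)
    exact Set.mem_iUnion.mpr ⟨⟨x, hx⟩, hxγ⟩
  have h2 : #{x : W | cd x < Order.succ l} ≤ l := by
    calc #{x : W | cd x < Order.succ l} ≤ #(⋃ x : (X ∪ Z : Set W), Set.Iic (x : W)) :=
          mk_le_mk_of_subset hsub
      _ ≤ #(X ∪ Z : Set W) * ⨆ x : (X ∪ Z : Set W), #(Set.Iic (x : W)) := mk_iUnion_le _
      _ ≤ l * l := by
          apply mul_le_mul'
          · calc #(X ∪ Z : Set W) ≤ #X + #Z := mk_union_le _ _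
              _ ≤ l + l := by gcongr
              _ = l := add_eq_self hl
          · apply ciSup_le'
            intro x
            have : Set.Iic (x : W) = insert (x : W) (Set.Iio (x : W)) := by
              ext t
              simp [le_iff_eq_or_lt]
            rw [this]
            calc #(insert (x : W) (Set.Iio (x : W)) : Set W) ≤ #(Set.Iio (x : W)) + 1 :=
                  mk_insert_le
              _ ≤ l + 1 := by
                  gcongr
                  rcases x.2 with h | h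
                  · exact hXl _ h
                  · exact le_of_lt h
              _ = l := add_one_eq hl
      _ = l := mul_eq_self hl
  exact absurd (h1.trans h2) (not_le.mpr (Order.lt_succ l))

/-- The set of suprema of sequences of elements of `Y` is not bigger than `Y`. -/
theorem mk_limits_le (Y : Set W) :
    #{z : W | ∃ h : ℕ → W, (∀ n, h n ∈ Y) ∧ IsLUB (Set.range h) z} ≤ #Y + 1 := by
  classical
  set Z := {z : W | ∃ h : ℕ → W, (∀ n, h n ∈ Y) ∧ IsLUB (Set.range h) z} with hZ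
  let φ : Z → Option Y := fun z =>
    if h : {t : Y | (z : W) < t}.Nonempty then
      some (WellFounded.min (wellFounded_lt (α := Y)) _ h) else none
  have key : ∀ z z' : Z, (z : W) < z' → φ z ≠ φ z' := by
    intro z z' hlt heq
    obtain ⟨h', hh', hlub⟩ := z'.2
    have hex : ∃ n, (z : W) < h' n := by
      by_contra hcon
      push Not at hcon
      have : (z' : W) ≤ z := hlub.2 (by rintro _ ⟨n, rfl⟩; exact hcon n)
      exact absurd hlt (not_lt.mpr this)
    obtain ⟨n, hn⟩ := hex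
    have hn' : h' n ≤ z' := hlub.1 ⟨n, rfl⟩
    have hne : {t : Y | (z : W) < t}.Nonempty := ⟨⟨h' n, hh' n⟩, hn⟩
    have h1 : φ z = some (WellFounded.min (wellFounded_lt (α := Y)) _ hne) := by
      simp only [φ]
      rw [dif_pos hne]
    have h2 : WellFounded.min (wellFounded_lt (α := Y)) _ hne ≤ ⟨h' n, hh' n⟩ :=
      not_lt.mp (WellFounded.not_lt_min (wellFounded_lt (α := Y)) _ hn)
    rw [h1] at heq
    simp only [φ] at heq
    split_ifs at heq with hne'
    have h3 := WellFounded.min_mem (wellFounded_lt (α := Y)) _ hne'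
    rw [← Option.some.inj heq] at h3
    have h4 : (z' : W) < (WellFounded.min (wellFounded_lt (α := Y)) _ hne : Y) := h3
    have h5 : ((WellFounded.min (wellFounded_lt (α := Y)) _ hne : Y) : W) ≤ h' n := h2
    exact absurd (h4.trans_le (h5.trans hn')) (lt_irrefl _)
  have hinj : Function.Injective φ := by
    intro z z' h
    rcases lt_trichotomy (z : W) z' with h1 | h1 | h1
    · exact absurd h (key z z' h1)
    · exact Subtype.ext h1
    · exact absurd h.symm (key z' z h1)
  exact (mk_le_of_injective hinj).trans mk_option.le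

end

/-- The well order of type `(succ μ).ord`. -/
abbrev SW (μ : Cardinal.{u}) : Type u := (Order.succ μ).ord.ToType

theorem mk_SW (μ : Cardinal.{u}) : #(SW μ) = Order.succ μ := by simp

instance (μ : Cardinal.{u}) : Nonempty (SW μ) := by
  rw [← mk_ne_zero_iff, mk_SW]
  exact (Order.bot_lt_succ μ).ne'

theorem cd_SW_lt (μ : Cardinal.{u}) (x : SW μ) : cd x < #(SW μ) := by
  apply mk_Iio_lt
  rw [mk_SW]
  exact (Ordinal.type_toType _).symm

theorem cd_SW_le (μ : Cardinal.{u}) (x : SW μ) : cd x ≤ μ := by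
  have := cd_SW_lt μ x
  rw [mk_SW] at this
  exact Order.lt_succ_iff.mp this

theorem SW_bound {μ : Cardinal.{u}} (hμ : ℵ₀ ≤ μ) (X : Set (SW μ)) (hX : #X ≤ μ) :
    ∃ γ : SW μ, ∀ x ∈ X, x < γ :=
  exists_strict_bound hμ (mk_SW μ) (cd_SW_le μ) X hX

theorem mk_range_nat_le {W : Type u} (f : ℕ → W) : #(Set.range f) ≤ ℵ₀ := by
  have := mk_range_le_lift (f := f)
  simpa using this

theorem exists_omega1_closure {W : Type u} {κ : Cardinal.{u}} (hκ : κ.IsRegular)
    (h1 : Order.succ ℵ₀ < κ) (Ψ : Set W → Set W) (hΨ : ∀ Y : Set W, #Y < κ → #(Ψ Y) < κ)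
    (y : Set W) (hy : #y < κ) :
    ∃ Y : Set W, y ⊆ Y ∧ #Y < κ ∧ ∀ s : ℕ → W, (∀ n, s n ∈ Y) →
      ∃ Y₀ : Set W, Y₀ ⊆ Y ∧ (∀ n, s n ∈ Y₀) ∧ Ψ Y₀ ⊆ Y ∧ #Y₀ < κ := by
  have h0 : ℵ₀ < κ := (Order.lt_succ _).trans h1
  obtain ⟨Z, hZ⟩ := exists_rec (B := SW.{u} ℵ₀) (V := Set W)
    (fun i g v => v = y ∪ ⋃ j : Set.Iio i, (g j ∪ Ψ (g j)))
    (fun i g => ⟨_, rfl⟩) (by
      intro i g g' v hg hv
      rw [hv]
      congr 1
      apply Set.iUnion_congr
      intro j
      rw [hg j j.2])
  have hcdi : ∀ i : SW.{u} ℵ₀, #(Set.Iio i) < κ := fun i => (cd_SW_le ℵ₀ i).trans_lt h0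
  have hZc : ∀ i, #(Z i) < κ := by
    intro i
    induction i using WellFoundedLT.induction with
    | ind i ih =>
      rw [hZ i]
      refine (mk_union_le _ _).trans_lt (add_lt_of_lt h0.le hy ?_)
      rw [Cardinal.card_iUnion_lt_iff_forall_of_isRegular hκ (hcdi i)]
      intro j
      exact (mk_union_le _ _).trans_lt (add_lt_of_lt h0.le (ih j j.2) (hΨ _ (ih j j.2)))
  have hsub : ∀ i j : SW.{u} ℵ₀, i < j → Z i ∪ Ψ (Z i) ⊆ Z j := by
    intro i j hij
    rw [hZ j]
    exact Set.subset_union_of_subset_right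
      (Set.subset_iUnion (fun j' : Set.Iio j => Z j' ∪ Ψ (Z j')) ⟨i, hij⟩) _
  obtain ⟨i₀⟩ : Nonempty (SW.{u} ℵ₀) := by
    rw [← mk_ne_zero_iff, mk_SW]
    exact (aleph0_pos.trans (Order.lt_succ _)).ne'
  refine ⟨⋃ i, Z i, ?_, ?_, ?_⟩
  · refine Set.subset_iUnion_of_subset i₀ ?_
    rw [hZ i₀]
    exact Set.subset_union_left
  · rw [Cardinal.card_iUnion_lt_iff_forall_of_isRegular hκ (by rw [mk_SW]; exact h1)]
    exact hZc
  · intro s hs
    have hs' : ∀ n, ∃ i, s n ∈ Z i := fun n => Set.mem_iUnion.mp (hs n)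
    choose i hi using hs'
    obtain ⟨k, hk⟩ := SW_bound le_rfl (Set.range i) (mk_range_nat_le i)
    obtain ⟨k', hk'⟩ := SW_bound le_rfl ({k} : Set (SW.{u} ℵ₀)) (by simp)
    refine ⟨Z k, Set.subset_iUnion _ _, ?_, ?_, hZc k⟩
    · intro n
      exact hsub (i n) k (hk _ ⟨n, rfl⟩) (Or.inl (hi n))
    · exact (Set.subset_union_right.trans (hsub k k' (hk' k rfl))).trans (Set.subset_iUnion _ _)

end Run7.h199
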