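import Mathlib
import Pool.Agent.Run7.h199.Rec

/-!
Club guessing for points of cofinality `ω₁` in `ω₃`, in the form that we need.
-/

universe u

open Cardinal Set

namespace Run7.h199

/-- `ℵ₂` and the well order of type `ω₃`. -/
noncomputable abbrev a2 : Cardinal.{u} := Order.succ (Order.succ ℵ₀)

theorem aleph0_le_a2 : (ℵ₀ : Cardinal.{u}) ≤ a2 :=
  ((Order.lt_succ _).trans (Order.lt_succ _)).le

/-- `k` has uncountable cofinality. -/
def UCof {B : Type u} [LinearOrder B] (k : B) : Prop :=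
  (∃ x, x < k) ∧ ∀ h : ℕ → B, (∀ n, h n < k) → ∃ b, b < k ∧ ∀ n, h n < b

/-- `k` is the strict supremum of a sequence. -/
def Cof0 {B : Type u} [LinearOrder B] (k : B) : Prop :=
  ∃ h : ℕ → B, (∀ n, h n < k) ∧ ∀ x < k, ∃ n, x < h n

/-- closure points of `F`. -/
def cls {B : Type u} [LinearOrder B] (F : B → B) : Set B := {k | ∀ x < k, F x < k}

theorem SW_bdd {μ : Cardinal.{u}} (hμ : ℵ₀ ≤ μ) (f : ℕ → SW μ) : BddAbove (Set.range f) := by
  obtain ⟨γ, hγ⟩ := SW_bound hμ (Set.range f) ((mk_range_nat_le f).trans hμ)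
  exact ⟨γ, fun x hx => (hγ x hx).le⟩

theorem exists_point (D : Set (SW.{u} a2)) (hD1 : ∀ x, ∃ d ∈ D, x < d)
    (hD2 : ∀ h : ℕ → SW a2, (∀ n, h n ∈ D) → ∀ z, IsLUB (Set.range h) z → z ∈ D) :
    ∃ k : SW.{u} a2, ∃ s ⊆ D, (∀ d ∈ s, d < k) ∧ (∀ x < k, ∃ d ∈ s, x < d) ∧
      #s ≤ Order.succ ℵ₀ ∧
      (∀ h : ℕ → SW a2, (∀ n, h n ∈ s) → ∀ z, IsLUB (Set.range h) z → z ∈ s) ∧ UCof k := by
  classical
  set s : Set (SW.{u} a2) := {d | d ∈ D ∧ #(D ∩ Set.Iio d : Set (SW.{u} a2)) ≤ ℵ₀} with hs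
  have hsD : s ⊆ D := fun d hd => hd.1
  have hsc : #s ≤ Order.succ ℵ₀ := by
    have h1 : #{x : s | cd x < Order.succ ℵ₀} ≤ Order.succ ℵ₀ := mk_cd_lt_le (W := s) _
    have h2 : {x : s | cd x < Order.succ ℵ₀} = Set.univ := by
      ext x
      simp only [Set.mem_ofPred_eq, Set.mem_univ, iff_true, Order.lt_succ_iff]
      refine le_trans ?_ x.2.2
      unfold cd
      apply mk_le_of_injective (f := fun t : Set.Iio x => (⟨t.1.1, t.1.2.1, t.2⟩ :
        (D ∩ Set.Iio (x : SW.{u} a2) : Set (SW.{u} a2))))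
      intro t t' h
      have h' := Subtype.ext_iff.mp h
      exact Subtype.ext (Subtype.ext h')
    rw [h2, mk_univ] at h1
    exact h1
  have hs2 : ∀ h : ℕ → SW a2, (∀ n, h n ∈ s) → ∀ z, IsLUB (Set.range h) z → z ∈ s := by
    intro h hh z hz
    refine ⟨hD2 h (fun n => (hh n).1) z hz, ?_⟩
    have hsub : D ∩ Set.Iio z ⊆ ⋃ n : ULift.{u} ℕ, (D ∩ Set.Iio (h n.down)) := by
      rintro x ⟨hxD, hxz⟩
      by_contra hcon
      simp only [Set.mem_iUnion, Set.mem_inter_iff, Set.mem_Iio, not_exists, not_and,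
        not_lt] at hcon
      have : z ≤ x := hz.2 (by
        rintro _ ⟨n, rfl⟩
        exact hcon ⟨n⟩ hxD)
      exact absurd hxz (not_lt.mpr this)
    calc #(D ∩ Set.Iio z : Set (SW.{u} a2)) ≤
          #(⋃ n : ULift.{u} ℕ, (D ∩ Set.Iio (h n.down)) : Set (SW.{u} a2)) :=
          mk_le_mk_of_subset hsub
      _ ≤ #(ULift.{u} ℕ) * ⨆ n : ULift.{u} ℕ, #(D ∩ Set.Iio (h n.down) : Set (SW.{u} a2)) :=
          mk_iUnion_le _
      _ ≤ ℵ₀ * ℵ₀ := by
          apply mul_le_mul'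
          · simp
          · apply ciSup_le'
            intro n
            exact (hh n.down).2
      _ = ℵ₀ := aleph0_mul_aleph0
  have hs3 : ∀ d ∈ s, ∃ d' ∈ s, d < d' := by
    intro d hd
    have hne : {d' | d' ∈ D ∧ d < d'}.Nonempty := by
      obtain ⟨d', h1, h2⟩ := hD1 d
      exact ⟨d', h1, h2⟩
    set d' := WellFounded.min (wellFounded_lt (α := SW.{u} a2)) _ hne with hd'
    have h1 := WellFounded.min_mem (wellFounded_lt (α := SW.{u} a2)) _ hne
    refine ⟨d', ⟨h1.1, ?_⟩, h1.2⟩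
    have hsub : D ∩ Set.Iio d' ⊆ insert d (D ∩ Set.Iio d) := by
      rintro x ⟨hxD, hxd'⟩
      rcases lt_trichotomy x d with h | h | h
      · exact Or.inr ⟨hxD, h⟩
      · exact Or.inl h
      · have h2 : x ∈ {d' | d' ∈ D ∧ d < d'} := ⟨hxD, h⟩
        exact absurd hxd' (WellFounded.not_lt_min (wellFounded_lt (α := SW.{u} a2)) _ h2)
    calc #(D ∩ Set.Iio d' : Set (SW.{u} a2)) ≤ #(insert d (D ∩ Set.Iio d) : Set (SW.{u} a2)) :=
          mk_le_mk_of_subset hsub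
      _ ≤ #(D ∩ Set.Iio d : Set (SW.{u} a2)) + 1 := mk_insert_le
      _ ≤ ℵ₀ + 1 := by
          gcongr
          exact hd.2
      _ = ℵ₀ := add_one_eq le_rfl
  have hub : (upperBounds s).Nonempty := by
    obtain ⟨γ, hγ⟩ := SW_bound aleph0_le_a2 s (hsc.trans (Order.lt_succ _).le)
    exact ⟨γ, fun x hx => (hγ x hx).le⟩
  set k := WellFounded.min (wellFounded_lt (α := SW.{u} a2)) _ hub with hk
  have hk1 : ∀ d ∈ s, d < k := by
    intro d hd
    obtain ⟨d', hd', hlt⟩ := hs3 d hd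
    exact hlt.trans_le (WellFounded.min_mem (wellFounded_lt (α := SW.{u} a2)) _ hub hd')
  have hk2 : ∀ x < k, ∃ d ∈ s, x < d := by
    intro x hx
    by_contra hcon
    push Not at hcon
    exact WellFounded.not_lt_min (wellFounded_lt (α := SW.{u} a2)) (upperBounds s)
      (fun d hd => hcon d hd) hx
  have hsne : ∃ d, d ∈ s := by
    have hne : D.Nonempty := by
      obtain ⟨d, hd, -⟩ := hD1 (Classical.arbitrary _)
      exact ⟨d, hd⟩
    refine ⟨WellFounded.min (wellFounded_lt (α := SW.{u} a2)) D hne,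
      WellFounded.min_mem (wellFounded_lt (α := SW.{u} a2)) D hne, ?_⟩
    have : D ∩ Set.Iio (WellFounded.min (wellFounded_lt (α := SW.{u} a2)) D hne) = ∅ := by
      ext x
      simp only [Set.mem_inter_iff, Set.mem_Iio, Set.mem_empty_iff_false, iff_false, not_and]
      intro hx
      exact WellFounded.not_lt_min (wellFounded_lt (α := SW.{u} a2)) D hx
    rw [this]
    simp
  obtain ⟨d₀, hd₀⟩ := hsne
  refine ⟨k, s, hsD, hk1, hk2, hsc, hs2, ⟨d₀, hk1 d₀ hd₀⟩, ?_⟩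
  intro h hh
  choose d hd hhd using fun n => hk2 (h n) (hh n)
  have hlub := supSeq_isLUB (SW_bdd aleph0_le_a2 d)
  refine ⟨supSeq d, hk1 _ (hs2 d hd _ hlub), fun n => (hhd n).trans_le (hlub.1 ⟨n, rfl⟩)⟩

theorem cls_unbounded (F : SW.{u} a2 → SW.{u} a2) (x : SW.{u} a2) : ∃ d ∈ cls F, x < d := by
  classical
  have hN : ∀ x : SW.{u} a2, ∃ y, x < y ∧ ∀ z ≤ x, F z < y := by
    intro x
    obtain ⟨γ, hγ⟩ := SW_bound aleph0_le_a2 (insert x (F '' Set.Iic x)) (by
      refine mk_insert_le.trans ?_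
      have h1 : #(Set.Iic x) ≤ a2 := by
        have : Set.Iic x = insert x (Set.Iio x) := by
          ext t
          simp [le_iff_eq_or_lt]
        rw [this]
        refine mk_insert_le.trans ?_
        calc #(Set.Iio x) + 1 ≤ a2 + 1 := by
              gcongr
              exact cd_SW_le _ x
          _ = a2 := add_one_eq aleph0_le_a2
      calc #(F '' Set.Iic x) + 1 ≤ a2 + 1 := by
            gcongr
            exact mk_image_le.trans h1
        _ = a2 := add_one_eq aleph0_le_a2)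
    exact ⟨γ, hγ x (Or.inl rfl), fun z hz => hγ _ (Or.inr ⟨z, hz, rfl⟩)⟩
  choose N hN1 hN2 using hN
  let a : ℕ → SW.{u} a2 := fun n => Nat.rec x (fun _ z => N z) n
  have ha : ∀ n, a (n + 1) = N (a n) := fun n => rfl
  have hlub := supSeq_isLUB (SW_bdd aleph0_le_a2 a)
  refine ⟨supSeq a, ?_, ?_⟩
  · intro y hy
    have hex : ∃ n, y < a n := by
      by_contra hcon
      push Not at hcon
      exact absurd hy (not_lt.mpr (hlub.2 (by rintro _ ⟨n, rfl⟩; exact hcon n)))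
    obtain ⟨n, hn⟩ := hex
    have h1 : F y < a (n + 1) := by
      rw [ha]
      exact hN2 _ _ hn.le
    exact h1.trans_le (hlub.1 ⟨n + 1, rfl⟩)
  · have h1 : x < a 1 := by
      have : a 1 = N (a 0) := rfl
      rw [this]
      exact hN1 _
    exact h1.trans_le (hlub.1 ⟨1, rfl⟩)

theorem cls_closed (F : SW.{u} a2 → SW.{u} a2) (h : ℕ → SW.{u} a2) (hh : ∀ n, h n ∈ cls F)
    (z : SW.{u} a2) (hz : IsLUB (Set.range h) z) : z ∈ cls F := by
  intro x hx
  have hex : ∃ n, x < h n := by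
    by_contra hcon
    push Not at hcon
    exact absurd hx (not_lt.mpr (hz.2 (by rintro _ ⟨n, rfl⟩; exact hcon n)))
  obtain ⟨n, hn⟩ := hex
  exact (hh n x hn).trans_le (hz.1 ⟨n, rfl⟩)

theorem exists_guess : ∃ C : SW.{u} a2 → Set (SW.{u} a2), ∀ F : SW.{u} a2 → SW.{u} a2,
    ∃ k, UCof k ∧ (∀ x < k, ∃ c ∈ C k, x < c) ∧ ∀ c ∈ C k, c < k ∧ c ∈ cls F ∧ Cof0 c := by
  classical
  let Q : SW.{u} a2 → Set (SW.{u} a2) → Prop := fun k s =>
    (∀ d ∈ s, d < k) ∧ (∀ x < k, ∃ d ∈ s, x < d) ∧ #s ≤ Order.succ ℵ₀ ∧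
      (∀ h : ℕ → SW a2, (∀ n, h n ∈ s) → ∀ z, IsLUB (Set.range h) z → z ∈ s)
  have hcex : ∀ k, ∃ s : Set (SW.{u} a2), (∃ s', Q k s') → Q k s := by
    intro k
    by_cases h : ∃ s', Q k s'
    · obtain ⟨s', hs'⟩ := h
      exact ⟨s', fun _ => hs'⟩
    · exact ⟨∅, fun h' => absurd h' h⟩
  choose c hc using hcex
  by_contra hcon
  push Not at hcon
  choose Ψ hΨ using fun F : SW.{u} a2 → SW.{u} a2 =>
    hcon (fun k => {z | z ∈ c k ∧ z < k ∧ z ∈ cls F ∧ Cof0 z})
  -- the recursion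
  obtain ⟨Fs, hFs⟩ := exists_rec (B := SW.{u} (Order.succ ℵ₀)) (V := SW.{u} a2 → SW.{u} a2)
    (fun i g v => ∀ j, j < i → ∀ x, g j x ≤ v x ∧ Ψ (g j) x ≤ v x)
    (by
      intro i g
      have hb : ∀ x, ∃ y, ∀ j, j < i → g j x ≤ y ∧ Ψ (g j) x ≤ y := by
        intro x
        obtain ⟨γ, hγ⟩ := SW_bound aleph0_le_a2
          (Set.range (fun j : SW.{u} (Order.succ ℵ₀) => g j x) ∪
            Set.range (fun j : SW.{u} (Order.succ ℵ₀) => Ψ (g j) x)) (by
          refine (mk_union_le _ _).trans ?_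
          calc _ ≤ a2.{u} + a2 := by
                gcongr
                · refine mk_range_le.trans ?_
                  rw [mk_SW]
                · refine mk_range_le.trans ?_
                  rw [mk_SW]
            _ = a2 := add_eq_self aleph0_le_a2)
        exact ⟨γ, fun j _ => ⟨(hγ _ (Or.inl ⟨j, rfl⟩)).le, (hγ _ (Or.inr ⟨j, rfl⟩)).le⟩⟩
      choose v hv using hb
      exact ⟨v, fun j hj x => hv x j hj⟩)
    (by
      intro i g g' v hg hv j hj x
      rw [← hg j hj]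
      exact hv j hj x)
  have hFi : ∀ x, ∃ y, ∀ i, Fs i x ≤ y := by
    intro x
    obtain ⟨γ, hγ⟩ := SW_bound aleph0_le_a2 (Set.range fun i => Fs i x) (by
      refine mk_range_le.trans ?_
      rw [mk_SW])
    exact ⟨γ, fun i => (hγ _ ⟨i, rfl⟩).le⟩
  choose Fi hFi using hFi
  obtain ⟨k, s, hsD, hs1, hs2, hs3, hs4, hU⟩ := exists_point (cls Fi) (cls_unbounded Fi)
    (cls_closed Fi)
  obtain ⟨hc1, hc2, hc3, hc4⟩ := hc k ⟨s, hs1, hs2, hs3, hs4⟩
  have hlim : ∀ x < k, ∃ z ∈ c k, z < k ∧ z ∈ cls Fi ∧ Cof0 z ∧ x < z := by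
    intro x hx
    choose A hA1 hA2 using hc2
    choose S hS1 hS2 using hs2
    let a : ℕ → {x // x < k} := fun n => Nat.rec ⟨A x hx, hc1 _ (hA1 x hx)⟩
      (fun _ z => ⟨A (S z.1 z.2) (hs1 _ (hS1 z.1 z.2)), hc1 _ (hA1 _ _)⟩) n
    let b : ℕ → SW.{u} a2 := fun n => S (a n).1 (a n).2
    have hac : ∀ n, (a n).1 ∈ c k := by
      intro n
      cases n with
      | zero => exact hA1 x hx
      | succ n => exact hA1 _ _
    have hbs : ∀ n, b n ∈ s := fun n => hS1 _ _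
    have hab : ∀ n, (a n).1 < b n := fun n => hS2 _ _
    have hba : ∀ n, b n < (a (n + 1)).1 := fun n => hA2 _ _
    have hlub := supSeq_isLUB (SW_bdd aleph0_le_a2 (fun n => (a n).1))
    have hlub' : IsLUB (Set.range b) (supSeq fun n => (a n).1) := by
      constructor
      · rintro _ ⟨n, rfl⟩
        exact (hba n).le.trans (hlub.1 ⟨n + 1, rfl⟩)
      · intro t ht
        apply hlub.2
        rintro _ ⟨n, rfl⟩
        exact (hab n).le.trans (ht ⟨n, rfl⟩)
    set z := supSeq fun n => (a n).1 with hz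
    have hzc : z ∈ c k := hc4 _ hac z hlub
    have haz : ∀ n, (a n).1 < z := fun n =>
      ((hab n).trans (hba n)).trans_le (hlub.1 ⟨n + 1, rfl⟩)
    refine ⟨z, hzc, hc1 z hzc, hsD (hs4 b hbs z hlub'), ⟨fun n => (a n).1, haz, ?_⟩, ?_⟩
    · intro y hy
      by_contra hno
      push Not at hno
      exact absurd hy (not_lt.mpr (hlub.2 (by rintro _ ⟨n, rfl⟩; exact hno n)))
    · exact (hA2 x hx).trans (haz 0)
  have hbad : ∀ i, ∃ z ∈ c k, z ∈ cls (Fs i) ∧ z ∉ cls (Ψ (Fs i)) := by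
    intro i
    obtain ⟨z, hz, h1⟩ := hΨ (Fs i) k hU (by
      intro x hx
      obtain ⟨z, h1, h2, h3, h4, h5⟩ := hlim x hx
      refine ⟨z, ⟨h1, h2, ?_, h4⟩, h5⟩
      intro y hy
      exact (hFi y i).trans_lt (h3 y hy))
    obtain ⟨h2, h3, h4, h5⟩ := hz
    exact ⟨z, h2, h4, fun h6 => h1 h3 h6 h5⟩
  choose z hz1 hz2 hz3 using hbad
  have hinj : Function.Injective (fun i => (⟨z i, hz1 i⟩ : c k)) := by
    have key : ∀ i j, i < j → z i ≠ z j := by
      intro i j hij heq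
      apply hz3 i
      rw [heq]
      intro y hy
      exact ((hFs j i hij y).2).trans_lt (hz2 j y hy)
    intro i j h
    have h' : z i = z j := congrArg Subtype.val h
    rcases lt_trichotomy i j with h1 | h1 | h1
    · exact absurd h' (key i j h1)
    · exact h1
    · exact absurd h'.symm (key j i h1)
  have h1 := (mk_le_of_injective hinj).trans hc3
  rw [mk_SW] at h1
  exact absurd h1 (not_le.mpr (Order.lt_succ _))

end Run7.h199
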