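import Mathlib
import Pool.Agent.Run7.h199.Guess

/-!
Scales along the levels of a well order, and the covering family `K l γ` closed under them.
-/

universe u

open Cardinal Set

namespace Run7.h199

/-- The filter of sets of (indices of) levels that contain a final segment of the levels below
`l`. -/
def EL (lvl : ℕ → Cardinal.{u}) (l : Cardinal.{u}) : Filter ℕ where
  sets := {S | ∃ k, (k < l ∨ l = 0) ∧ ∀ i, k ≤ lvl i → lvl i < l → i ∈ S}
  univ_sets := ⟨0, (eq_zero_or_pos l).symm, fun _ _ _ => trivial⟩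
  sets_of_superset := by
    rintro S T ⟨k, hk, h⟩ hST
    exact ⟨k, hk, fun i h1 h2 => hST (h i h1 h2)⟩
  inter_sets := by
    rintro S T ⟨k, hk, h⟩ ⟨k', hk', h'⟩
    refine ⟨max k k', ?_, fun i h1 h2 => ⟨h i ((le_max_left _ _).trans h1) h2,
      h' i ((le_max_right _ _).trans h1) h2⟩⟩
    rcases hk with hk | hk
    · rcases hk' with hk' | hk'
      · exact Or.inl (max_lt hk hk')
      · exact Or.inr hk'
    · exact Or.inr hk

theorem eventually_EL {lvl : ℕ → Cardinal.{u}} {l : Cardinal.{u}} (hl : 0 < l) {Q : ℕ → Prop} :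
    (∀ᶠ i in EL lvl l, Q i) ↔ ∃ k < l, ∀ i, k ≤ lvl i → lvl i < l → Q i := by
  constructor
  · rintro ⟨k, hk, h⟩
    rcases hk with hk | hk
    · exact ⟨k, hk, h⟩
    · exact absurd hk hl.ne'
  · rintro ⟨k, hk, h⟩
    exact ⟨k, Or.inl hk, h⟩

section defs

variable {W : Type u} [LinearOrder W] [WellFoundedLT W]

open Classical in
/-- The least `ζ < γ` of level `l` with `g <* F ζ`, if there is one. -/
noncomputable def zeta (lvl : ℕ → Cardinal.{u}) (F : W → ℕ → W) (γ : W) (l : Cardinal.{u})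
    (g : ℕ → W) : W :=
  if h : {ζ | ζ < γ ∧ cd ζ = l ∧ ∀ᶠ i in EL lvl l, g i < F ζ i}.Nonempty then
    WellFounded.min (wellFounded_lt (α := W)) _ h else g 0

variable (e c : W → W → W) (G : W → ℕ → W) (lvl lam : ℕ → Cardinal.{u})

open Classical in
/-- The operations. -/
noncomputable def ops' (F : W → ℕ → W) (γ : W) (k : ℕ) (s : ℕ → W) : W :=
  match k.unpair.1 with
  | 0 => e (s 0) (s 1)
  | 1 => einv e (s 0) (s 1)
  | 2 => supSeq s
  | 3 => c (s 0) (s 1)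
  | 4 => G (s 0) k.unpair.2
  | 5 => if s 0 < γ then F (s 0) k.unpair.2 else s 0
  | _ => zeta lvl F γ (lam k.unpair.2) s

/-- The covering sets. -/
def Kc (F : W → ℕ → W) (l : Cardinal.{u}) (γ : W) : Set W :=
  cl (ops' e c G lvl lam F γ) (insert γ {x | cd x < l})

end defs

section closed

variable {W : Type u} [LinearOrder W] [WellFoundedLT W]
  {e c : W → W → W} {G : W → ℕ → W} {lvl lam : ℕ → Cardinal.{u}} {F : W → ℕ → W} {γ : W}
  {P : Set W}

theorem cl'_e (hP : OpClosed (ops' e c G lvl lam F γ) P) {δ x : W} (hδ : δ ∈ P) (hx : x ∈ P) :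
    e δ x ∈ P := by
  have := hP (Nat.pair 0 0) (fun n => if n = 0 then δ else x) (fun n => by split_ifs <;> assumption)
  simpa [ops'] using this

theorem cl'_einv (hP : OpClosed (ops' e c G lvl lam F γ) P) {δ x : W} (hδ : δ ∈ P) (hx : x ∈ P) :
    einv e δ x ∈ P := by
  have := hP (Nat.pair 1 0) (fun n => if n = 0 then δ else x) (fun n => by split_ifs <;> assumption)
  simpa [ops'] using this

theorem cl'_sup (hP : OpClosed (ops' e c G lvl lam F γ) P) {s : ℕ → W} (hs : ∀ n, s n ∈ P) :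
    supSeq s ∈ P := by
  have := hP (Nat.pair 2 0) s hs
  simpa [ops'] using this

theorem cl'_c (hP : OpClosed (ops' e c G lvl lam F γ) P) {δ x : W} (hδ : δ ∈ P) (hx : x ∈ P) :
    c δ x ∈ P := by
  have := hP (Nat.pair 3 0) (fun n => if n = 0 then δ else x) (fun n => by split_ifs <;> assumption)
  simpa [ops'] using this

theorem cl'_G (hP : OpClosed (ops' e c G lvl lam F γ) P) {ζ : W} (hζ : ζ ∈ P) (i : ℕ) :
    G ζ i ∈ P := by
  have := hP (Nat.pair 4 i) (fun _ => ζ) (fun _ => hζ)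
  simpa [ops'] using this

theorem cl'_F (hP : OpClosed (ops' e c G lvl lam F γ) P) {ζ : W} (hζ : ζ ∈ P) (hζγ : ζ < γ)
    (i : ℕ) : F ζ i ∈ P := by
  have := hP (Nat.pair 5 i) (fun _ => ζ) (fun _ => hζ)
  simpa [ops', hζγ] using this

theorem cl'_zeta (hP : OpClosed (ops' e c G lvl lam F γ) P) {s : ℕ → W} (hs : ∀ n, s n ∈ P)
    (i : ℕ) : zeta lvl F γ (lam i) s ∈ P := by
  have := hP (Nat.pair 6 i) s hs
  simpa [ops'] using this

theorem cl'_ops (hP : OpClosed (ops' e c G lvl lam F γ) P) : OpClosed (ops e) P := by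
  intro k s hs
  rcases k with _ | _ | k
  · exact cl'_e hP (hs 0) (hs 1)
  · exact cl'_einv hP (hs 0) (hs 1)
  · exact cl'_sup hP hs

/-- A criterion for being closed. -/
theorem opClosed' (h0 : ∀ s : ℕ → W, (∀ n, s n ∈ P) → e (s 0) (s 1) ∈ P)
    (h1 : ∀ s : ℕ → W, (∀ n, s n ∈ P) → einv e (s 0) (s 1) ∈ P)
    (h2 : ∀ s : ℕ → W, (∀ n, s n ∈ P) → supSeq s ∈ P)
    (h3 : ∀ s : ℕ → W, (∀ n, s n ∈ P) → c (s 0) (s 1) ∈ P)
    (h4 : ∀ s : ℕ → W, (∀ n, s n ∈ P) → ∀ i, G (s 0) i ∈ P)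
    (h5 : ∀ s : ℕ → W, (∀ n, s n ∈ P) → s 0 < γ → ∀ i, F (s 0) i ∈ P)
    (h6 : ∀ s : ℕ → W, (∀ n, s n ∈ P) → ∀ i, zeta lvl F γ (lam i) s ∈ P) :
    OpClosed (ops' e c G lvl lam F γ) P := by
  intro k s hs
  unfold ops'
  split
  · exact h0 s hs
  · exact h1 s hs
  · exact h2 s hs
  · exact h3 s hs
  · exact h4 s hs _
  · split_ifs with h
    · exact h5 s hs h _
    · exact hs 0
  · exact h6 s hs _

theorem ops'_congr {F' : W → ℕ → W} (h : ∀ x, x < γ → F x = F' x) :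
    ops' e c G lvl lam F γ = ops' e c G lvl lam F' γ := by
  classical
  have hz : ∀ l g, zeta lvl F γ l g = zeta lvl F' γ l g := by
    intro l g
    have hset : {ζ | ζ < γ ∧ cd ζ = l ∧ ∀ᶠ i in EL lvl l, g i < F ζ i} =
        {ζ | ζ < γ ∧ cd ζ = l ∧ ∀ᶠ i in EL lvl l, g i < F' ζ i} := by
      ext ζ
      simp only [Set.mem_ofPred_eq]
      constructor
      · rintro ⟨h1, h2, h3⟩
        rw [h ζ h1] at h3
        exact ⟨h1, h2, h3⟩
      · rintro ⟨h1, h2, h3⟩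
        rw [← h ζ h1] at h3
        exact ⟨h1, h2, h3⟩
    have key : ∀ A B : Set W, A = B →
        (if h : A.Nonempty then WellFounded.min (wellFounded_lt (α := W)) A h else g 0) =
        (if h : B.Nonempty then WellFounded.min (wellFounded_lt (α := W)) B h else g 0) := by
      rintro A _ rfl
      rfl
    exact key _ _ hset
  funext k s
  unfold ops'
  split
  · rfl
  · rfl
  · rfl
  · rfl
  · rfl
  · split_ifs with h1
    · rw [h _ h1]
    · rfl
  · exact hz _ _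

theorem zeta_eq {ζ : W} (hζγ : ζ ≤ γ) {l : Cardinal.{u}} {g : ℕ → W}
    (h : {ξ | ξ < ζ ∧ cd ξ = l ∧ ∀ᶠ i in EL lvl l, g i < F ξ i}.Nonempty) :
    zeta lvl F ζ l g = zeta lvl F γ l g := by
  have h' : {ξ | ξ < γ ∧ cd ξ = l ∧ ∀ᶠ i in EL lvl l, g i < F ξ i}.Nonempty := by
    obtain ⟨ξ, h1, h2⟩ := h
    exact ⟨ξ, h1.trans_le hζγ, h2⟩
  unfold zeta
  rw [dif_pos h, dif_pos h']
  have m1 := WellFounded.min_mem (wellFounded_lt (α := W)) _ h
  have m2 := WellFounded.min_mem (wellFounded_lt (α := W)) _ h'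
  set a := WellFounded.min (wellFounded_lt (α := W)) _ h with ha
  set b := WellFounded.min (wellFounded_lt (α := W)) _ h' with hb
  have h1 : b ≤ a := by
    apply not_lt.mp
    apply WellFounded.not_lt_min (wellFounded_lt (α := W))
    exact ⟨m1.1.trans_le hζγ, m1.2⟩
  have h2 : a ≤ b := by
    apply not_lt.mp
    apply WellFounded.not_lt_min (wellFounded_lt (α := W))
    exact ⟨h1.trans_lt m1.1, m2.2⟩
  exact le_antisymm h2 h1

end closed

/-- The data. -/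
structure Sys (W : Type u) [LinearOrder W] [WellFoundedLT W] where
  μ : Cardinal.{u}
  ρ : Cardinal.{u}
  e : W → W → W
  c : W → W → W
  G : W → ℕ → W
  lvl : ℕ → Cardinal.{u}
  lam : ℕ → Cardinal.{u}
  f : W → ℕ → W
  mkW : #W = Order.succ μ
  cdW : ∀ x : W, cd x ≤ μ
  hρ : ℵ₀ ≤ ρ
  he : ∀ δ, Set.InjOn (e δ) (Set.Iio δ)
  hec : ∀ δ x : W, x < δ → cd (e δ x) < cd δ
  hed : ∀ δ x : W, ¬ x < δ → e δ x = x
  lvl1 : ∀ i, ρ ≤ lvl i
  lvl2 : ∀ i, lvl i < μ
  lvl3 : ∀ l, ρ ≤ l → l < μ → ∃ i, lvl i = l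
  lam1 : ∀ i, ρ < lam i ∧ lam i ≤ μ ∧ ∀ l < lam i, Order.succ l < lam i
  lam2 : ∀ l, ρ < l → l ≤ μ → (∀ l' < l, Order.succ l' < l) → ∃ i, lam i = l
  hc1 : ∀ δ x, c δ x ≤ max δ x
  hc2 : ∀ δ, (∃ s ⊆ Set.Iio δ, #s ≤ ρ ∧ ∀ y < δ, ∃ t ∈ s, y < t) →
    ∀ y < δ, ∃ x, cd x < ρ ∧ y < c δ x ∧ c δ x < δ
  hG1 : ∀ ζ i, G ζ i ≤ ζ
  hG2 : ∀ l, ρ < l → l < μ → (∀ l' < l, Order.succ l' < l) → ∀ g : ℕ → W,
    ∃ ζ, cd ζ = l ∧ ∀ i, cd (g i) < l → G ζ i = g i
  hf1 : ∀ γ i, lvl i < cd γ → cd (f γ i) = lvl i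
  hf2 : ∀ γ i, lvl i < cd γ → ∀ j, lvl j < lvl i → ∀ z ∈ Kc e c G lvl lam f (lvl j) γ,
    cd z = lvl i → z < f γ i
  hf3 : ∀ γ i, ¬ lvl i < cd γ → f γ i = γ

namespace Sys

variable {W : Type u} [LinearOrder W] [WellFoundedLT W] (S : Sys W)

/-- The covering sets of the system. -/
def K (l : Cardinal.{u}) (γ : W) : Set W := Kc S.e S.c S.G S.lvl S.lam S.f l γ

theorem closedK (l : Cardinal.{u}) (γ : W) :
    OpClosed (ops' S.e S.c S.G S.lvl S.lam S.f γ) (S.K l γ) := opClosed_cl _ _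

theorem mem_self (l : Cardinal.{u}) (γ : W) : γ ∈ S.K l γ := subset_cl _ _ (Set.mem_insert _ _)

theorem mem_of_cd {l : Cardinal.{u}} {γ x : W} (h : cd x < l) : x ∈ S.K l γ :=
  subset_cl _ _ (Set.mem_insert_of_mem _ h)

include S in
theorem hμ0 : ℵ₀ ≤ S.μ := by
  obtain ⟨i, hi⟩ : ∃ i, S.lvl 0 = S.lvl i := ⟨0, rfl⟩
  exact S.hρ.trans ((S.lvl1 0).trans (S.lvl2 0).le)

include S in
theorem bdd (h : ℕ → W) : BddAbove (Set.range h) := by
  obtain ⟨γ, hγ⟩ := exists_strict_bound S.hμ0 S.mkW S.cdW (Set.range h)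
    ((mk_range_nat_le h).trans S.hμ0)
  exact ⟨γ, fun x hx => (hγ x hx).le⟩

theorem lt_of_cd_lt {x y : W} (h : cd x < cd y) : x < y := by
  by_contra hcon
  exact absurd h (not_lt.mpr (cd_mono (not_lt.mp hcon)))

theorem f_le (ζ : W) (i : ℕ) : S.f ζ i ≤ ζ := by
  by_cases h : S.lvl i < cd ζ
  · apply le_of_lt
    apply lt_of_cd_lt
    rw [S.hf1 ζ i h]
    exact h
  · exact (S.hf3 ζ i h).le

theorem K_le {l : Cardinal.{u}} {γ : W} (hl : l ≤ cd γ) {z : W} (hz : z ∈ S.K l γ) : z ≤ γ := by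
  have hsub : S.K l γ ⊆ Set.Iic γ := by
    apply cl_subset
    · apply opClosed'
      · intro s hs
        by_cases h : s 1 < s 0
        · exact (lt_of_cd_lt (S.hec _ _ h)).le.trans (hs 0)
        · rw [S.hed _ _ h]
          exact hs 1
      · intro s hs
        unfold einv
        split_ifs with h
        · exact h.choose_spec.1.le.trans (hs 0)
        · exact hs 1
      · intro s hs
        exact (supSeq_isLUB (S.bdd s)).2 (by rintro _ ⟨n, rfl⟩; exact hs n)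
      · intro s hs
        exact (S.hc1 _ _).trans (max_le (hs 0) (hs 1))
      · intro s hs i
        exact (S.hG1 _ _).trans (hs 0)
      · intro s hs _ i
        exact (S.f_le _ _).trans (hs 0)
      · intro s hs i
        unfold zeta
        split_ifs with h
        · exact (WellFounded.min_mem (wellFounded_lt (α := W)) _ h).1.le
        · exact hs 0
    · rintro x (rfl | hx)
      · exact le_refl x
      · exact (lt_of_cd_lt (lt_of_lt_of_le hx hl)).le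
  exact hsub hz

theorem K_mono {l l' : Cardinal.{u}} {γ ζ : W} (hll : l ≤ l') (hζ : ζ ∈ S.K l' γ) (hle : ζ ≤ γ) :
    S.K l ζ ⊆ S.K l' γ := by
  have hcl := S.closedK l' γ
  apply cl_subset
  · apply opClosed'
    · intro s hs
      exact cl'_e hcl (hs 0) (hs 1)
    · intro s hs
      exact cl'_einv hcl (hs 0) (hs 1)
    · intro s hs
      exact cl'_sup hcl hs
    · intro s hs
      exact cl'_c hcl (hs 0) (hs 1)
    · intro s hs i
      exact cl'_G hcl (hs 0) i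
    · intro s hs hlt i
      exact cl'_F hcl (hs 0) (hlt.trans_le hle) i
    · intro s hs i
      by_cases h : {ξ | ξ < ζ ∧ cd ξ = S.lam i ∧ ∀ᶠ j in EL S.lvl (S.lam i), s j < S.f ξ j}.Nonempty
      · rw [zeta_eq hle h]
        exact cl'_zeta hcl hs i
      · unfold zeta
        rw [dif_neg h]
        exact hs 0
  · rintro x (rfl | hx)
    · exact hζ
    · exact S.mem_of_cd (lt_of_lt_of_le hx hll)

theorem f_mem {l : Cardinal.{u}} {γ ζ : W} (hζ : ζ ∈ S.K l γ) (h : ζ < γ) (i : ℕ) :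
    S.f ζ i ∈ S.K l γ := cl'_F (S.closedK l γ) hζ h i

theorem lt_f {l : Cardinal.{u}} {γ z : W} {i : ℕ} (hl : S.ρ ≤ l) (hli : l < S.lvl i)
    (hi : S.lvl i < cd γ) (hz : z ∈ S.K l γ) (hzi : cd z = S.lvl i) : z < S.f γ i := by
  obtain ⟨j, hj⟩ := S.lvl3 l hl (hli.trans (S.lvl2 i))
  subst hj
  exact S.hf2 γ i hi j hli z hz hzi

/-- `f` is increasing along each limit level. -/
theorem f_lt {l : Cardinal.{u}} (hρl : S.ρ < l) (hlμ : l ≤ S.μ)
    (hlim : ∀ l' < l, Order.succ l' < l) {ζ ζ' : W} (hζ : cd ζ = l) (hζ' : cd ζ' = l)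
    (hlt : ζ < ζ') : ∀ᶠ i in EL S.lvl l, S.f ζ i < S.f ζ' i := by
  rw [eventually_EL ((bot_le.trans_lt hρl))]
  have h1 : cd (S.e ζ' ζ) < l := hζ' ▸ S.hec ζ' ζ hlt
  set k := max S.ρ (Order.succ (cd (S.e ζ' ζ))) with hk
  have hkl : k < l := max_lt hρl (hlim _ h1)
  refine ⟨Order.succ k, hlim k hkl, ?_⟩
  intro i hi1 hi2
  have hζK : ζ ∈ S.K k ζ' := by
    have h2 : S.e ζ' ζ ∈ S.K k ζ' :=
      S.mem_of_cd ((Order.lt_succ _).trans_le (le_max_right _ _))
    have h3 := cl'_einv (S.closedK k ζ') (S.mem_self k ζ') h2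
    rwa [einv_spec S.e S.he hlt] at h3
  exact S.lt_f (le_max_left _ _) ((Order.lt_succ k).trans_le hi1) (hζ' ▸ hi2)
    (S.f_mem hζK hlt i) (S.hf1 ζ i (hζ ▸ hi2))

/-- The least dominating index exists and belongs to the covering set. -/
theorem exists_zeta {l' l : Cardinal.{u}} (hl' : S.ρ ≤ l') (hl'μ : l' < S.μ) {γ : W}
    (hγ : cd γ = S.μ) (hρl : S.ρ < l) (hlμ : l ≤ S.μ)
    (hlim : ∀ l' < l, Order.succ l' < l) (g : ℕ → W) (hg : ∀ i, g i ∈ S.K l' γ)
    (hg' : ∀ i, cd (g i) = S.lvl i ∨ cd (g i) < S.ρ) :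
    ∃ ζ ∈ S.K l' γ, cd ζ = l ∧ (∀ᶠ i in EL S.lvl l, g i < S.f ζ i) ∧
      ∀ ξ < ζ, cd ξ = l → ¬ ∀ᶠ i in EL S.lvl l, g i < S.f ξ i := by
  have hl0 : 0 < l := bot_le.trans_lt hρl
  have hex : {ζ : W | (l = S.μ → ζ = γ) ∧ cd ζ = l ∧
      ∀ᶠ i in EL S.lvl l, g i < S.f ζ i}.Nonempty := by
    rcases hlμ.eq_or_lt with h | h
    · refine ⟨γ, fun _ => rfl, hγ.trans h.symm, ?_⟩
      rw [eventually_EL hl0]
      refine ⟨Order.succ l', ?_, ?_⟩
      · exact hlim l' (h ▸ hl'μ)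
      · intro i hi1 hi2
        have hi3 : S.lvl i < cd γ := by
          rw [hγ, ← h]
          exact hi2
        rcases hg' i with h1 | h1
        · exact S.lt_f hl' ((Order.lt_succ _).trans_le hi1) hi3 (hg i) h1
        · apply lt_of_cd_lt
          rw [S.hf1 γ i hi3]
          exact h1.trans_le (S.lvl1 i)
    · obtain ⟨ζ, hζ, hζg⟩ := S.hG2 l hρl h hlim g
      refine ⟨ζ, fun h' => absurd h' h.ne, hζ, ?_⟩
      rw [eventually_EL hl0]
      refine ⟨Order.succ S.ρ, hlim _ hρl, ?_⟩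
      intro i hi1 hi2
      have hi3 : S.lvl i < cd ζ := by
        rw [hζ]
        exact hi2
      rcases hg' i with h1 | h1
      · have h2 : S.G ζ i = g i := hζg i (by rw [h1]; exact hi2)
        have h3 : g i ∈ S.K S.ρ ζ := by
          rw [← h2]
          exact cl'_G (S.closedK _ _) (S.mem_self _ _) i
        exact S.lt_f le_rfl ((Order.lt_succ _).trans_le hi1) hi3 h3 h1
      · apply lt_of_cd_lt
        rw [S.hf1 ζ i hi3]
        exact h1.trans_le (S.lvl1 i)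
  obtain ⟨ζ₁, h1, h2, h3⟩ := hex
  have hne : {ζ : W | cd ζ = l ∧ ∀ᶠ i in EL S.lvl l, g i < S.f ζ i}.Nonempty := ⟨ζ₁, h2, h3⟩
  set ζ := WellFounded.min (wellFounded_lt (α := W)) _ hne with hζ
  have hmem := WellFounded.min_mem (wellFounded_lt (α := W)) _ hne
  rw [← hζ] at hmem
  have hmin : ∀ ξ < ζ, cd ξ = l → ¬ ∀ᶠ i in EL S.lvl l, g i < S.f ξ i := by
    intro ξ hξ hξl hcon
    exact WellFounded.not_lt_min (wellFounded_lt (α := W))
      {ζ : W | cd ζ = l ∧ ∀ᶠ i in EL S.lvl l, g i < S.f ζ i} ⟨hξl, hcon⟩ hξ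
  refine ⟨ζ, ?_, hmem.1, hmem.2, hmin⟩
  rcases lt_trichotomy ζ γ with hlt | heq | hgt
  · obtain ⟨i, hi⟩ := S.lam2 l hρl hlμ hlim
    have hne' : {ξ | ξ < γ ∧ cd ξ = l ∧ ∀ᶠ i in EL S.lvl l, g i < S.f ξ i}.Nonempty :=
      ⟨ζ, hlt, hmem⟩
    have h4 : zeta S.lvl S.f γ l g = ζ := by
      unfold zeta
      rw [dif_pos hne']
      have m := WellFounded.min_mem (wellFounded_lt (α := W)) _ hne'
      apply le_antisymm
      · apply not_lt.mp
        apply WellFounded.not_lt_min (wellFounded_lt (α := W))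
        exact ⟨hlt, hmem⟩
      · apply not_lt.mp
        intro hcon
        exact hmin _ hcon m.2.1 m.2.2
    have h5 := cl'_zeta (S.closedK l' γ) hg i
    rw [hi, h4] at h5
    exact h5
  · rw [heq]
    exact S.mem_self _ _
  · exfalso
    rcases hlμ.eq_or_lt with h | h
    · have h5 : ζ₁ = γ := h1 h
      subst h5
      exact hmin _ hgt h2 h3
    · have : cd γ ≤ cd ζ := cd_mono hgt.le
      rw [hγ, hmem.1] at this
      exact absurd h (not_lt.mpr this)

end Sys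

end Run7.h199
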