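import Mathlib
import Pool.Agent.Run7.h199.Scale

/-!
Existence of the systems of `Scale.lean`.
-/

universe u

open Cardinal Set

namespace Run7.h199

section

variable {W : Type u} [LinearOrder W] [WellFoundedLT W]

theorem exists_c {ρ : Cardinal.{u}} (hρW : ρ ≤ #W) (δ : W) :
    ∃ f : W → W, (∀ x, f x ≤ max δ x) ∧
      ((∃ s ⊆ Set.Iio δ, #s ≤ ρ ∧ ∀ y < δ, ∃ t ∈ s, y < t) →
        ∀ y < δ, ∃ x, cd x < ρ ∧ y < f x ∧ f x < δ) := by
  classical
  by_cases h : ∃ s ⊆ Set.Iio δ, #s ≤ ρ ∧ ∀ y < δ, ∃ t ∈ s, y < t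
  · obtain ⟨s, hs1, hs2, hs3⟩ := h
    have h1 : #s ≤ #{x : W | cd x < ρ} := hs2.trans (le_mk_cd_lt hρW)
    obtain ⟨g⟩ := (Cardinal.le_def _ _).mp h1
    refine ⟨fun x => if hx : ∃ t : s, (g t : W) = x then hx.choose else x, ?_, ?_⟩
    · intro x
      simp only
      split_ifs with hx
      · exact (le_of_lt (hs1 hx.choose.2)).trans (le_max_left _ _)
      · exact le_max_right _ _
    · intro _ y hy
      obtain ⟨t, ht, hyt⟩ := hs3 y hy
      have hx : ∃ t' : s, (g t' : W) = g ⟨t, ht⟩ := ⟨⟨t, ht⟩, rfl⟩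
      have h2 : hx.choose = ⟨t, ht⟩ := g.injective (Subtype.ext hx.choose_spec)
      refine ⟨g ⟨t, ht⟩, (g ⟨t, ht⟩).2, ?_, ?_⟩
      · simp only [dif_pos hx]
        rw [h2]
        exact hyt
      · simp only [dif_pos hx]
        rw [h2]
        exact hs1 ht
  · exact ⟨fun x => x, fun x => le_max_right _ _, fun h' => absurd h' h⟩

theorem le_mk_level {l : Cardinal.{u}} (hl : ℵ₀ ≤ l) (hlW : l < #W) :
    Order.succ l ≤ #{x : W | cd x = l} := by
  by_contra hcon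
  push Not at hcon
  have h1 : Order.succ l ≤ #{x : W | cd x < Order.succ l} :=
    le_mk_cd_lt (Order.succ_le_of_lt hlW)
  have hsub : {x : W | cd x < Order.succ l} ⊆ {x : W | cd x = l} ∪ {x : W | cd x < l} := by
    intro x hx
    exact (Order.lt_succ_iff.mp hx).eq_or_lt
  have h2 : #{x : W | cd x < Order.succ l} ≤ l := by
    calc #{x : W | cd x < Order.succ l} ≤
          #({x : W | cd x = l} ∪ {x : W | cd x < l} : Set W) := mk_le_mk_of_subset hsub
      _ ≤ #{x : W | cd x = l} + #{x : W | cd x < l} := mk_union_le _ _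
      _ ≤ l + l := by
          gcongr
          · exact Order.lt_succ_iff.mp hcon
          · exact mk_cd_lt_le l
      _ = l := add_eq_self hl
  exact absurd (h1.trans h2) (not_le.mpr (Order.lt_succ l))

theorem exists_J {l : Cardinal.{u}} (hl : ℵ₀ ≤ l) (hlW : l < #W) (hpow : l ^ ℵ₀ ≤ Order.succ l) :
    ∃ J : (ℕ → W) → W, Set.InjOn J {h | ∀ i, cd (h i) < l} ∧
      ∀ h : ℕ → W, (∀ i, cd (h i) < l) → cd (J h) = l := by
  classical
  have h1 : #(ℕ → {x : W | cd x < l}) ≤ #{x : W | cd x = l} := by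
    refine le_trans ?_ (le_mk_level hl hlW)
    refine le_trans ?_ hpow
    have : #(ℕ → {x : W | cd x < l}) = #{x : W | cd x < l} ^ ℵ₀ := by simp
    rw [this]
    exact power_le_power_right (mk_cd_lt_le l)
  obtain ⟨g⟩ := (Cardinal.le_def _ _).mp h1
  have hne : Nonempty W := by
    rw [← mk_ne_zero_iff]
    exact (bot_le.trans_lt hlW).ne'
  refine ⟨fun h => if hh : ∀ i, cd (h i) < l then (g fun i => ⟨h i, hh i⟩ : W)
    else Classical.arbitrary W, ?_, ?_⟩
  · intro h hh h' hh' heq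
    have hh1 : ∀ i, cd (h i) < l := hh
    have hh1' : ∀ i, cd (h' i) < l := hh'
    simp only [dif_pos hh1, dif_pos hh1'] at heq
    have := g.injective (Subtype.ext heq)
    funext i
    have h2 := congrFun this i
    exact congrArg Subtype.val h2
  · intro h hh
    simp only [dif_pos hh]
    exact (g fun i => ⟨h i, hh i⟩).2

theorem exists_G {μ ρ : Cardinal.{u}} (hρ : ℵ₀ ≤ ρ) (hμW : μ ≤ #W)
    (hpow : ∀ l, ρ ≤ l → l < μ → l ^ ℵ₀ ≤ Order.succ l) :
    ∃ G : W → ℕ → W, (∀ ζ i, G ζ i ≤ ζ) ∧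
      ∀ l, ρ < l → l < μ → (∀ l' < l, Order.succ l' < l) → ∀ g : ℕ → W,
        ∃ ζ, cd ζ = l ∧ ∀ i, cd (g i) < l → G ζ i = g i := by
  classical
  have hJ : ∀ l : Cardinal.{u}, ∃ J : (ℕ → W) → W, ρ < l → l < μ →
      Set.InjOn J {h | ∀ i, cd (h i) < l} ∧
      ∀ h : ℕ → W, (∀ i, cd (h i) < l) → cd (J h) = l := by
    intro l
    by_cases h : ρ < l ∧ l < μ
    · obtain ⟨J, hJ⟩ := exists_J (hρ.trans h.1.le) (h.2.trans_le hμW) (hpow l h.1.le h.2)
      exact ⟨J, fun _ _ => hJ⟩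
    · exact ⟨fun h => h 0, fun h1 h2 => absurd ⟨h1, h2⟩ h⟩
  choose J hJ using hJ
  refine ⟨fun ζ i => if H : ∃ h : ℕ → W, (∀ i, cd (h i) < cd ζ) ∧ J (cd ζ) h = ζ then H.choose i
    else ζ, ?_, ?_⟩
  · intro ζ i
    simp only
    split_ifs with H
    · exact (Sys.lt_of_cd_lt (H.choose_spec.1 i)).le
    · exact le_rfl
  · intro l hl1 hl2 _ g
    obtain ⟨w, hw⟩ : ∃ w : W, cd w < l := by
      have h1 : l ≤ #{x : W | cd x < l} := le_mk_cd_lt (hl2.le.trans hμW)
      have h2 : #{x : W | cd x < l} ≠ 0 := by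
        intro h
        rw [h] at h1
        exact absurd (bot_le.trans_lt hl1) (not_lt.mpr h1)
      obtain ⟨w⟩ := mk_ne_zero_iff.mp h2
      exact ⟨w, w.2⟩
    obtain ⟨hJ1, hJ2⟩ := hJ l hl1 hl2
    let h : ℕ → W := fun i => if cd (g i) < l then g i else w
    have hh : ∀ i, cd (h i) < l := by
      intro i
      simp only [h]
      split_ifs with h1
      · exact h1
      · exact hw
    have hcd : cd (J l h) = l := hJ2 h hh
    have H : ∃ h' : ℕ → W, (∀ i, cd (h' i) < cd (J l h)) ∧ J (cd (J l h)) h' = J l h :=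
      ⟨h, by rw [hcd]; exact hh, by rw [hcd]⟩
    have h3 : H.choose = h := by
      have key : ∀ (h₀ : ℕ → W) (l' : Cardinal.{u}), l' = l →
          (∀ i, cd (h₀ i) < l') ∧ J l' h₀ = J l h → h₀ = h := by
        rintro h₀ l' rfl h4
        exact hJ1 h4.1 hh h4.2
      exact key _ _ hcd H.choose_spec
    refine ⟨J l h, hcd, ?_⟩
    intro i hi
    simp only [dif_pos H]
    rw [h3]
    simp only [h]
    rw [if_pos hi]

theorem mk_Kc_le (e c : W → W → W) (G : W → ℕ → W) (lvl lam : ℕ → Cardinal.{u})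
    (F : W → ℕ → W) {l : Cardinal.{u}} (hl : ℵ₀ ≤ l) (γ : W) :
    #(Kc e c G lvl lam F l γ) ≤ l ^ ℵ₀ := by
  refine (mk_cl_le _ _).trans ?_
  apply power_le_power_right
  calc #(insert γ {x : W | cd x < l} : Set W) + ℵ₀ ≤ (#{x : W | cd x < l} + 1) + ℵ₀ := by
        gcongr
        exact mk_insert_le
    _ ≤ (l + 1) + l := by
        gcongr
        exact mk_cd_lt_le l
    _ = l := by rw [add_one_eq hl, add_eq_self hl]

theorem exists_f {μ ρ : Cardinal.{u}} (hρ : ℵ₀ ≤ ρ) (hμW : #W = Order.succ μ)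
    (e c : W → W → W) (G : W → ℕ → W) (lvl lam : ℕ → Cardinal.{u})
    (lvl1 : ∀ i, ρ ≤ lvl i) (lvl2 : ∀ i, lvl i < μ)
    (hpow : ∀ l, ρ ≤ l → l < μ → l ^ ℵ₀ ≤ Order.succ l) :
    ∃ f : W → ℕ → W, (∀ γ i, lvl i < cd γ → cd (f γ i) = lvl i) ∧
      (∀ γ i, lvl i < cd γ → ∀ j, lvl j < lvl i → ∀ z ∈ Kc e c G lvl lam f (lvl j) γ,
        cd z = lvl i → z < f γ i) ∧ (∀ γ i, ¬ lvl i < cd γ → f γ i = γ) := by
  classical
  have hne : Nonempty W := by
    rw [← mk_ne_zero_iff, hμW]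
    exact (Order.bot_lt_succ μ).ne'
  obtain ⟨f, hf⟩ := exists_rec (B := W) (V := ℕ → W)
    (fun γ F v => ∀ i, (lvl i < cd γ → (cd (v i) = lvl i ∧ ∀ j, lvl j < lvl i →
      ∀ z ∈ Kc e c G lvl lam F (lvl j) γ, cd z = lvl i → z < v i)) ∧
      (¬ lvl i < cd γ → v i = γ)) (by
    intro γ F
    have h1 : ∀ i, ∃ w : W, (lvl i < cd γ → (cd w = lvl i ∧ ∀ j, lvl j < lvl i →
      ∀ z ∈ Kc e c G lvl lam F (lvl j) γ, cd z = lvl i → z < w)) ∧
      (¬ lvl i < cd γ → w = γ) := by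
      intro i
      by_cases hi : lvl i < cd γ
      · set X : Set W := {z | cd z = lvl i ∧ ∃ j, lvl j < lvl i ∧
          z ∈ Kc e c G lvl lam F (lvl j) γ} with hX
        have hXc : #X ≤ lvl i := by
          have hsub : X ⊆ ⋃ j : {j : ULift.{u} ℕ // lvl j.down < lvl i},
              Kc e c G lvl lam F (lvl j.1.down) γ := by
            rintro z ⟨-, j, hj, hz⟩
            exact Set.mem_iUnion.mpr ⟨⟨⟨j⟩, hj⟩, hz⟩
          calc #X ≤ #(⋃ j : {j : ULift.{u} ℕ // lvl j.down < lvl i},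
              Kc e c G lvl lam F (lvl j.1.down) γ : Set W) := mk_le_mk_of_subset hsub
            _ ≤ #{j : ULift.{u} ℕ // lvl j.down < lvl i} *
                ⨆ j : {j : ULift.{u} ℕ // lvl j.down < lvl i},
                  #(Kc e c G lvl lam F (lvl j.1.down) γ) := mk_iUnion_le _
            _ ≤ ℵ₀ * lvl i := by
                apply mul_le_mul'
                · exact (mk_subtype_le _).trans (by simp)
                · apply ciSup_le'
                  intro j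
                  refine (mk_Kc_le e c G lvl lam F (hρ.trans (lvl1 _)) γ).trans ?_
                  exact (hpow _ (lvl1 _) (lvl2 _)).trans (Order.succ_le_of_lt j.2)
            _ = lvl i := aleph0_mul_eq (hρ.trans (lvl1 i))
        obtain ⟨w, hw1, hw2⟩ := exists_level_bound (hρ.trans (lvl1 i))
          (show lvl i < #W by rw [hμW]; exact (lvl2 i).trans (Order.lt_succ μ)) X hXc
          (fun x hx => hx.1.le)
        exact ⟨w, fun _ => ⟨hw1, fun j hj z hz hzi => hw2 z ⟨hzi, j, hj, hz⟩⟩,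
          fun h => absurd hi h⟩
      · exact ⟨γ, fun h => absurd h hi, fun _ => rfl⟩
    choose w hw using h1
    exact ⟨w, hw⟩) (by
    intro γ F F' v hF hv i
    have h1 : ∀ l, Kc e c G lvl lam F l γ = Kc e c G lvl lam F' l γ := by
      intro l
      unfold Kc
      rw [ops'_congr hF]
    refine ⟨fun hi => ⟨((hv i).1 hi).1, fun j hj z hz => ?_⟩, (hv i).2⟩
    rw [← h1] at hz
    exact ((hv i).1 hi).2 j hj z hz)
  exact ⟨f, fun γ i hi => ((hf γ i).1 hi).1, fun γ i hi => ((hf γ i).1 hi).2,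
    fun γ i => (hf γ i).2⟩

end

theorem exists_sys {μ ρ : Cardinal.{u}} (hρ : ℵ₀ ≤ ρ) (hρμ : ρ < μ)
    (lvl lam : ℕ → Cardinal.{u}) (lvl1 : ∀ i, ρ ≤ lvl i) (lvl2 : ∀ i, lvl i < μ)
    (lvl3 : ∀ l, ρ ≤ l → l < μ → ∃ i, lvl i = l)
    (lam1 : ∀ i, ρ < lam i ∧ lam i ≤ μ ∧ ∀ l < lam i, Order.succ l < lam i)
    (lam2 : ∀ l, ρ < l → l ≤ μ → (∀ l' < l, Order.succ l' < l) → ∃ i, lam i = l)
    (hpow : ∀ l, ρ ≤ l → l < μ → l ^ ℵ₀ ≤ Order.succ l) :
    ∃ S : Sys (SW μ), S.μ = μ ∧ S.ρ = ρ ∧ S.lvl = lvl ∧ S.lam = lam := by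
  classical
  have hcoll := fun δ : SW μ => exists_coll (cd_SW_lt μ) δ
  choose e₀ he₀ hec₀ using hcoll
  have hρW : ρ ≤ #(SW μ) := by
    rw [mk_SW]
    exact (hρμ.trans (Order.lt_succ μ)).le
  choose c hc1 hc2 using fun δ : SW μ => exists_c hρW δ
  obtain ⟨G, hG1, hG2⟩ := exists_G (W := SW μ) hρ (by rw [mk_SW]; exact (Order.lt_succ μ).le) hpow
  let e : SW μ → SW μ → SW μ := fun δ x => if x < δ then e₀ δ x else x
  obtain ⟨f, hf1, hf2, hf3⟩ := exists_f hρ (mk_SW μ) e c G lvl lam lvl1 lvl2 hpow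
  refine ⟨{ μ := μ, ρ := ρ, e := e, c := c, G := G, lvl := lvl, lam := lam, f := f,
            mkW := mk_SW μ, cdW := cd_SW_le μ, hρ := hρ, he := ?_, hec := ?_, hed := ?_,
            lvl1 := lvl1, lvl2 := lvl2, lvl3 := lvl3, lam1 := lam1, lam2 := lam2,
            hc1 := hc1, hc2 := hc2, hG1 := hG1, hG2 := hG2,
            hf1 := hf1, hf2 := hf2, hf3 := hf3 }, rfl, rfl, rfl, rfl⟩
  · intro δ x hx y hy hxy
    have hx' : x < δ := hx
    have hy' : y < δ := hy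
    simp only [e, if_pos hx', if_pos hy'] at hxy
    exact he₀ δ hx hy hxy
  · intro δ x hx
    simp only [e, if_pos hx]
    exact hec₀ δ x hx
  · intro δ x hx
    simp only [e, if_neg hx]

end Run7.h199
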