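import Mathlib
import Pool.Agent.Run7.h199.Exist

/-!
The scale `f` has at most `ℵ₃` changes on a countable set.
-/

universe u

open Cardinal Set

namespace Run7.h199

namespace Sys

variable {W : Type u} [LinearOrder W] [WellFoundedLT W] (S : Sys W)

/-- The points of level `l` at which the trace of the scale on `a` changes. -/
def R (l : Cardinal.{u}) (a : Set W) : Set W :=
  {ζ | cd ζ = l ∧ ∀ ζ' < ζ, cd ζ' = l →
    ¬ ∀ᶠ i in EL S.lvl l, ∀ t ∈ a, ¬ (S.f ζ' i ≤ t ∧ t < S.f ζ i)}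

theorem mem_R_of_min {l : Cardinal.{u}} {a : Set W} {g : ℕ → W} (hg : ∀ i, g i ∈ a) {ζ : W}
    (hζ : cd ζ = l) (h : ∀ᶠ i in EL S.lvl l, g i < S.f ζ i)
    (hmin : ∀ ξ < ζ, cd ξ = l → ¬ ∀ᶠ i in EL S.lvl l, g i < S.f ξ i) : ζ ∈ S.R l a := by
  refine ⟨hζ, fun ζ' hlt hl hcon => hmin ζ' hlt hl ?_⟩
  filter_upwards [h, hcon] with i h1 h2
  by_contra h3
  exact h2 (g i) (hg i) ⟨not_lt.mp h3, h1⟩

end Sys

/-- The first `ℵ₄` elements of a set of size `> ℵ₃`. -/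
def firstPart {W : Type u} [LinearOrder W] (θ : Cardinal.{u}) (R : Set W) : Set W :=
  {r | r ∈ R ∧ #(R ∩ Set.Iio r : Set W) ≤ θ}

theorem firstPart_bound {W : Type u} [LinearOrder W] [WellFoundedLT W] {θ : Cardinal.{u}}
    (hθ : ℵ₀ ≤ θ) {R : Set W} (hR : θ < #R) (X : Set W) (hX : #X ≤ θ)
    (hXR : ∀ x ∈ X, ∃ r ∈ firstPart θ R, x ≤ r) : ∃ r ∈ firstPart θ R, ∀ x ∈ X, x < r := by
  classical
  choose! rr hrr1 hrr2 using hXR
  set T : Set W := ⋃ x : X, R ∩ Set.Iic (rr x) with hT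
  have hTc : #T ≤ θ := by
    calc #T ≤ #X * ⨆ x : X, #(R ∩ Set.Iic (rr x) : Set W) := mk_iUnion_le _
      _ ≤ θ * θ := by
          apply mul_le_mul' hX
          apply ciSup_le'
          intro x
          have hsub : R ∩ Set.Iic (rr x) ⊆ insert (rr x) (R ∩ Set.Iio (rr x)) := by
            rintro t ⟨ht1, ht2⟩
            rcases (show t ≤ rr x from ht2).eq_or_lt with h | h
            · exact Or.inl h
            · exact Or.inr ⟨ht1, h⟩
          calc #(R ∩ Set.Iic (rr x) : Set W) ≤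
                #(insert (rr x) (R ∩ Set.Iio (rr x)) : Set W) := mk_le_mk_of_subset hsub
            _ ≤ #(R ∩ Set.Iio (rr x) : Set W) + 1 := mk_insert_le
            _ ≤ θ + 1 := by
                gcongr
                exact (hrr1 x x.2).2
            _ = θ := add_one_eq hθ
      _ = θ := mul_eq_self hθ
  have hne : {r | r ∈ R ∧ ∀ x ∈ X, rr x < r}.Nonempty := by
    by_contra hcon
    rw [Set.not_nonempty_iff_eq_empty] at hcon
    have hsub : R ⊆ T := by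
      intro r hr
      by_contra hrT
      have : r ∈ {r | r ∈ R ∧ ∀ x ∈ X, rr x < r} := by
        refine ⟨hr, fun x hx => ?_⟩
        by_contra hle
        exact hrT (Set.mem_iUnion.mpr ⟨⟨x, hx⟩, hr, not_lt.mp hle⟩)
      rw [hcon] at this
      exact this
    exact absurd ((mk_le_mk_of_subset hsub).trans hTc) (not_le.mpr hR)
  have hmem := WellFounded.min_mem (wellFounded_lt (α := W)) _ hne
  have hmin : ∀ r' ∈ R, r' < WellFounded.min (wellFounded_lt (α := W)) _ hne →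
      ∃ x ∈ X, r' ≤ rr x := by
    intro r' hr' hlt
    by_contra hno
    push Not at hno
    exact WellFounded.not_lt_min (wellFounded_lt (α := W))
      {r | r ∈ R ∧ ∀ x ∈ X, rr x < r} ⟨hr', hno⟩ hlt
  refine ⟨WellFounded.min (wellFounded_lt (α := W)) _ hne, ⟨hmem.1, ?_⟩, ?_⟩
  · refine (mk_le_mk_of_subset ?_).trans hTc
    rintro r' ⟨hr', hlt⟩
    obtain ⟨x, hx, hle⟩ := hmin r' hr' hlt
    exact Set.mem_iUnion.mpr ⟨⟨x, hx⟩, hr', hle⟩
  · intro x hx
    exact (hrr2 x hx).trans_lt (hmem.2 x hx)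

/-- `ℵ₃`. -/
noncomputable abbrev a3 : Cardinal.{u} := Order.succ a2

theorem aleph0_le_a3 : (ℵ₀ : Cardinal.{u}) ≤ a3 := aleph0_le_a2.trans (Order.lt_succ _).le

namespace Sys

variable {W : Type u} [LinearOrder W] [WellFoundedLT W] (S : Sys W)

theorem mk_R_le {l : Cardinal.{u}} (hρ3 : a3 ≤ S.ρ) (hρl : S.ρ < l) (hlμ : l ≤ S.μ)
    (hlim : ∀ l' < l, Order.succ l' < l) (a : Set W) (ha : a.Countable) :
    #(S.R l a) ≤ a3 := by
  classical
  by_contra hbig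
  push Not at hbig
  set R := S.R l a with hR
  set U : Set W := {ζ | cd ζ = l ∧ ∃ r ∈ firstPart a3 R, ζ < r} with hU
  have hl0 : 0 < l := bot_le.trans_lt hρl
  have U1 : ∀ X ⊆ U, #X ≤ a3 → ∃ u ∈ U, u ∈ R ∧ ∀ x ∈ X, x < u := by
    intro X hXU hX
    obtain ⟨r, hr, hrX⟩ := firstPart_bound aleph0_le_a3 hbig X hX (by
      intro x hx
      obtain ⟨-, r, hr, hlt⟩ := hXU hx
      exact ⟨r, hr, hlt.le⟩)
    obtain ⟨r', hr', hrr'⟩ := firstPart_bound aleph0_le_a3 hbig ({r} : Set W) (by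
      rw [mk_singleton]
      exact one_le_aleph0.trans aleph0_le_a3) (by
      rintro x rfl
      exact ⟨x, hr, le_refl x⟩)
    exact ⟨r, ⟨hr.1.1, r', hr', hrr' r rfl⟩, hr.1, hrX⟩
  obtain ⟨C, hC⟩ := exists_guess.{u}
  let D : (SW.{u} a2 → W) → SW.{u} a2 → SW.{u} a2 → W → Prop := fun g k x ζ =>
    ∀ᶠ m in EL S.lvl l, ∀ y ∈ C k, y < x → S.f (g y) m ≤ S.f ζ m
  have hne : Nonempty W := by
    rw [← mk_ne_zero_iff, S.mkW]
    exact (Order.bot_lt_succ _).ne'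
  obtain ⟨ξ, hξ⟩ := exists_rec (B := SW.{u} a2) (V := W)
    (fun i g v => (∀ x < i, g x ∈ U ∧ ∀ y < x, g y < g x) →
      (v ∈ U ∧ (∀ x < i, g x < v) ∧ (Cof0 i → ∀ w, (∀ x < i, g x ≤ w) → v ≤ w) ∧
        (¬ Cof0 i → (v ∈ R ∧ ∀ x < i, ∀ k, (∃ ζ ∈ U, D g k x ζ) → D g k x v)))) (by
    intro i g
    by_cases H : ∀ x < i, g x ∈ U ∧ ∀ y < x, g y < g x
    swap
    · exact ⟨Classical.arbitrary W, fun h => absurd h H⟩
    have hIio : #(Set.Iio i) ≤ a3 := (cd_SW_le a2 i).trans (Order.lt_succ _).le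
    by_cases hi : Cof0 i
    · have hX : #(g '' Set.Iio i) ≤ a3 := mk_image_le.trans hIio
      obtain ⟨u, huU, -, hu⟩ := U1 (g '' Set.Iio i) (by
        rintro _ ⟨x, hx, rfl⟩
        exact (H x hx).1) hX
      have hnem : {w | ∀ x < i, g x ≤ w}.Nonempty := ⟨u, fun x hx => (hu _ ⟨x, hx, rfl⟩).le⟩
      set v := WellFounded.min (wellFounded_lt (α := W)) _ hnem with hv
      have hvm := WellFounded.min_mem (wellFounded_lt (α := W)) _ hnem
      have hvmin : ∀ w, (∀ x < i, g x ≤ w) → v ≤ w := fun w hw => not_lt.mp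
        (WellFounded.not_lt_min (wellFounded_lt (α := W)) {w | ∀ x < i, g x ≤ w} hw)
      have hvu : v ≤ u := hvmin u fun x hx => (hu _ ⟨x, hx, rfl⟩).le
      obtain ⟨h, hh1, hh2⟩ := hi
      have hglt : ∀ x < i, g x < v := by
        intro x hx
        obtain ⟨n, hn⟩ := hh2 x hx
        exact ((H (h n) (hh1 n)).2 x hn).trans_le (hvm (h n) (hh1 n))
      refine ⟨v, fun _ => ⟨⟨le_antisymm ?_ ?_, ?_⟩, hglt, fun _ => hvmin,
        fun hno => absurd ⟨h, hh1, hh2⟩ hno⟩⟩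
      · rw [← huU.1]
        exact cd_mono hvu
      · rw [← (H (h 0) (hh1 0)).1.1]
        exact cd_mono (hglt _ (hh1 0)).le
      · obtain ⟨r, hr, hur⟩ := huU.2
        exact ⟨r, hr, hvu.trans_lt hur⟩
    · have hw : ∀ p : Set.Iio i × SW.{u} a2, ∃ ζ : W, (∃ ζ ∈ U, D g p.2 p.1 ζ) →
          (ζ ∈ U ∧ D g p.2 p.1 ζ) := by
        intro p
        by_cases h : ∃ ζ ∈ U, D g p.2 p.1 ζ
        · obtain ⟨ζ, h1, h2⟩ := h
          exact ⟨ζ, fun _ => ⟨h1, h2⟩⟩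
        · exact ⟨Classical.arbitrary W, fun h' => absurd h' h⟩
      choose wt hwt using hw
      set X : Set W := g '' Set.Iio i ∪ (Set.range wt ∩ U) with hXdef
      have hX : #X ≤ a3 := by
        calc #X ≤ #(g '' Set.Iio i) + #(Set.range wt ∩ U : Set W) := mk_union_le _ _
          _ ≤ a3 + a3 := by
              gcongr
              · exact mk_image_le.trans hIio
              · refine (mk_le_mk_of_subset Set.inter_subset_left).trans ?_
                refine mk_range_le.trans ?_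
                rw [mk_prod, lift_id, lift_id, mk_SW]
                calc #(Set.Iio i) * a3 ≤ a3 * a3 := by gcongr
                  _ = a3 := mul_eq_self aleph0_le_a3
          _ = a3 := add_eq_self aleph0_le_a3
      obtain ⟨u, huU, huR, hu⟩ := U1 X (by
        rintro x (⟨y, hy, rfl⟩ | hx)
        · exact (H y hy).1
        · exact hx.2) hX
      refine ⟨u, fun _ => ⟨huU, fun x hx => hu _ (Or.inl ⟨x, hx, rfl⟩), fun h => absurd h hi,
        fun _ => ⟨huR, ?_⟩⟩⟩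
      intro x hx k hk
      obtain ⟨h1, h2⟩ := hwt (⟨x, hx⟩, k) hk
      have h3 : wt (⟨x, hx⟩, k) < u := hu _ (Or.inr ⟨⟨_, rfl⟩, h1⟩)
      have h4 := S.f_lt hρl hlμ hlim h1.1 huU.1 h3
      filter_upwards [h2, h4] with m h5 h6 y hy hyx
      exact (h5 y hy hyx).trans h6.le) (by
    intro i g g' v hg hv H
    have hH : ∀ x < i, g x ∈ U ∧ ∀ y < x, g y < g x := by
      intro x hx
      rw [hg x hx]
      refine ⟨(H x hx).1, fun y hy => ?_⟩
      rw [hg y (hy.trans hx)]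
      exact (H x hx).2 y hy
    obtain ⟨h1, h2, h3, h4⟩ := hv hH
    refine ⟨h1, fun x hx => by rw [← hg x hx]; exact h2 x hx, fun hi w hw => h3 hi w fun x hx => by
      rw [hg x hx]; exact hw x hx, fun hi => ⟨(h4 hi).1, ?_⟩⟩
    intro x hx k hk
    have hD : ∀ ζ, D g k x ζ ↔ D g' k x ζ := by
      intro ζ
      have : ∀ m, (∀ y ∈ C k, y < x → S.f (g y) m ≤ S.f ζ m) ↔
          (∀ y ∈ C k, y < x → S.f (g' y) m ≤ S.f ζ m) := by
        intro m
        constructor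
        · intro h y hy hyx
          rw [← hg y (hyx.trans hx)]
          exact h y hy hyx
        · intro h y hy hyx
          rw [hg y (hyx.trans hx)]
          exact h y hy hyx
      exact Filter.eventually_congr (Filter.Eventually.of_forall this)
    rw [← hD]
    apply (h4 hi).2 x hx k
    obtain ⟨ζ, hζ, hζD⟩ := hk
    exact ⟨ζ, hζ, (hD ζ).mpr hζD⟩)
  have hH : ∀ i, ξ i ∈ U ∧ ∀ y < i, ξ y < ξ i := by
    intro i
    induction i using WellFoundedLT.induction with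
    | ind i ih =>
      obtain ⟨h1, h2, -, -⟩ := hξ i ih
      exact ⟨h1, h2⟩
  have hcof : ∀ i, Cof0 i → ∀ w, (∀ x < i, ξ x ≤ w) → ξ i ≤ w := fun i =>
    (hξ i fun x _ => hH x).2.2.1
  have hncof : ∀ i, ¬ Cof0 i → (ξ i ∈ R ∧ ∀ x < i, ∀ k, (∃ ζ ∈ U, D ξ k x ζ) → D ξ k x (ξ i)) :=
    fun i => (hξ i fun x _ => hH x).2.2.2
  -- the supremum
  obtain ⟨u, huU, -, hu⟩ := U1 (Set.range ξ) (by
    rintro _ ⟨x, rfl⟩
    exact (hH x).1) (mk_range_le.trans (by rw [mk_SW]))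
  have hnem : {w | ∀ x, ξ x ≤ w}.Nonempty := ⟨u, fun x => (hu _ ⟨x, rfl⟩).le⟩
  set δ := WellFounded.min (wellFounded_lt (α := W)) _ hnem with hδ
  have hδm := WellFounded.min_mem (wellFounded_lt (α := W)) _ hnem
  have hδmin : ∀ w, (∀ x, ξ x ≤ w) → δ ≤ w := fun w hw => not_lt.mp
    (WellFounded.not_lt_min (wellFounded_lt (α := W)) {w | ∀ x, ξ x ≤ w} hw)
  have hδu : δ ≤ u := hδmin u fun x => (hu _ ⟨x, rfl⟩).le
  have hξδ : ∀ x, ξ x < δ := by
    intro x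
    obtain ⟨y, hy⟩ := SW_bound aleph0_le_a2 ({x} : Set (SW.{u} a2)) (by
      rw [mk_singleton]
      exact one_le_aleph0.trans aleph0_le_a2)
    exact ((hH y).2 x (hy x rfl)).trans_le (hδm y)
  have hδcof : ∀ y < δ, ∃ x, y < ξ x := by
    intro y hy
    by_contra hno
    push Not at hno
    exact absurd hy (not_lt.mpr (hδmin y hno))
  have x₀ : SW.{u} a2 := Classical.arbitrary _
  have hδl : cd δ = l := by
    apply le_antisymm
    · rw [← huU.1]
      exact cd_mono hδu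
    · rw [← (hH x₀).1.1]
      exact cd_mono (hξδ x₀).le
  have hδU : δ ∈ U := by
    obtain ⟨r, hr, hur⟩ := huU.2
    exact ⟨hδl, r, hr, hδu.trans_lt hur⟩
  have hKδ : ∀ y < δ, ∃ t ∈ S.K S.ρ δ, y < t ∧ t < δ := by
    intro y hy
    obtain ⟨x, hx1, hx2, hx3⟩ := S.hc2 δ ⟨Set.range ξ, by
      rintro _ ⟨x, rfl⟩
      exact hξδ x, (mk_range_le.trans (by rw [mk_SW])).trans hρ3, by
      intro y hy
      obtain ⟨x, hx⟩ := hδcof y hy
      exact ⟨ξ x, ⟨x, rfl⟩, hx⟩⟩ y hy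
    exact ⟨S.c δ x, cl'_c (S.closedK _ _) (S.mem_self _ _) (S.mem_of_cd hx1), hx2, hx3⟩
  have hF : ∀ x, ∃ y, ∃ t ∈ S.K S.ρ δ, ξ x < t ∧ t < ξ y := by
    intro x
    obtain ⟨t, ht, h1, h2⟩ := hKδ (ξ x) (hξδ x)
    obtain ⟨y, hy⟩ := hδcof t h2
    exact ⟨y, t, ht, h1, hy⟩
  choose F T hT1 hT2 hT3 using hF
  obtain ⟨k, hkU, hk1, hk2⟩ := hC F
  have hmono : ∀ x y, x < y → ξ x < ξ y := fun x y h => (hH y).2 x h
  have hξK : ∀ c ∈ C k, ξ c ∈ S.K S.ρ δ := by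
    intro c hc
    obtain ⟨-, hc2, hc3⟩ := hk2 c hc
    obtain ⟨h, hh1, hh2⟩ := hc3
    have hlub : IsLUB (Set.range fun n => T (h n)) (ξ c) := by
      constructor
      · rintro _ ⟨n, rfl⟩
        exact ((hT3 (h n)).trans (hmono _ _ (hc2 _ (hh1 n)))).le
      · intro w hw
        apply hcof c ⟨h, hh1, hh2⟩ w
        intro x hx
        obtain ⟨n, hn⟩ := hh2 x hx
        exact ((hmono _ _ hn).trans (hT2 (h n))).le.trans (hw ⟨n, rfl⟩)
    have h1 := cl'_sup (S.closedK S.ρ δ) (s := fun n => T (h n)) (fun n => hT1 (h n))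
    rwa [(supSeq_isLUB (S.bdd _)).unique hlub] at h1
  have hDδ : ∀ x, D ξ k x δ := by
    intro x
    simp only [D]
    rw [eventually_EL hl0]
    refine ⟨Order.succ S.ρ, hlim _ hρl, ?_⟩
    intro m hm1 hm2 y hy _
    apply le_of_lt
    refine S.lt_f le_rfl ((Order.lt_succ _).trans_le hm1) (by rw [hδl]; exact hm2)
      (S.f_mem (hξK y hy) (hξδ y) m) (S.hf1 _ _ (by rw [(hH y).1.1]; exact hm2))
  -- successors
  have hsuc : ∀ x : SW.{u} a2, ∃ y, x < y ∧ ∀ z, x < z → y ≤ z := by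
    intro x
    have hn : {y | x < y}.Nonempty := by
      obtain ⟨y, hy⟩ := SW_bound aleph0_le_a2 ({x} : Set (SW.{u} a2)) (by
        rw [mk_singleton]
        exact one_le_aleph0.trans aleph0_le_a2)
      exact ⟨y, hy x rfl⟩
    exact ⟨_, WellFounded.min_mem (wellFounded_lt (α := SW.{u} a2)) _ hn, fun z hz =>
      not_lt.mp (WellFounded.not_lt_min (wellFounded_lt (α := SW.{u} a2)) {y | x < y} hz)⟩
  choose sc hsc1 hsc2 using hsuc
  have hscn : ∀ x, ¬ Cof0 (sc x) := by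
    rintro x ⟨h, hh1, hh2⟩
    obtain ⟨n, hn⟩ := hh2 x (hsc1 x)
    exact absurd (hh1 n) (not_lt.mpr (hsc2 x _ hn))
  have hsck : ∀ x < k, sc x < k := by
    intro x hx
    obtain ⟨c, hc, hxc⟩ := hk1 x hx
    exact (hsc2 x c hxc).trans_lt (hk2 c hc).1
  have hmain : ∀ c ∈ C k, ∃ m : ℕ, ∃ t ∈ a, ∃ c' ∈ C k,
      (∀ y ∈ C k, y < c → S.f (ξ y) m ≤ t) ∧ t < S.f (ξ c') m := by
    intro c hc
    have hck := (hk2 c hc).1
    obtain ⟨c', hc', hcc'⟩ := hk1 _ (hsck _ (hsck c hck))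
    have h1 := (hncof (sc c) (hscn c)).2 c (hsc1 c) k ⟨δ, hδU, hDδ c⟩
    have h2 := (hncof (sc (sc c)) (hscn _)).1.2 (ξ (sc c)) (hmono _ _ (hsc1 _)) (hH _).1.1
    have h3 := S.f_lt hρl hlμ hlim (hH (sc (sc c))).1.1 (hH c').1.1 (hmono _ _ hcc')
    by_contra hno
    push Not at hno
    apply h2
    filter_upwards [h1, h3] with m h4 h5 t ht h6
    have h7 := hno m t ht c' hc' (fun y hy hyc => (h4 y hy hyc).trans h6.1)
    exact absurd (h6.2.trans h5) (not_lt.mpr h7)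
  choose! mm tt htt cc hcc hmt1 hmt2 using hmain
  -- contradiction
  obtain ⟨⟨x₁, hx₁⟩, hkU⟩ := hkU
  obtain ⟨c₁, hc₁, -⟩ := hk1 x₁ hx₁
  have : Nonempty a := ⟨⟨tt c₁, htt c₁ hc₁⟩⟩
  have : Countable a := ha
  obtain ⟨e, he⟩ := exists_surjective_nat (ℕ × a)
  have hb : ∀ n, ∃ b < k, ∀ c ∈ C k, (mm c, tt c) = ((e n).1, ((e n).2 : W)) → c ≤ b := by
    intro n
    by_cases h : ∃ c ∈ C k, (mm c, tt c) = ((e n).1, ((e n).2 : W))
    · obtain ⟨c, hc, hce⟩ := h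
      refine ⟨cc c, (hk2 _ (hcc c hc)).1, ?_⟩
      intro c' hc' hce'
      by_contra hlt
      push Not at hlt
      have h1 := hmt1 c' hc' (cc c) (hcc c hc) hlt
      have h2 := hmt2 c hc
      rw [Prod.mk.injEq] at hce hce'
      rw [hce'.1, hce'.2] at h1
      rw [hce.1, hce.2] at h2
      exact absurd h2 (not_lt.mpr h1)
    · refine ⟨x₁, hx₁, ?_⟩
      intro c hc hce
      exact absurd ⟨c, hc, hce⟩ h
  choose b hb1 hb2 using hb
  obtain ⟨b', hb', hbb⟩ := hkU b hb1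
  obtain ⟨c, hc, hbc⟩ := hk1 b' hb'
  obtain ⟨n, hn⟩ := he (mm c, ⟨tt c, htt c hc⟩)
  have h1 := hb2 n c hc (by rw [hn])
  exact absurd ((hbb n).trans hbc) (not_lt.mpr h1)

end Sys

end Run7.h199
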