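import Mathlib
import Pool.Agent.Run7.h199.Few

/-!
If there is no well ordered chain of length `κ` in the reduced power `P(ω)^ω / Fin`, then the
scale has fewer than `κ` changes on a countable set.
-/

universe u

open Cardinal Set

namespace Run7.h199

/-- There is no strictly increasing sequence of length `κ` of functions `ℕ → Set ℕ`, ordered by
`T n ⊆ T' n` for almost all `n`. -/
def NoChain (κ : Cardinal.{u}) : Prop :=
  ¬ ∃ T : κ.ord.ToType → ℕ → Set ℕ, ∀ i j, i < j →
    (∀ᶠ n in Filter.atTop, T i n ⊆ T j n) ∧ ¬ ∀ᶠ n in Filter.atTop, T j n ⊆ T i n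

theorem noChain_of_lt {κ : Cardinal.{u}} (h : (2 : Cardinal.{u}) ^ (ℵ₀ : Cardinal.{u}) < κ) :
    NoChain κ := by
  rintro ⟨T, hT⟩
  have hinj : Function.Injective T := by
    intro i j hij
    rcases lt_trichotomy i j with h1 | h1 | h1
    · obtain ⟨-, h2⟩ := hT i j h1
      exfalso
      apply h2
      rw [hij]
      exact Filter.Eventually.of_forall fun _ => subset_rfl
    · exact h1
    · obtain ⟨-, h2⟩ := hT j i h1
      exfalso
      apply h2
      rw [hij]
      exact Filter.Eventually.of_forall fun _ => subset_rfl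
  have h1 := mk_le_of_injective (α := κ.ord.ToType) (β := ULift.{u} (ℕ → Set ℕ))
    (f := fun i => ⟨T i⟩) (fun i j hij => hinj (congrArg ULift.down hij))
  have h2 : #(ULift.{u} (ℕ → Set ℕ)) = 2 ^ (ℵ₀ : Cardinal.{u}) := by
    rw [mk_uLift]
    have : #(ℕ → Set ℕ) = 2 ^ (ℵ₀ : Cardinal.{0}) := by
      simp only [mk_pi, mk_set, mk_nat, prod_const, lift_id]
      rw [← power_mul, aleph0_mul_aleph0]
    rw [this]
    simp
  rw [h2] at h1
  simp only [mk_toType, card_ord] at h1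
  exact absurd h (not_lt.mpr h1)

namespace Sys

variable {W : Type u} [LinearOrder W] [WellFoundedLT W] (S : Sys W)

open Classical in
/-- A cofinal sequence of thresholds below `l`. -/
noncomputable def thr (l : Cardinal.{u}) : ℕ → Cardinal.{u}
  | 0 => S.ρ
  | n + 1 => max (thr l n) (if S.lvl n < l then Order.succ (S.lvl n) else 0)

theorem thr_lt {l : Cardinal.{u}} (hρl : S.ρ < l) (hlim : ∀ l' < l, Order.succ l' < l) (n : ℕ) :
    S.thr l n < l := by
  induction n with
  | zero => exact hρl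
  | succ n ih =>
    refine max_lt ih ?_
    split_ifs with h
    · exact hlim _ h
    · exact bot_le.trans_lt hρl

theorem thr_mono (l : Cardinal.{u}) : Monotone (S.thr l) :=
  monotone_nat_of_le_succ fun _ => le_max_left _ _

theorem lvl_lt_thr {l : Cardinal.{u}} {i : ℕ} (h : S.lvl i < l) : S.lvl i < S.thr l (i + 1) := by
  refine (Order.lt_succ (S.lvl i)).trans_le ?_
  have : S.thr l (i + 1) = max (S.thr l i) (if S.lvl i < l then Order.succ (S.lvl i) else 0) := rfl
  rw [this, if_pos h]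
  exact le_max_right _ _

theorem mk_R_lt_of_noChain {κ l : Cardinal.{u}} (hno : NoChain κ)
    (hρl : S.ρ < l) (hlμ : l ≤ S.μ) (hlim : ∀ l' < l, Order.succ l' < l) (a : Set W)
    (ha : a.Countable) : #(S.R l a) < κ := by
  classical
  by_contra hbig
  push Not at hbig
  have hl0 : 0 < l := bot_le.trans_lt hρl
  apply hno
  -- the order embedding
  have h1 : κ.ord ≤ Ordinal.type (α := S.R l a) (· < ·) := by
    rw [Cardinal.ord_le, Ordinal.card_type]
    exact hbig
  rw [← Ordinal.type_toType κ.ord] at h1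
  obtain ⟨φ⟩ := Ordinal.type_le_iff'.mp h1
  have hφ : ∀ i j, i < j → ((φ i : S.R l a) : W) < φ j := fun i j hij => φ.map_rel_iff.mpr hij
  have : Countable a := ha
  obtain ⟨ν, hν⟩ := exists_injective_nat a
  have hb : ∀ i, ∃ n, S.lvl i < l → (S.lvl i < S.thr l n ∧ ∀ m < n, S.thr l m ≤ S.lvl i) := by
    intro i
    by_cases h : S.lvl i < l
    · have hex : ∃ n, S.lvl i < S.thr l n := ⟨i + 1, S.lvl_lt_thr h⟩
      exact ⟨Nat.find hex, fun _ => ⟨Nat.find_spec hex, fun m hm => not_lt.mp (Nat.find_min hex hm)⟩⟩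
    · exact ⟨0, fun h' => absurd h' h⟩
  choose b hb using hb
  have hb1 : ∀ i N, S.lvl i < l → S.thr l N ≤ S.lvl i → N < b i := by
    intro i N hi hN
    by_contra hcon
    push Not at hcon
    exact absurd ((hb i hi).1.trans_le (S.thr_mono l hcon)) (not_lt.mpr hN)
  let T : κ.ord.ToType → ℕ → Set ℕ := fun x n =>
    {q | ∃ i : ℕ, ∃ t : a, S.lvl i < l ∧ b i = n ∧ (t : W) < S.f (φ x : S.R l a) i ∧
      q = Nat.pair i (ν t)}
  refine ⟨T, fun x x' hxx' => ⟨?_, ?_⟩⟩
  · have h2 := S.f_lt hρl hlμ hlim (φ x).2.1 (φ x').2.1 (hφ x x' hxx')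
    rw [eventually_EL hl0] at h2
    obtain ⟨k, hk, h3⟩ := h2
    obtain ⟨i₀, hi₀⟩ := S.lvl3 (max S.ρ k) (le_max_left _ _) ((max_lt hρl hk).trans_le hlμ)
    have hi₀l : S.lvl i₀ < l := by
      rw [hi₀]
      exact max_lt hρl hk
    rw [Filter.eventually_atTop]
    refine ⟨i₀ + 2, fun n hn => ?_⟩
    rintro q ⟨i, t, hi, hbi, ht, rfl⟩
    refine ⟨i, t, hi, hbi, ht.trans ?_, rfl⟩
    apply h3 i _ hi
    have h4 : S.thr l (i₀ + 1) ≤ S.lvl i := (hb i hi).2 _ (by omega)
    exact ((le_max_right S.ρ k).trans (hi₀ ▸ (S.lvl_lt_thr hi₀l).le)).trans h4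
  · intro hcon
    rw [Filter.eventually_atTop] at hcon
    obtain ⟨N, hN⟩ := hcon
    apply (φ x').2.2 _ (hφ x x' hxx') (φ x).2.1
    rw [eventually_EL hl0]
    refine ⟨S.thr l N, S.thr_lt hρl hlim N, ?_⟩
    rintro i hi1 hi2 t ht ⟨h5, h6⟩
    have h7 : Nat.pair i (ν ⟨t, ht⟩) ∈ T x' (b i) := ⟨i, ⟨t, ht⟩, hi2, rfl, h6, rfl⟩
    obtain ⟨i', t', h8, -, h10, h11⟩ := hN (b i) (hb1 i N hi2 hi1).le h7
    obtain ⟨h12, h13⟩ := Nat.pair_eq_pair.mp h11
    have h14 := hν h13
    subst h12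
    rw [← h14] at h10
    exact absurd h10 (not_lt.mpr h5)

end Sys

end Run7.h199
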