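import Mathlib
import Pool.Agent.Run7.h199.Rec
import Pool.Agent.Run7.h199.TreeProp

/-!
Countable covering, Hausdorff's formula for countable powers, and monotonicity of `TP(κ, lam)`
in `lam`.
-/

universe u

open Cardinal Set

namespace Run7.h199

/-- Every set of size `< κ` has a cofinal family of fewer than `κ` countable subsets, i.e.
`cof([η] ^ ℵ₀, ⊆) < κ` for every `η < κ`. -/
def CountCov (κ : Cardinal.{u}) : Prop :=
  ∀ X : Type u, #X < κ → ∃ 𝒜 : Set (Set X), #𝒜 < κ ∧ (∀ a ∈ 𝒜, a.Countable) ∧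
    ∀ s : Set X, s.Countable → ∃ a ∈ 𝒜, s ⊆ a

theorem CountCov.set {κ : Cardinal.{u}} (h : CountCov κ) {W : Type u} (X : Set W) (hX : #X < κ) :
    ∃ 𝒜 : Set (Set W), #𝒜 < κ ∧ (∀ a ∈ 𝒜, a.Countable) ∧
      ∀ s : ℕ → W, (∀ n, s n ∈ X) → ∃ a ∈ 𝒜, ∀ n, s n ∈ a := by
  obtain ⟨𝒜, h1, h2, h3⟩ := h X hX
  refine ⟨(fun a : Set X => Subtype.val '' a) '' 𝒜, mk_image_le.trans_lt h1, ?_, ?_⟩
  · rintro _ ⟨a, ha, rfl⟩
    exact (h2 a ha).image _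
  · intro s hs
    obtain ⟨a, ha, hsa⟩ := h3 (Set.range fun n => (⟨s n, hs n⟩ : X)) (Set.countable_range _)
    exact ⟨_, ⟨a, ha, rfl⟩, fun n => ⟨⟨s n, hs n⟩, hsa ⟨n, rfl⟩, rfl⟩⟩

theorem countCov_step (m : ℕ) : ∀ (W : Type u) (X : Set W), #X ≤ ℵ_ (m : Ordinal.{u}) →
    ∃ 𝒜 : Set (Set W), #𝒜 ≤ ℵ_ (m : Ordinal.{u}) ∧ (∀ a ∈ 𝒜, a.Countable) ∧
      ∀ s ⊆ X, s.Countable → ∃ a ∈ 𝒜, s ⊆ a := by
  induction m with
  | zero =>
    intro W X hX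
    refine ⟨{X}, ?_, ?_, ?_⟩
    · rw [mk_singleton]
      exact one_le_aleph0.trans (aleph0_le_aleph _)
    · rintro _ rfl
      rw [← Cardinal.le_aleph0_iff_set_countable]
      simpa using hX
    · intro s hs _
      exact ⟨X, rfl, hs⟩
  | succ m ih =>
    intro W X hX
    have hsucc : ℵ_ ((m + 1 : ℕ) : Ordinal.{u}) = Order.succ (ℵ_ (m : Ordinal.{u})) := by
      rw [Nat.cast_add, Nat.cast_one, ← succ_aleph]
    rw [hsucc] at hX
    have h1 : #X ≤ #(SW (ℵ_ (m : Ordinal.{u}))) := by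
      rw [mk_SW]
      exact hX
    obtain ⟨φ⟩ := h1
    have h2 : ∀ γ : SW (ℵ_ (m : Ordinal.{u})),
        #(Subtype.val '' {x : X | φ x < γ} : Set W) ≤ ℵ_ (m : Ordinal.{u}) := by
      intro γ
      refine mk_image_le.trans ?_
      refine le_trans ?_ (cd_SW_le _ γ)
      exact mk_le_of_injective (f := fun x : {x : X | φ x < γ} => (⟨φ x.1, x.2⟩ : Set.Iio γ))
        (fun x y hxy => Subtype.ext (φ.injective (congrArg Subtype.val hxy)))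
    choose 𝒜 h3 h4 h5 using fun γ => ih W _ (h2 γ)
    refine ⟨⋃ γ, 𝒜 γ, ?_, ?_, ?_⟩
    · rw [hsucc]
      calc #(⋃ γ, 𝒜 γ : Set (Set W)) ≤ #(SW (ℵ_ (m : Ordinal.{u}))) * ⨆ γ, #(𝒜 γ) :=
            mk_iUnion_le _
        _ ≤ Order.succ (ℵ_ (m : Ordinal.{u})) * Order.succ (ℵ_ (m : Ordinal.{u})) := by
            rw [mk_SW]
            gcongr
            exact ciSup_le' fun γ => (h3 γ).trans (Order.le_succ _)
        _ = Order.succ (ℵ_ (m : Ordinal.{u})) :=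
            mul_eq_self ((aleph0_le_aleph _).trans (Order.le_succ _))
    · intro a ha
      obtain ⟨γ, hγ⟩ := Set.mem_iUnion.mp ha
      exact h4 γ a hγ
    · intro s hs hsc
      obtain ⟨γ, hγ⟩ := SW_bound (aleph0_le_aleph (m : Ordinal.{u}))
        (φ '' {x : X | (x : W) ∈ s}) (by
        refine mk_image_le.trans ?_
        refine le_trans ?_ (aleph0_le_aleph _)
        rw [Cardinal.le_aleph0_iff_set_countable]
        exact hsc.preimage Subtype.val_injective)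
      obtain ⟨a, ha, hsa⟩ := h5 γ s (by
        intro x hx
        exact ⟨⟨x, hs hx⟩, hγ _ ⟨⟨x, hs hx⟩, hx, rfl⟩, rfl⟩) hsc
      exact ⟨a, Set.mem_iUnion.mpr ⟨γ, ha⟩, hsa⟩

theorem countCov_aleph {n : ℕ} (hn : n ≠ 0) : CountCov (ℵ_ (n : Ordinal.{u})) := by
  obtain ⟨m, rfl⟩ := Nat.exists_eq_succ_of_ne_zero hn
  intro X hX
  have hsucc : ℵ_ ((m + 1 : ℕ) : Ordinal.{u}) = Order.succ (ℵ_ (m : Ordinal.{u})) := by
    rw [Nat.cast_add, Nat.cast_one, ← succ_aleph]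
  rw [Nat.succ_eq_add_one, hsucc] at hX ⊢
  obtain ⟨𝒜, h1, h2, h3⟩ := countCov_step m X Set.univ (by
    rw [mk_univ]
    exact Order.lt_succ_iff.mp hX)
  exact ⟨𝒜, Order.lt_succ_iff.mpr h1, h2, fun s hs => h3 s (Set.subset_univ _) hs⟩

/-- Hausdorff's formula. -/
theorem succ_power_aleph0_le {l : Cardinal.{u}} (hl : ℵ₀ ≤ l) :
    (Order.succ l) ^ (ℵ₀ : Cardinal.{u}) ≤ Order.succ l * l ^ (ℵ₀ : Cardinal.{u}) := by
  have h1 : #(ℕ → SW l) = (Order.succ l) ^ (ℵ₀ : Cardinal.{u}) := by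
    simp
  rw [← h1]
  have hch : ∀ f : ℕ → SW l, ∃ γ : SW l, ∀ n, f n < γ := by
    intro f
    obtain ⟨γ, hγ⟩ := SW_bound hl (Set.range f) ((mk_range_nat_le f).trans hl)
    exact ⟨γ, fun n => hγ _ ⟨n, rfl⟩⟩
  choose g hg using hch
  have hinj : Function.Injective (fun f : ℕ → SW l => (⟨g f, fun n => ⟨f n, hg f n⟩⟩ :
      Σ γ : SW l, (ℕ → Set.Iio γ))) := by
    intro f f' hff
    simp only [Sigma.mk.injEq] at hff
    obtain ⟨h3, h4⟩ := hff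
    funext n
    have key : ∀ (γ γ' : SW l) (u : ℕ → Set.Iio γ) (v : ℕ → Set.Iio γ'), γ = γ' → HEq u v →
        ∀ n, (u n : SW l) = v n := by
      rintro γ _ u v rfl h n
      rw [eq_of_heq h]
    exact key _ _ _ _ h3 h4 n
  calc #(ℕ → SW l) ≤ #(Σ γ : SW l, (ℕ → Set.Iio γ)) := mk_le_of_injective hinj
    _ = Cardinal.sum fun γ : SW l => #(ℕ → Set.Iio γ) := mk_sigma _
    _ ≤ Cardinal.sum fun _ : SW l => l ^ (ℵ₀ : Cardinal.{u}) := by
        apply sum_le_sum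
        intro γ
        have h3 : #(ℕ → Set.Iio γ) = #(Set.Iio γ) ^ (ℵ₀ : Cardinal.{u}) := by simp
        rw [h3]
        exact power_le_power_right (cd_SW_le l γ)
    _ = #(SW l) * l ^ (ℵ₀ : Cardinal.{u}) := sum_const' _ _
    _ = Order.succ l * l ^ (ℵ₀ : Cardinal.{u}) := by rw [mk_SW]

theorem TwoCardinalTP.mono {κ l l' : Cardinal.{u}} (hl : l ≤ l') (h : TwoCardinalTP κ l') :
    TwoCardinalTP κ l := by
  intro α hα d hd hthin
  obtain ⟨ι⟩ : #α ≤ #l'.out := by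
    rw [hα, mk_out]
    exact hl
  have hpre : ∀ x : Set l'.out, #x < κ → #(ι ⁻¹' x) < κ := by
    intro x hx
    refine lt_of_le_of_lt ?_ hx
    exact mk_preimage_of_injective _ _ ι.injective
  obtain ⟨b, hb⟩ := h l'.out (mk_out _) (fun x => ι '' d (ι ⁻¹' x)) (by
    intro x hx
    refine (Set.image_mono (hd _ (hpre x hx))).trans ?_
    exact Set.image_preimage_subset _ _) (by
    intro y hy
    refine lt_of_le_of_lt ?_ (hthin (ι ⁻¹' y) (hpre y hy))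
    refine (mk_le_mk_of_subset (t := (fun t : Set α => ι '' t) '' _) ?_).trans mk_image_le
    rintro t ⟨x, hx, hyx, rfl⟩
    refine ⟨d (ι ⁻¹' x) ∩ ι ⁻¹' y, ⟨ι ⁻¹' x, hpre x hx, Set.preimage_mono hyx, rfl⟩, ?_⟩
    simp only
    rw [Set.image_inter_preimage])
  refine ⟨ι ⁻¹' b, ?_⟩
  intro y hy
  obtain ⟨x, hx, hyx, hbx⟩ := hb (ι '' y) (mk_image_le.trans_lt hy)
  refine ⟨ι ⁻¹' x, hpre x hx, Set.image_subset_iff.mp hyx, ?_⟩
  ext z
  constructor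
  · rintro ⟨h1, h2⟩
    have h3 : ι z ∈ b ∩ ι '' y := ⟨h1, ⟨z, h2, rfl⟩⟩
    rw [hbx] at h3
    obtain ⟨⟨z', hz', hzz'⟩, -⟩ := h3
    rw [← ι.injective hzz']
    exact ⟨hz', by rw [ι.injective hzz']; exact h2⟩
  · rintro ⟨h1, h2⟩
    have h3 : ι z ∈ (ι '' d (ι ⁻¹' x)) ∩ ι '' y := ⟨⟨z, h1, rfl⟩, ⟨z, h2, rfl⟩⟩
    rw [← hbx] at h3
    exact ⟨h3.1, h2⟩

end Run7.h199
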