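import Mathlib
import Pool.Agent.Run7.h199.Main

/-!
The core theorem: `TP(κ, μ⁺)` gives `2 ^ μ = μ⁺` when there are few cardinals in a final segment
below the strong limit `μ`.
-/

universe u

open Cardinal Set

namespace Run7.h199

section

variable {W : Type u} [LinearOrder W] [WellFoundedLT W] {I : Type u}

omit [WellFoundedLT W] in
theorem exists_top_bound {κ μ : Cardinal.{u}} (hμ : ℵ₀ ≤ μ) (hκμ : κ < μ)
    (hW : #W = Order.succ μ) (hcd : ∀ x : W, cd x ≤ μ) (y : Set (W × I)) (hy : #y < κ) :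
    ∃ γ : W, cd γ = μ ∧ ∀ p ∈ y, p.1 < γ := by
  have h1 : μ ≤ #W := by
    rw [hW]
    exact (Order.lt_succ μ).le
  obtain ⟨Z, hZ⟩ := le_mk_iff_exists_set.mp h1
  obtain ⟨γ, hγ⟩ := exists_strict_bound hμ hW hcd (Prod.fst '' y ∪ Z) (by
    calc #(Prod.fst '' y ∪ Z : Set W) ≤ #(Prod.fst '' y : Set W) + #Z := mk_union_le _ _
      _ ≤ μ + μ := by
          gcongr
          · exact mk_image_le.trans (hy.trans hκμ).le
          · exact hZ.le
      _ = μ := add_eq_self hμ)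
  refine ⟨γ, le_antisymm (hcd γ) ?_, ?_⟩
  · rw [← hZ]
    exact mk_le_mk_of_subset fun z hz => hγ z (Or.inr hz)
  · intro p hp
    exact hγ p.1 (Or.inl ⟨p, hp, rfl⟩)

omit [WellFoundedLT W] in
/-- From a cofinal branch to a large set all of whose small subsets are covered. -/
theorem exists_covered {κ μ : Cardinal.{u}} (hμ : ℵ₀ ≤ μ) (hκμ : κ < μ)
    (hW : #W = Order.succ μ) (K : I → W → Set W) (γ : Set (W × I) → W)
    (hγ : ∀ y : Set (W × I), #y < κ → ∀ p ∈ y, p.1 < γ y)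
    (hK : ∀ y : Set (W × I), #y < κ → ∀ x, x < γ y → ∃ i, x ∈ K i (γ y))
    (hI : #I < κ) (hI1 : Nonempty I) (b : Set (W × I))
    (hb : IsCofinalBranch κ (fun y => y ∩ grph K (γ y)) b) :
    ∃ i : I, ∃ A : Set W, μ ≤ #A ∧ ∀ X ⊆ A, #X < κ → ∃ δ : W, X ⊆ K i δ := by
  have hcov : ∀ a : W, ∃ i, (a, i) ∈ b := by
    intro a
    set z : Set (W × I) := Set.range (fun i : I => (a, i)) with hz
    have hzc : #z < κ := mk_range_le.trans_lt hI
    obtain ⟨x, hx, hzx, hbx⟩ := hb z hzc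
    obtain ⟨i₀⟩ := hI1
    have h1 : a < γ x := hγ x hx (a, i₀) (hzx ⟨i₀, rfl⟩)
    obtain ⟨i, hi⟩ := hK x hx a h1
    refine ⟨i, ?_⟩
    have h2 : (a, i) ∈ (x ∩ grph K (γ x)) ∩ z := ⟨⟨hzx ⟨i, rfl⟩, hi⟩, ⟨i, rfl⟩⟩
    have h3 : (a, i) ∈ b ∩ z := by
      rw [hbx]
      exact h2
    exact h3.1
  have hbig : ∃ i, μ ≤ #{a : W | (a, i) ∈ b} := by
    by_contra hcon
    push Not at hcon
    have hsub : (Set.univ : Set W) ⊆ ⋃ i : I, {a : W | (a, i) ∈ b} := by
      intro a _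
      obtain ⟨i, hi⟩ := hcov a
      exact Set.mem_iUnion.mpr ⟨i, hi⟩
    have h1 : #W ≤ μ := by
      rw [← mk_univ]
      calc #(Set.univ : Set W) ≤ #(⋃ i : I, {a : W | (a, i) ∈ b}) := mk_le_mk_of_subset hsub
        _ ≤ #I * ⨆ i : I, #{a : W | (a, i) ∈ b} := mk_iUnion_le _
        _ ≤ μ * μ := by
            apply mul_le_mul' (hI.trans hκμ).le
            apply ciSup_le'
            intro i
            exact (hcon i).le
        _ = μ := mul_eq_self hμ
    rw [hW] at h1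
    exact absurd h1 (not_le.mpr (Order.lt_succ μ))
  obtain ⟨i, hi⟩ := hbig
  refine ⟨i, _, hi, ?_⟩
  intro X hX hXc
  set z : Set (W × I) := (fun a : W => (a, i)) '' X with hz
  have hzc : #z < κ := mk_image_le.trans_lt hXc
  obtain ⟨x, hx, hzx, hbx⟩ := hb z hzc
  refine ⟨γ x, ?_⟩
  intro a ha
  have h1 : (a, i) ∈ b ∩ z := ⟨hX ha, ⟨a, ha, rfl⟩⟩
  rw [hbx] at h1
  exact h1.1.2

omit [LinearOrder W] [WellFoundedLT W] in
/-- The counting argument. -/
theorem power_le_of_covered {κ μ : Cardinal.{u}} (hμ : μ.IsStrongLimit) (hμ0 : ℵ₀ < μ)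
    (hκμ : κ < μ) (hW : #W = Order.succ μ) (lvl : I → Cardinal.{u}) (hlvl : ∀ i, lvl i < μ)
    (hcof : ∀ l, l < μ → ∃ i, l ≤ lvl i) (hI : #I < κ) (K : W → Set W) (hK : ∀ γ, #(K γ) < μ)
    (A : Set W) (hA : μ ≤ #A) (hcovA : ∀ X ⊆ A, #X < κ → ∃ δ : W, X ⊆ K δ) :
    2 ^ μ = Order.succ μ := by
  apply le_antisymm _ (Order.succ_le_of_lt (cantor μ))
  have hsum : μ ≤ Cardinal.sum lvl := by
    by_contra hcon
    push Not at hcon
    have h1 : Order.succ (Cardinal.sum lvl) < μ := hμ.isSuccLimit.succ_lt hcon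
    obtain ⟨i, hi⟩ := hcof _ h1
    exact absurd (hi.trans (le_sum lvl i)) (not_le.mpr (Order.lt_succ _))
  have h1 : (2 : Cardinal.{u}) ^ μ ≤ μ ^ #I := by
    calc (2 : Cardinal.{u}) ^ μ ≤ 2 ^ Cardinal.sum lvl :=
          power_le_power_left two_ne_zero hsum
      _ = Cardinal.prod fun i => (2 : Cardinal.{u}) ^ lvl i := power_sum _ _
      _ ≤ Cardinal.prod fun _ : I => μ := prod_le_prod _ _ fun i => (hμ.isStrongPrelimit (hlvl i)).le
      _ = μ ^ #I := prod_const' _ _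
  have h2 : #(I → A) ≤ Cardinal.sum fun γ : W => #(I → K γ) := by
    rw [← mk_sigma]
    have hch : ∀ f : I → A, ∃ γ : W, ∀ i, (f i : W) ∈ K γ := by
      intro f
      obtain ⟨δ, hδ⟩ := hcovA (Set.range fun i => (f i : W)) (by
        rintro _ ⟨i, rfl⟩
        exact (f i).2) (mk_range_le.trans_lt hI)
      exact ⟨δ, fun i => hδ ⟨i, rfl⟩⟩
    choose g hg using hch
    apply mk_le_of_injective (f := fun f : I → A => (⟨g f, fun i => ⟨f i, hg f i⟩⟩ :
      Σ γ : W, (I → K γ)))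
    intro f f' hff
    simp only [Sigma.mk.injEq] at hff
    obtain ⟨h3, h4⟩ := hff
    funext i
    apply Subtype.ext
    have key : ∀ (γ γ' : W) (u : I → K γ) (v : I → K γ'), γ = γ' → HEq u v →
        ∀ i, (u i : W) = v i := by
      rintro γ _ u v rfl h i
      rw [eq_of_heq h]
    exact key _ _ _ _ h3 h4 i
  have h3 : ∀ γ : W, #(I → K γ) ≤ μ := by
    intro γ
    rw [← Cardinal.power_def]
    set a := max (#(K γ)) (max (#I) ℵ₀) with ha
    have ha0 : ℵ₀ ≤ a := (le_max_right _ _).trans (le_max_right _ _)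
    have haμ : a < μ := max_lt (hK γ) (max_lt (hI.trans hκμ) hμ0)
    calc #(K γ) ^ #I ≤ a ^ #I := power_le_power_right (le_max_left _ _)
      _ ≤ a ^ a := power_le_power_left (aleph0_pos.trans_le ha0).ne'
          ((le_max_left _ _).trans (le_max_right _ _))
      _ = 2 ^ a := power_self_eq ha0
      _ ≤ μ := (hμ.isStrongPrelimit haμ).le
  calc (2 : Cardinal.{u}) ^ μ ≤ μ ^ #I := h1
    _ ≤ #A ^ #I := power_le_power_right hA
    _ = #(I → A) := by rw [Cardinal.power_def]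
    _ ≤ Cardinal.sum fun γ : W => #(I → K γ) := h2
    _ ≤ Cardinal.sum fun _ : W => μ := sum_le_sum _ _ h3
    _ = #W * μ := sum_const' _ _
    _ = Order.succ μ * μ := by rw [hW]
    _ ≤ Order.succ μ * Order.succ μ := by
        gcongr
        exact (Order.lt_succ μ).le
    _ = Order.succ μ := mul_eq_self (hμ0.le.trans (Order.lt_succ μ).le)

end

/-- The core theorem. -/
theorem core {κ μ ρ : Cardinal.{u}} {I : Type u} (lvl : I → Cardinal.{u}) (hρ : ℵ₀ ≤ ρ)
    (hρlvl : ∀ i, ρ ≤ lvl i) (hlvl : ∀ i, lvl i < μ)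
    (hcov : ∀ l, ρ ≤ l → l < μ → ∃ i, lvl i = l) (hμ : μ.IsStrongLimit) (hI : ℵ₀ ≤ #I)
    (hκ : ℵ₀ ≤ κ) (hcl : ∀ η < κ, η ^ #I < κ) (hκμ : κ < μ)
    (htp : TwoCardinalTP κ (Order.succ μ)) : 2 ^ μ = Order.succ μ := by
  classical
  obtain ⟨i₀⟩ : Nonempty I := mk_ne_zero_iff.mp (aleph0_pos.trans_le hI).ne'
  have hρμ : ρ < μ := (hρlvl i₀).trans_lt (hlvl i₀)
  have hμ0 : ℵ₀ < μ := hρ.trans_lt hρμ
  have h2κ : (2 : Cardinal.{u}) < κ := (natCast_lt_aleph0 (n := 2)).trans_le hκ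
  have hIκ : #I < κ := (cantor _).trans (hcl 2 h2κ)
  have hκ0 : ℵ₀ < κ := hI.trans_lt hIκ
  set W : Type u := (Order.succ μ).ord.ToType with hWdef
  have hW : #W = Order.succ μ := by simp [hWdef]
  have hcd1 : ∀ x : W, cd x < #W := by
    intro x
    apply mk_Iio_lt
    rw [hW]
    exact (Ordinal.type_toType _).symm
  have hcd : ∀ x : W, cd x ≤ μ := by
    intro x
    have := hcd1 x
    rw [hW] at this
    exact Order.lt_succ_iff.mp this
  have hcoll := fun δ : W => exists_coll hcd1 δ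
  choose e he hec using hcoll
  have hbdd : ∀ f : ℕ → W, BddAbove (Set.range f) := by
    intro f
    obtain ⟨γ, hγ⟩ := exists_strict_bound hμ0.le hW hcd (Set.range f) (by
      have := mk_range_le_lift (f := f)
      simp only [lift_uzero, mk_nat, lift_aleph0] at this
      exact this.trans hμ0.le)
    exact ⟨γ, fun x hx => (hγ x hx).le⟩
  have hK : ∀ i γ, OpClosed (ops e) (Kf e lvl i γ) := fun i γ => opClosed_Kf lvl i γ
  have hKb : ∀ i γ x, cd x < ρ → x ∈ Kf e lvl i γ := fun i γ x hx =>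
    mem_Kf_of_cd_lt lvl (hx.trans_le (hρlvl i))
  let lvl' : Option I → Cardinal.{u} := fun o => o.elim μ lvl
  have hJ : ∀ x : W, ρ ≤ cd x → ∃ j, lvl' j = cd x := by
    intro x hx
    rcases (hcd x).eq_or_lt with h | h
    · exact ⟨none, h.symm⟩
    · obtain ⟨i, hi⟩ := hcov _ hx h
      exact ⟨some i, hi⟩
  have hOI : #(Option I) = #I := by
    rw [mk_option]
    exact add_one_eq hI
  -- choose bounds
  have hex : ∀ y : Set (W × I), ∃ γ : W, #y < κ → cd γ = μ ∧ ∀ p ∈ y, p.1 < γ := by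
    intro y
    by_cases hy : #y < κ
    · obtain ⟨γ, h1, h2⟩ := exists_top_bound hμ0.le hκμ hW hcd y hy
      exact ⟨γ, fun _ => ⟨h1, h2⟩⟩
    · have : Nonempty W := by
        rw [← mk_ne_zero_iff, hW]
        exact (aleph0_pos.trans_le (hμ0.le.trans (Order.lt_succ μ).le)).ne'
      exact ⟨Classical.arbitrary W, fun h => absurd h hy⟩
  choose γ hγ using hex
  have hα : #(W × I) = Order.succ μ := by
    rw [mk_prod, lift_id, lift_id, hW]
    apply mul_eq_left (hμ0.le.trans (Order.lt_succ μ).le)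
      ((hIκ.trans hκμ).le.trans (Order.lt_succ μ).le)
    exact (aleph0_pos.trans_le hI).ne'
  obtain ⟨b, hb⟩ := htp (W × I) hα (fun y => y ∩ grph (Kf e lvl) (γ y))
    (fun x _ => Set.inter_subset_left) (by
      intro y hy
      have hsub : {t : Set (W × I) | ∃ x : Set (W × I), #x < κ ∧ y ⊆ x ∧
          t = (x ∩ grph (Kf e lvl) (γ x)) ∩ y} ⊆
          {t : Set (W × I) | ∃ γ, t = grph (Kf e lvl) γ ∩ y} := by
        rintro t ⟨x, -, hyx, rfl⟩
        refine ⟨γ x, ?_⟩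
        ext p
        simp only [Set.mem_inter_iff]
        constructor
        · rintro ⟨⟨-, h1⟩, h2⟩
          exact ⟨h1, h2⟩
        · rintro ⟨h1, h2⟩
          exact ⟨⟨hyx h2, h1⟩, h2⟩
      refine (mk_le_mk_of_subset hsub).trans_lt ?_
      refine (mk_traces_le he hec hbdd hρ lvl' hJ (Kf e lvl) hK hKb y).trans_lt ?_
      have h1 : #(Prod.fst '' y : Set W) + ℵ₀ < κ :=
        add_lt_of_lt hκ (mk_image_le.trans_lt hy) hκ0
      have h2 : #(cl (ops e) (Prod.fst '' y)) < κ := by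
        refine (mk_cl_le _ _).trans_lt ?_
        refine (power_le_power_left ?_ hI).trans_lt (hcl _ h1)
        exact (aleph0_pos.trans_le (self_le_add_left _ _)).ne'
      have h3 : #(cl (ops e) (Prod.fst '' y)) + 1 < κ :=
        add_lt_of_lt hκ h2 (one_lt_aleph0.trans_le hκ)
      rw [hOI]
      exact hcl _ (hcl _ h3))
  obtain ⟨i, A, hA, hAcov⟩ := exists_covered hμ0.le hκμ hW (Kf e lvl) γ
    (fun y hy => (hγ y hy).2)
    (fun y hy x hx => exists_mem_Kf lvl he hec hμ hρμ hcov (hγ y hy).1 hx) hIκ ⟨i₀⟩ b hb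
  refine power_le_of_covered hμ hμ0 hκμ hW lvl hlvl ?_ hIκ (Kf e lvl i)
    (fun δ => mk_Kf_lt lvl hμ hμ0 hlvl i δ) A hA hAcov
  intro l hl
  obtain ⟨j, hj⟩ := hcov (max ρ l) (le_max_left _ _) (max_lt hρμ hl)
  exact ⟨j, by rw [hj]; exact le_max_right _ _⟩

end Run7.h199
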