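import Mathlib
import Pool.Agent.Run7.h199.Few

/-!
Small sets that are closed under the scale, and the number of traces of the covering sets on them.
-/

universe u

open Cardinal Set

namespace Run7.h199

section agree

variable {W : Type u} [LinearOrder W] [WellFoundedLT W] {e : W → W → W}

theorem agree_step' (he : ∀ δ, Set.InjOn (e δ) (Set.Iio δ))
    (hec : ∀ δ x : W, x < δ → cd (e δ x) < cd δ)
    (hbdd : ∀ f : ℕ → W, BddAbove (Set.range f))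
    {P₁ P₂ : Set W} (h1 : OpClosed (ops e) P₁) (h2 : OpClosed (ops e) P₂)
    (x : W) (hρx : ℵ₀ ≤ cd x)
    (hcof1 : ∀ z ∈ P₁, cd z = cd x → ∃ y ∈ P₂, cd y = cd x ∧ z ≤ y)
    (hcof2 : ∀ z ∈ P₂, cd z = cd x → ∃ y ∈ P₁, cd y = cd x ∧ z ≤ y)
    (ih : ∀ y, cd y < cd x → y ∈ P₁ → y ∈ P₂) (hx : x ∈ P₁) : x ∈ P₂ := by
  classical
  have hF : ∀ z : {z : W // z ∈ P₁ ∧ cd z = cd x}, ∃ y : {y : W // y ∈ P₂ ∧ cd y = cd x},
      (z : W) ≤ y := by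
    rintro ⟨z, hz, hzx⟩
    obtain ⟨y, hy, hyc, hzy⟩ := hcof1 z hz hzx
    exact ⟨⟨y, hy, hyc⟩, hzy⟩
  have hG : ∀ z : {z : W // z ∈ P₂ ∧ cd z = cd x}, ∃ y : {y : W // y ∈ P₁ ∧ cd y = cd x},
      (z : W) ≤ y := by
    rintro ⟨z, hz, hzx⟩
    obtain ⟨y, hy, hyc, hzy⟩ := hcof2 z hz hzx
    exact ⟨⟨y, hy, hyc⟩, hzy⟩
  choose F hF using hF
  choose G hG using hG
  let a : ℕ → {z : W // z ∈ P₁ ∧ cd z = cd x} := fun n => Nat.rec ⟨x, hx, rfl⟩ (fun _ z => G (F z)) n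
  let b : ℕ → {z : W // z ∈ P₂ ∧ cd z = cd x} := fun n => F (a n)
  have hab : ∀ n, (a n).1 ≤ (b n).1 := fun n => hF (a n)
  have hba : ∀ n, (b n).1 ≤ (a (n + 1)).1 := fun n => hG (b n)
  have hsa := supSeq_isLUB (hbdd (fun n => (a n).1))
  have hsb := supSeq_isLUB (hbdd (fun n => (b n).1))
  have hub : upperBounds (Set.range fun n => (a n).1) =
      upperBounds (Set.range fun n => (b n).1) := by
    ext t
    constructor
    · rintro ht _ ⟨n, rfl⟩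
      exact (hba n).trans (ht ⟨n + 1, rfl⟩)
    · rintro ht _ ⟨n, rfl⟩
      exact (hab n).trans (ht ⟨n, rfl⟩)
  have heq : supSeq (fun n => (a n).1) = supSeq (fun n => (b n).1) := by
    apply hsa.unique
    unfold IsLUB
    rw [hub]
    exact hsb
  set δ := supSeq (fun n => (a n).1) with hδ
  have hδ1 : δ ∈ P₁ := h1.sup_mem fun n => (a n).2.1
  have hδ2 : δ ∈ P₂ := by
    rw [heq]
    exact h2.sup_mem fun n => (b n).2.1
  have hδc : cd δ = cd x := cd_supSeq (hbdd _) hρx fun n => (a n).2.2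
  have hxδ : x ≤ δ := hsa.1 ⟨0, rfl⟩
  rcases hxδ.eq_or_lt with h | h
  · rw [h]
    exact hδ2
  · have h3 : e δ x ∈ P₂ := by
      apply ih
      · rw [← hδc]
        exact hec δ x h
      · exact h1.e_mem hδ1 hx
    have h4 := h2.einv_mem hδ2 h3
    rwa [einv_spec e he h] at h4

theorem agree_below (he : ∀ δ, Set.InjOn (e δ) (Set.Iio δ))
    (hec : ∀ δ x : W, x < δ → cd (e δ x) < cd δ)
    (hbdd : ∀ f : ℕ → W, BddAbove (Set.range f))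
    {P₁ P₂ : Set W} (h1 : OpClosed (ops e) P₁) (h2 : OpClosed (ops e) P₂)
    {k lam : Cardinal.{u}} (hk : ℵ₀ ≤ k) (hbase : ∀ x, cd x < k → (x ∈ P₁ ↔ x ∈ P₂))
    (hcof1 : ∀ x ∈ P₁, k ≤ cd x → cd x < lam → ∃ y ∈ P₂, cd y = cd x ∧ x ≤ y)
    (hcof2 : ∀ x ∈ P₂, k ≤ cd x → cd x < lam → ∃ y ∈ P₁, cd y = cd x ∧ x ≤ y) :
    ∀ x, cd x < lam → (x ∈ P₁ ↔ x ∈ P₂) := by
  have key : ∀ l : Cardinal.{u}, l < lam → ∀ x : W, cd x = l → (x ∈ P₁ ↔ x ∈ P₂) := by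
    intro l
    induction l using WellFoundedLT.induction with
    | ind l ih =>
      intro hl x hx
      rcases lt_or_ge (cd x) k with h | h
      · exact hbase x h
      · have ih' : ∀ y, cd y < cd x → (y ∈ P₁ ↔ y ∈ P₂) := fun y hy =>
          ih (cd y) (hx ▸ hy) ((hx ▸ hy : cd y < l).trans hl) y rfl
        have hc1 : ∀ z ∈ P₁, cd z = cd x → ∃ y ∈ P₂, cd y = cd x ∧ z ≤ y := by
          intro z hz hzx
          obtain ⟨y, h3, h4, h5⟩ := hcof1 z hz (by rw [hzx]; exact h) (by rw [hzx, hx]; exact hl)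
          exact ⟨y, h3, h4.trans hzx, h5⟩
        have hc2 : ∀ z ∈ P₂, cd z = cd x → ∃ y ∈ P₁, cd y = cd x ∧ z ≤ y := by
          intro z hz hzx
          obtain ⟨y, h3, h4, h5⟩ := hcof2 z hz (by rw [hzx]; exact h) (by rw [hzx, hx]; exact hl)
          exact ⟨y, h3, h4.trans hzx, h5⟩
        exact ⟨agree_step' he hec hbdd h1 h2 x (hk.trans h) hc1 hc2 fun y hy => (ih' y hy).1,
          agree_step' he hec hbdd h2 h1 x (hk.trans h) hc2 hc1 fun y hy => (ih' y hy).2⟩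
  intro x hx
  exact key _ hx x rfl

end agree

namespace Sys

variable {W : Type u} [LinearOrder W] [WellFoundedLT W] (S : Sys W)

/-- A small set closed under the scale. -/
structure Nice (κ : Cardinal.{u}) (Y : Set W) : Prop where
  card : #Y < κ
  ops : OpClosed (ops S.e) Y
  f : ∀ ζ ∈ Y, ∀ i, S.f ζ i ∈ Y
  bot : ∃ b ∈ Y, cd b < S.ρ
  R : ∀ g : ℕ → W, (∀ n, g n ∈ Y) → ∃ a : Set W, (∀ n, g n ∈ a) ∧ ∀ i, S.R (S.lam i) a ⊆ Y

theorem exists_nice {κ : Cardinal.{u}} (hκ : κ.IsRegular) (hκ1 : Order.succ ℵ₀ < κ)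
    (hcov : ∀ X : Set W, #X < κ → ∃ 𝒜 : Set (Set W), #𝒜 < κ ∧ (∀ a ∈ 𝒜, a.Countable) ∧
      ∀ s : ℕ → W, (∀ n, s n ∈ X) → ∃ a ∈ 𝒜, ∀ n, s n ∈ a)
    (hfew : ∀ i, ∀ a : Set W, a.Countable → #(S.R (S.lam i) a) < κ)
    (y : Set W) (hy : #y < κ) : ∃ Y, y ⊆ Y ∧ S.Nice κ Y := by
  classical
  have h0 : ℵ₀ < κ := (Order.lt_succ _).trans hκ1
  obtain ⟨b, hb⟩ : ∃ b : W, cd b < S.ρ := by
    have h1 : S.ρ ≤ #{x : W | cd x < S.ρ} := le_mk_cd_lt (by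
      rw [S.mkW]
      exact (((S.lvl1 0).trans_lt (S.lvl2 0)).trans (Order.lt_succ _)).le)
    have h2 : #{x : W | cd x < S.ρ} ≠ 0 := by
      intro h
      rw [h] at h1
      exact absurd (aleph0_pos.trans_le S.hρ) (not_lt.mpr h1)
    obtain ⟨w⟩ := mk_ne_zero_iff.mp h2
    exact ⟨w, w.2⟩
  choose! 𝒜 h𝒜1 h𝒜2 h𝒜3 using hcov
  let Ψ : Set W → Set W := fun Y =>
    Set.range (fun p : Y × Y => S.e p.1 p.2) ∪ (Set.range (fun p : Y × Y => einv S.e p.1 p.2) ∪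
      ({z : W | ∃ h : ℕ → W, (∀ n, h n ∈ Y) ∧ IsLUB (Set.range h) z} ∪
        (Set.range (fun p : Y × ULift.{u} ℕ => S.f p.1 p.2.down) ∪
          ⋃ a : 𝒜 Y, ⋃ i : ULift.{u} ℕ, S.R (S.lam i.down) a)))
  have hΨ : ∀ Y : Set W, #Y < κ → #(Ψ Y) < κ := by
    intro Y hY
    have hY2 : #(Y × Y) < κ := by
      rw [mk_prod, lift_id]
      exact mul_lt_of_lt h0.le hY hY
    refine (mk_union_le _ _).trans_lt (add_lt_of_lt h0.le (mk_range_le.trans_lt hY2) ?_)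
    refine (mk_union_le _ _).trans_lt (add_lt_of_lt h0.le (mk_range_le.trans_lt hY2) ?_)
    refine (mk_union_le _ _).trans_lt (add_lt_of_lt h0.le ?_ ?_)
    · exact (mk_limits_le Y).trans_lt (add_lt_of_lt h0.le hY (one_lt_aleph0.trans h0))
    refine (mk_union_le _ _).trans_lt (add_lt_of_lt h0.le (mk_range_le.trans_lt ?_) ?_)
    · rw [mk_prod, lift_id, lift_id]
      exact mul_lt_of_lt h0.le hY (by simpa using h0)
    rw [Cardinal.card_iUnion_lt_iff_forall_of_isRegular hκ (h𝒜1 Y hY)]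
    intro a
    rw [Cardinal.card_iUnion_lt_iff_forall_of_isRegular hκ (by simpa using h0)]
    intro i
    exact hfew _ _ (h𝒜2 Y hY a a.2)
  obtain ⟨Y, hyY, hYκ, hY⟩ := exists_omega1_closure hκ hκ1 Ψ hΨ (insert b y)
    (mk_insert_le.trans_lt (add_lt_of_lt h0.le hy (one_lt_aleph0.trans h0)))
  have hsub1 : ∀ Y₀ : Set W, Set.range (fun p : Y₀ × Y₀ => S.e p.1 p.2) ⊆ Ψ Y₀ :=
    fun Y₀ => Set.subset_union_left
  have hsub2 : ∀ Y₀ : Set W, Set.range (fun p : Y₀ × Y₀ => einv S.e p.1 p.2) ⊆ Ψ Y₀ :=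
    fun Y₀ => Set.subset_union_left.trans Set.subset_union_right
  have hsub3 : ∀ Y₀ : Set W,
      {z : W | ∃ h : ℕ → W, (∀ n, h n ∈ Y₀) ∧ IsLUB (Set.range h) z} ⊆ Ψ Y₀ :=
    fun Y₀ => (Set.subset_union_left.trans Set.subset_union_right).trans Set.subset_union_right
  have hsub4 : ∀ Y₀ : Set W, Set.range (fun p : Y₀ × ULift.{u} ℕ => S.f p.1 p.2.down) ⊆ Ψ Y₀ :=
    fun Y₀ => ((Set.subset_union_left.trans Set.subset_union_right).trans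
      Set.subset_union_right).trans Set.subset_union_right
  have hsub5 : ∀ Y₀ : Set W, (⋃ a : 𝒜 Y₀, ⋃ i : ULift.{u} ℕ, S.R (S.lam i.down) a) ⊆ Ψ Y₀ :=
    fun Y₀ => ((Set.subset_union_right.trans Set.subset_union_right).trans
      Set.subset_union_right).trans Set.subset_union_right
  refine ⟨Y, (Set.subset_insert _ _).trans hyY, hYκ, ?_, ?_, ⟨b, hyY (Set.mem_insert _ _), hb⟩, ?_⟩
  · intro k s hs
    obtain ⟨Y₀, -, h2, h3, -⟩ := hY s hs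
    rcases k with _ | _ | k
    · exact h3 (hsub1 Y₀ ⟨(⟨s 0, h2 0⟩, ⟨s 1, h2 1⟩), rfl⟩)
    · exact h3 (hsub2 Y₀ ⟨(⟨s 0, h2 0⟩, ⟨s 1, h2 1⟩), rfl⟩)
    · exact h3 (hsub3 Y₀ ⟨s, h2, supSeq_isLUB (S.bdd s)⟩)
  · intro ζ hζ i
    obtain ⟨Y₀, -, h2, h3, -⟩ := hY (fun _ => ζ) (fun _ => hζ)
    exact h3 (hsub4 Y₀ ⟨(⟨ζ, h2 0⟩, ⟨i⟩), rfl⟩)
  · intro g hg
    obtain ⟨Y₀, -, h2, h3, h4⟩ := hY g hg
    obtain ⟨a, ha, hga⟩ := h𝒜3 Y₀ h4 g h2
    refine ⟨a, hga, fun i => ?_⟩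
    refine Set.Subset.trans ?_ ((hsub5 Y₀).trans h3)
    intro z hz
    exact Set.mem_iUnion.mpr ⟨⟨a, ha⟩, Set.mem_iUnion.mpr ⟨⟨i⟩, hz⟩⟩

variable {S}

/-- The index family: covering sets `S.K l γ` with `γ ∉ Y`. -/
def Fam (S : Sys W) (Y : Set W) : Set (Set W) :=
  {K | ∃ l γ, S.ρ ≤ l ∧ l < S.μ ∧ cd γ = S.μ ∧ γ ∉ Y ∧ K = S.K l γ}

/-- signature at level `l` -/
noncomputable def sg (l : Cardinal.{u}) (Y T : Set W) : Option Y :=
  sig (J := PUnit.{u+1}) (fun _ => l) Y T PUnit.unit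

theorem cof_of_sg {l : Cardinal.{u}} {Y P₁ P₂ : Set W} (hP₁ : P₁ ⊆ Y)
    (hs : sg l Y P₁ = sg l Y P₂) (x : W) (hx : x ∈ P₁) (hl : cd x = l) :
    ∃ y ∈ P₂, cd y = cd x ∧ x ≤ y :=
  cof_of_sig (lvl := fun _ => l) hP₁ PUnit.unit hs x hx hl.symm

/-- The main point: the top signature determines the trace up to a bounded part. -/
theorem cof_eventually {κ : Cardinal.{u}} {Y : Set W} (hY : S.Nice κ Y) {l : Cardinal.{u}}
    (hρl : S.ρ < l) (hlμ : l ≤ S.μ) (hlim : ∀ l' < l, Order.succ l' < l) {K K' : Set W}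
    (hK : K ∈ Fam S Y) (hK' : K' ∈ Fam S Y) (hs : sg l Y (K' ∩ Y) = sg l Y (K ∩ Y)) :
    ∃ k < l, ∀ x ∈ K' ∩ Y, k ≤ cd x → cd x < l → ∃ y ∈ K ∩ Y, cd y = cd x ∧ x ≤ y := by
  classical
  obtain ⟨l₁, γ, hl₁, hl₁μ, hγ, hγY, rfl⟩ := hK
  obtain ⟨l₂, γ', hl₂, hl₂μ, hγ', hγY', rfl⟩ := hK'
  have hl0 : 0 < l := bot_le.trans_lt hρl
  obtain ⟨b, hbY, hb⟩ := hY.bot
  let Q : ℕ → W → Prop := fun i x => x ∈ S.K l₂ γ' ∩ Y ∧ cd x = S.lvl i ∧
    ∀ y ∈ S.K l₁ γ ∩ Y, cd y = S.lvl i → y < x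
  let g : ℕ → W := fun i => if h : ∃ x, Q i x then h.choose else b
  have hgQ : ∀ i, (∃ x, Q i x) → Q i (g i) := by
    intro i h
    simp only [g]
    rw [dif_pos h]
    exact h.choose_spec
  have hgb : ∀ i, ¬ (∃ x, Q i x) → g i = b := by
    intro i h
    simp only [g]
    rw [dif_neg h]
  have hg1 : ∀ i, g i ∈ S.K l₂ γ' := by
    intro i
    by_cases h : ∃ x, Q i x
    · exact (hgQ i h).1.1
    · rw [hgb i h]
      exact S.mem_of_cd (hb.trans_le hl₂)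
  have hg2 : ∀ i, g i ∈ Y := by
    intro i
    by_cases h : ∃ x, Q i x
    · exact (hgQ i h).1.2
    · rw [hgb i h]
      exact hbY
  have hg3 : ∀ i, cd (g i) = S.lvl i ∨ cd (g i) < S.ρ := by
    intro i
    by_cases h : ∃ x, Q i x
    · exact Or.inl (hgQ i h).2.1
    · rw [hgb i h]
      exact Or.inr hb
  obtain ⟨ζ, hζK, hζl, hζg, hζmin⟩ := S.exists_zeta hl₂ hl₂μ hγ' hρl hlμ hlim g hg1 hg3
  obtain ⟨a, hga, haR⟩ := hY.R g hg2
  obtain ⟨j, hj⟩ := S.lam2 l hρl hlμ hlim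
  have hζY : ζ ∈ Y := haR j (by
    rw [hj]
    exact S.mem_R_of_min hga hζl hζg hζmin)
  obtain ⟨ξ, ⟨hξK, hξY⟩, hξc, hζξ⟩ := cof_of_sg Set.inter_subset_right hs ζ ⟨hζK, hζY⟩ hζl
  have hξl : cd ξ = l := hξc.trans hζl
  have hξγ : ξ < γ := by
    rcases (S.K_le (by rw [hγ]; exact hl₁μ.le) hξK).eq_or_lt with h | h
    · exact absurd (h ▸ hξY) hγY
    · exact h
  have hev : ∀ᶠ i in EL S.lvl l, g i < S.f ξ i := by
    rcases hζξ.eq_or_lt with h | h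
    · rw [← h]
      exact hζg
    · filter_upwards [hζg, S.f_lt hρl hlμ hlim hζl hξl h] with i h1 h2
      exact h1.trans h2
  rw [eventually_EL hl0] at hev
  obtain ⟨k, hk, hkev⟩ := hev
  refine ⟨max S.ρ k, max_lt hρl hk, ?_⟩
  intro x hx hx1 hx2
  by_contra hno
  push Not at hno
  obtain ⟨i, hi⟩ := S.lvl3 (cd x) ((le_max_left _ _).trans hx1) (hx2.trans_le hlμ)
  have hQ : ∃ x, Q i x := ⟨x, hx, hi.symm, fun y hy hyi => hno y hy (hyi.trans hi)⟩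
  have h1 := hgQ i hQ
  have h2 := hkev i (by rw [hi]; exact (le_max_right _ _).trans hx1) (by rw [hi]; exact hx2)
  have h3 : S.f ξ i < g i := by
    apply h1.2.2
    · exact ⟨S.f_mem hξK hξγ i, hY.f ξ hξY i⟩
    · exact S.hf1 ξ i (by rw [hξl, hi]; exact hx2)
  exact absurd h2 (not_lt.mpr h3.le)

/-- The traces below level `l`. -/
def Tr (S : Sys W) (Y : Set W) (l : Cardinal.{u}) : Set (Set W) :=
  {T | ∃ K ∈ Fam S Y, T = K ∩ Y ∩ {x | cd x < l}}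

theorem fam_closed {Y K : Set W} (hK : K ∈ Fam S Y) : OpClosed (ops S.e) K := by
  obtain ⟨l, γ, -, -, -, -, rfl⟩ := hK
  exact cl'_ops (S.closedK l γ)

theorem mem_fam_of_cd {Y K : Set W} (hK : K ∈ Fam S Y) {x : W} (hx : cd x < S.ρ) : x ∈ K := by
  obtain ⟨l, γ, hl, -, -, -, rfl⟩ := hK
  exact S.mem_of_cd (hx.trans_le hl)

theorem tr_eq {κ : Cardinal.{u}} {Y : Set W} (hY : S.Nice κ Y) {K K' : Set W} (hK : K ∈ Fam S Y)
    (hK' : K' ∈ Fam S Y) {k l : Cardinal.{u}} (hk : ℵ₀ ≤ k)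
    (hbase : K ∩ Y ∩ {x | cd x < k} = K' ∩ Y ∩ {x | cd x < k})
    (hcof1 : ∀ x ∈ K ∩ Y, k ≤ cd x → cd x < l → ∃ y ∈ K' ∩ Y, cd y = cd x ∧ x ≤ y)
    (hcof2 : ∀ x ∈ K' ∩ Y, k ≤ cd x → cd x < l → ∃ y ∈ K ∩ Y, cd y = cd x ∧ x ≤ y) :
    K ∩ Y ∩ {x | cd x < l} = K' ∩ Y ∩ {x | cd x < l} := by
  have h := agree_below S.he S.hec S.bdd ((fam_closed hK).inter hY.ops)
    ((fam_closed hK').inter hY.ops) hk (fun x hx => by
      constructor
      · intro h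
        have h1 : x ∈ K ∩ Y ∩ {x | cd x < k} := ⟨h, hx⟩
        rw [hbase] at h1
        exact h1.1
      · intro h
        have h1 : x ∈ K' ∩ Y ∩ {x | cd x < k} := ⟨h, hx⟩
        rw [← hbase] at h1
        exact h1.1) hcof1 hcof2
  ext x
  constructor
  · rintro ⟨h1, h2⟩
    exact ⟨(h x h2).1 h1, h2⟩
  · rintro ⟨h1, h2⟩
    exact ⟨(h x h2).2 h1, h2⟩

theorem mk_Tr_succ {κ : Cardinal.{u}} (h0 : ℵ₀ < κ) {Y : Set W}
    (hY : S.Nice κ Y) {l : Cardinal.{u}} (hρl : S.ρ ≤ l) (ih : #(Tr S Y l) < κ) :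
    #(Tr S Y (Order.succ l)) < κ := by
  classical
  have hch : ∀ T : Tr S Y (Order.succ l), ∃ K, K ∈ Fam S Y ∧
      T.1 = K ∩ Y ∩ {x | cd x < Order.succ l} := fun T => T.2
  choose K hK1 hK2 using hch
  let φ : Tr S Y (Order.succ l) → Tr S Y l × Option Y := fun T =>
    (⟨K T ∩ Y ∩ {x | cd x < l}, K T, hK1 T, rfl⟩, sg l Y (K T ∩ Y))
  have hinj : Function.Injective φ := by
    intro T T' h
    simp only [φ, Prod.mk.injEq] at h
    apply Subtype.ext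
    rw [hK2 T, hK2 T']
    apply tr_eq hY (hK1 T) (hK1 T') (S.hρ.trans hρl) (Subtype.ext_iff.mp h.1)
    · intro x hx h1 h2
      exact cof_of_sg Set.inter_subset_right h.2 x hx (le_antisymm (Order.lt_succ_iff.mp h2) h1)
    · intro x hx h1 h2
      exact cof_of_sg Set.inter_subset_right h.2.symm x hx
        (le_antisymm (Order.lt_succ_iff.mp h2) h1)
  refine (mk_le_of_injective hinj).trans_lt ?_
  rw [mk_prod, lift_id, lift_id, mk_option]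
  exact mul_lt_of_lt h0.le ih (add_lt_of_lt h0.le hY.card (one_lt_aleph0.trans h0))

theorem mk_Tr_limit {κ : Cardinal.{u}} (hκ : κ.IsRegular) (h0 : ℵ₀ < κ) {Y : Set W}
    (hY : S.Nice κ Y) {l : Cardinal.{u}} (hρl : S.ρ < l) (hlμ : l ≤ S.μ)
    (hlim : ∀ l' < l, Order.succ l' < l)
    (ih : ∀ k, S.ρ ≤ k → k < l → #(Tr S Y k) < κ) : #(Tr S Y l) < κ := by
  classical
  have hch : ∀ T : Tr S Y l, ∃ K, K ∈ Fam S Y ∧ T.1 = K ∩ Y ∩ {x | cd x < l} := fun T => T.2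
  choose K hK1 hK2 using hch
  -- representatives
  have hrep : ∀ σ : Option Y, ∃ T₀ : Set W, (∃ T : Tr S Y l, sg l Y (K T ∩ Y) = σ) →
      (T₀ ∈ Fam S Y ∧ sg l Y (T₀ ∩ Y) = σ) := by
    intro σ
    by_cases h : ∃ T : Tr S Y l, sg l Y (K T ∩ Y) = σ
    · obtain ⟨T, hT⟩ := h
      exact ⟨K T, fun _ => ⟨hK1 T, hT⟩⟩
    · exact ⟨∅, fun h' => absurd h' h⟩
  choose T₀ hT₀ using hrep
  have hk : ∀ T : Tr S Y l, ∃ j : {j : ULift.{u} ℕ // S.lvl j.down < l},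
      (∀ x ∈ K T ∩ Y, S.lvl j.1.down ≤ cd x → cd x < l →
        ∃ y ∈ T₀ (sg l Y (K T ∩ Y)) ∩ Y, cd y = cd x ∧ x ≤ y) ∧
      (∀ x ∈ T₀ (sg l Y (K T ∩ Y)) ∩ Y, S.lvl j.1.down ≤ cd x → cd x < l →
        ∃ y ∈ K T ∩ Y, cd y = cd x ∧ x ≤ y) := by
    intro T
    obtain ⟨h1, h2⟩ := hT₀ (sg l Y (K T ∩ Y)) ⟨T, rfl⟩
    obtain ⟨k₁, hk₁, h3⟩ := cof_eventually hY hρl hlμ hlim h1 (hK1 T) h2.symm
    obtain ⟨k₂, hk₂, h4⟩ := cof_eventually hY hρl hlμ hlim (hK1 T) h1 h2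
    obtain ⟨j, hj⟩ := S.lvl3 (max S.ρ (max k₁ k₂)) (le_max_left _ _)
      ((max_lt hρl (max_lt hk₁ hk₂)).trans_le hlμ)
    refine ⟨⟨⟨j⟩, ?_⟩, ?_, ?_⟩
    · simp only [hj]
      exact max_lt hρl (max_lt hk₁ hk₂)
    · intro x hx hx1 hx2
      simp only [hj] at hx1
      exact h3 x hx (((le_max_left _ _).trans (le_max_right _ _)).trans hx1) hx2
    · intro x hx hx1 hx2
      simp only [hj] at hx1
      exact h4 x hx (((le_max_right _ _).trans (le_max_right _ _)).trans hx1) hx2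
  choose j hj1 hj2 using hk
  let φ : Tr S Y l → Option Y × (Σ j : {j : ULift.{u} ℕ // S.lvl j.down < l},
      Tr S Y (S.lvl j.1.down)) := fun T =>
    (sg l Y (K T ∩ Y), ⟨j T, ⟨K T ∩ Y ∩ {x | cd x < S.lvl (j T).1.down}, K T, hK1 T, rfl⟩⟩)
  have hinj : Function.Injective φ := by
    intro T T' h
    simp only [φ, Prod.mk.injEq, Sigma.mk.injEq] at h
    obtain ⟨hσ, hjj, hH⟩ := h
    have hH' : K T ∩ Y ∩ {x | cd x < S.lvl (j T).1.down} =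
        K T' ∩ Y ∩ {x | cd x < S.lvl (j T).1.down} := by
      have key : ∀ (j₁ j₂ : {j : ULift.{u} ℕ // S.lvl j.down < l})
          (A : Tr S Y (S.lvl j₁.1.down)) (B : Tr S Y (S.lvl j₂.1.down)), j₁ = j₂ → HEq A B →
          A.1 = B.1 := by
        rintro j₁ _ A B rfl h
        rw [eq_of_heq h]
      have h1 := key _ _ _ _ hjj hH
      simp only at h1
      rw [h1, hjj]
    apply Subtype.ext
    rw [hK2 T, hK2 T']
    apply tr_eq hY (hK1 T) (hK1 T') (S.hρ.trans (S.lvl1 (j T).1.down)) hH'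
    · intro x hx h1 h2
      obtain ⟨y, hy, hyc, hxy⟩ := hj1 T x hx h1 h2
      rw [hσ] at hy
      obtain ⟨z, hz, hzc, hyz⟩ := hj2 T' y hy (by rw [← hjj, hyc]; exact h1)
        (by rw [hyc]; exact h2)
      exact ⟨z, hz, hzc.trans hyc, hxy.trans hyz⟩
    · intro x hx h1 h2
      obtain ⟨y, hy, hyc, hxy⟩ := hj1 T' x hx (by rw [← hjj]; exact h1) h2
      rw [← hσ] at hy
      obtain ⟨z, hz, hzc, hyz⟩ := hj2 T y hy (by rw [hyc]; exact h1) (by rw [hyc]; exact h2)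
      exact ⟨z, hz, hzc.trans hyc, hxy.trans hyz⟩
  refine (mk_le_of_injective hinj).trans_lt ?_
  rw [mk_prod, lift_id, lift_id, mk_option, mk_sigma]
  refine mul_lt_of_lt h0.le (add_lt_of_lt h0.le hY.card (one_lt_aleph0.trans h0)) ?_
  apply Cardinal.sum_lt_of_isRegular hκ
  · exact (mk_subtype_le _).trans_lt (by simpa using h0)
  · intro j
    exact ih _ (S.lvl1 _) j.2

theorem mk_Tr_lt {κ : Cardinal.{u}} (hκ : κ.IsRegular) (h0 : ℵ₀ < κ) {Y : Set W}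
    (hY : S.Nice κ Y) (l : Cardinal.{u}) : S.ρ ≤ l → l ≤ Order.succ S.μ → #(Tr S Y l) < κ := by
  induction l using WellFoundedLT.induction with
  | ind l ih =>
    intro hρl hlμ
    rcases hρl.eq_or_lt with h | h
    · subst h
      have hsub : Tr S Y S.ρ ⊆ {Y ∩ {x | cd x < S.ρ}} := by
        rintro T ⟨K, hK, rfl⟩
        rw [Set.mem_singleton_iff]
        ext x
        constructor
        · rintro ⟨⟨-, h1⟩, h2⟩
          exact ⟨h1, h2⟩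
        · rintro ⟨h1, h2⟩
          exact ⟨⟨mem_fam_of_cd hK h2, h1⟩, h2⟩
      refine (mk_le_mk_of_subset hsub).trans_lt ?_
      rw [mk_singleton]
      exact one_lt_aleph0.trans h0
    · by_cases hlim : ∀ l' < l, Order.succ l' < l
      · have hlμ' : l ≤ S.μ := by
          by_contra hcon
          push Not at hcon
          have h1 : Order.succ S.μ < l := hlim _ hcon
          exact absurd h1 (not_lt.mpr hlμ)
        exact mk_Tr_limit hκ h0 hY h hlμ' hlim fun k hk1 hk2 =>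
          ih k hk2 hk1 ((hk2.le.trans hlμ))
      · push Not at hlim
        obtain ⟨l', hl', hle⟩ := hlim
        have heq : l = Order.succ l' := le_antisymm hle (Order.succ_le_of_lt hl')
        subst heq
        have hρl' : S.ρ ≤ l' := Order.lt_succ_iff.mp h
        exact mk_Tr_succ h0 hY hρl' (ih l' hl' hρl' (hl'.le.trans hlμ))

/-- The number of traces of the covering sets on a small set. -/
theorem mk_traces_lt {κ : Cardinal.{u}} (hκ : κ.IsRegular) (h0 : ℵ₀ < κ)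
    (hnice : ∀ y : Set W, #y < κ → ∃ Y, y ⊆ Y ∧ S.Nice κ Y) (y : Set W) (hy : #y < κ) :
    #{T : Set W | ∃ l γ, S.ρ ≤ l ∧ l < S.μ ∧ cd γ = S.μ ∧ T = S.K l γ ∩ y} < κ := by
  obtain ⟨Y, hyY, hY⟩ := hnice y hy
  have hsub : {T : Set W | ∃ l γ, S.ρ ≤ l ∧ l < S.μ ∧ cd γ = S.μ ∧ T = S.K l γ ∩ y} ⊆
      ((fun T => T ∩ y) '' Tr S Y (Order.succ S.μ)) ∪
        Set.range (fun p : Y × ULift.{u} ℕ => S.K (S.lvl p.2.down) p.1 ∩ y) := by
    rintro T ⟨l, γ, hl, hlμ, hγ, rfl⟩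
    by_cases hγY : γ ∈ Y
    · right
      obtain ⟨i, hi⟩ := S.lvl3 l hl hlμ
      exact ⟨(⟨γ, hγY⟩, ⟨i⟩), by simp only [hi]⟩
    · left
      refine ⟨S.K l γ ∩ Y ∩ {x | cd x < Order.succ S.μ}, ⟨_, ⟨l, γ, hl, hlμ, hγ, hγY, rfl⟩, rfl⟩, ?_⟩
      ext x
      simp only [Set.mem_inter_iff, Set.mem_ofPred_eq, Order.lt_succ_iff]
      constructor
      · rintro ⟨⟨⟨h1, -⟩, -⟩, h2⟩
        exact ⟨h1, h2⟩
      · rintro ⟨h1, h2⟩
        exact ⟨⟨⟨h1, hyY h2⟩, S.cdW x⟩, h2⟩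
  refine (mk_le_mk_of_subset hsub).trans_lt ((mk_union_le _ _).trans_lt (add_lt_of_lt h0.le ?_ ?_))
  · refine mk_image_le.trans_lt (mk_Tr_lt hκ h0 hY _ ?_ le_rfl)
    exact (((S.lvl1 0).trans_lt (S.lvl2 0)).trans (Order.lt_succ _)).le
  · refine mk_range_le.trans_lt ?_
    rw [mk_prod, lift_id, lift_id]
    exact mul_lt_of_lt h0.le hY.card (by simpa using h0)

end Sys

end Run7.h199
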