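import Mathlib
import Pool.Agent.Run7.h199.Nice
import Pool.Agent.Run7.h199.Core

/-!
The tree property bounds `μ ^ ℵ₀` at the top of a system.
-/

universe u

open Cardinal Set

namespace Run7.h199

namespace Sys

variable {W : Type u} [LinearOrder W] [WellFoundedLT W] (S : Sys W)

/-- A cofinal sequence of levels below `μ`. -/
noncomputable def L : ℕ → Cardinal.{u}
  | 0 => S.lvl 0
  | k + 1 => max (L k) (S.lvl (k + 1))

theorem L_spec (k : ℕ) : S.ρ ≤ S.L k ∧ S.L k < S.μ := by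
  induction k with
  | zero => exact ⟨S.lvl1 0, S.lvl2 0⟩
  | succ k ih => exact ⟨ih.1.trans (le_max_left _ _), max_lt ih.2 (S.lvl2 _)⟩

theorem L_mono : Monotone S.L := monotone_nat_of_le_succ fun _ => le_max_left _ _

theorem lvl_le_L (k : ℕ) : S.lvl k ≤ S.L k := by
  cases k with
  | zero => exact le_rfl
  | succ k => exact le_max_right _ _

theorem K_L_mono {k k' : ℕ} (h : k ≤ k') (γ : W) : S.K (S.L k) γ ⊆ S.K (S.L k') γ :=
  S.K_mono (S.L_mono h) (S.mem_self _ _) le_rfl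

theorem exists_mem_K_L (hlim : ∀ l < S.μ, Order.succ l < S.μ) {γ x : W} (hγ : cd γ = S.μ)
    (hx : x < γ) : ∃ k, x ∈ S.K (S.L k) γ := by
  have h1 : cd (S.e γ x) < S.μ := hγ ▸ S.hec γ x hx
  obtain ⟨i, hi⟩ := S.lvl3 (max S.ρ (Order.succ (cd (S.e γ x)))) (le_max_left _ _)
    (max_lt ((S.lvl1 0).trans_lt (S.lvl2 0)) (hlim _ h1))
  refine ⟨i, ?_⟩
  have h2 : S.e γ x ∈ S.K (S.L i) γ := by
    apply S.mem_of_cd
    refine (Order.lt_succ _).trans_le ?_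
    refine (le_max_right S.ρ _).trans ?_
    rw [← hi]
    exact S.lvl_le_L i
  have h3 := cl'_einv (S.closedK (S.L i) γ) (S.mem_self _ γ) h2
  rwa [einv_spec S.e S.he hx] at h3

theorem exists_top (x : W) : ∃ γ, x < γ ∧ cd γ = S.μ := by
  obtain ⟨γ, h1, h2⟩ := exists_level_bound (W := W) S.hμ0 (by
    rw [S.mkW]
    exact Order.lt_succ _) ({x} : Set W) (by
    rw [mk_singleton]
    exact one_le_aleph0.trans S.hμ0) (fun y _ => S.cdW y)
  exact ⟨γ, h2 x rfl, h1⟩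

/-- Stabilisation of the traces of the filtrations on a small set. -/
theorem exists_stable (hlim : ∀ l < S.μ, Order.succ l < S.μ) (y : Set W)
    (hy : (2 : Cardinal.{u}) ^ (#y * ℵ₀) ≤ S.μ) :
    ∃ γ₀ : W, ∃ Q : ℕ → Set W, ∀ γ, γ₀ ≤ γ → cd γ = S.μ →
      ∃ c, ∀ k, c ≤ k → S.K (S.L k) γ ∩ y = Q k := by
  classical
  let τ : W → (ℕ → Set y) := fun γ k => {t : y | (t : W) ∈ S.K (S.L k) γ}
  have hcard : #(ℕ → Set y) ≤ S.μ := by
    have : #(ℕ → Set y) = 2 ^ (#y * ℵ₀) := by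
      simp [power_mul]
    rw [this]
    exact hy
  have hex : ∃ Q : ℕ → Set y, ∀ b : W, ∃ γ, b ≤ γ ∧ cd γ = S.μ ∧ τ γ = Q := by
    by_contra hcon
    push Not at hcon
    choose b hb using hcon
    obtain ⟨γ, hγ⟩ := exists_strict_bound S.hμ0 S.mkW S.cdW (Set.range b)
      (mk_range_le.trans hcard)
    obtain ⟨γ', h1, h2⟩ := S.exists_top γ
    exact hb (τ γ') γ' ((hγ _ ⟨_, rfl⟩).trans h1).le h2 rfl
  obtain ⟨Q, hQ⟩ := hex
  have hne : Nonempty W := by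
    rw [← mk_ne_zero_iff, S.mkW]
    exact (Order.bot_lt_succ _).ne'
  obtain ⟨γ₀, -, hγ₀μ, hγ₀⟩ := hQ (Classical.arbitrary W)
  refine ⟨γ₀, fun k => S.K (S.L k) γ₀ ∩ y, ?_⟩
  intro γ hγ hγμ
  obtain ⟨γ', hγγ', hγ'μ, hγ'⟩ := hQ γ
  have h1 : ∃ k, γ₀ ∈ S.K (S.L k) γ := by
    rcases hγ.eq_or_lt with h | h
    · exact ⟨0, h ▸ S.mem_self _ _⟩
    · exact S.exists_mem_K_L hlim hγμ h
  have h2 : ∃ k, γ ∈ S.K (S.L k) γ' := by
    rcases hγγ'.eq_or_lt with h | h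
    · exact ⟨0, h ▸ S.mem_self _ _⟩
    · exact S.exists_mem_K_L hlim hγ'μ h
  obtain ⟨k₁, hk₁⟩ := h1
  obtain ⟨k₂, hk₂⟩ := h2
  refine ⟨max k₁ k₂, fun k hk => ?_⟩
  have h3 : S.K (S.L k) γ₀ ⊆ S.K (S.L k) γ :=
    S.K_mono le_rfl (S.K_L_mono ((le_max_left _ _).trans hk) γ hk₁) hγ
  have h4 : S.K (S.L k) γ ⊆ S.K (S.L k) γ' :=
    S.K_mono le_rfl (S.K_L_mono ((le_max_right _ _).trans hk) γ' hk₂) hγγ'
  have h5 : τ γ₀ k = τ γ' k := by rw [hγ₀, hγ']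
  ext x
  constructor
  · rintro ⟨h6, h7⟩
    refine ⟨?_, h7⟩
    have h8 : (⟨x, h7⟩ : y) ∈ τ γ' k := h4 h6
    rw [← h5] at h8
    exact h8
  · rintro ⟨h6, h7⟩
    exact ⟨h3 h6, h7⟩

theorem inner {κ : Cardinal.{u}} (hκ : κ.IsRegular) (hκ1 : Order.succ ℵ₀ < κ) (hκρ : κ ≤ S.ρ)
    (h2 : ∀ η < κ, (2 : Cardinal.{u}) ^ η ≤ S.μ)
    (hcov : ∀ X : Set W, #X < κ → ∃ 𝒜 : Set (Set W), #𝒜 < κ ∧ (∀ a ∈ 𝒜, a.Countable) ∧
      ∀ s : ℕ → W, (∀ n, s n ∈ X) → ∃ a ∈ 𝒜, ∀ n, s n ∈ a)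
    (hfew : ∀ i, ∀ a : Set W, a.Countable → #(S.R (S.lam i) a) < κ)
    (hpow : ∀ l, S.ρ ≤ l → l < S.μ → l ^ ℵ₀ ≤ Order.succ l)
    (hlim : ∀ l < S.μ, Order.succ l < S.μ)
    (htp : TwoCardinalTP κ (Order.succ S.μ)) : S.μ ^ ℵ₀ ≤ Order.succ S.μ := by
  classical
  have h0 : ℵ₀ < κ := (Order.lt_succ _).trans hκ1
  have hρμ : S.ρ < S.μ := (S.lvl1 0).trans_lt (S.lvl2 0)
  have hκμ : κ < S.μ := hκρ.trans_lt hρμ
  have hnice : ∀ y : Set W, #y < κ → ∃ Y, y ⊆ Y ∧ S.Nice κ Y :=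
    fun y hy => S.exists_nice hκ hκ1 hcov hfew y hy
  have h2' : ∀ y : Set W, #y < κ → (2 : Cardinal.{u}) ^ (#y * ℵ₀) ≤ S.μ := fun y hy =>
    h2 _ (mul_lt_of_lt h0.le hy h0)
  have hst : ∀ y : Set W, ∃ γ₀ : W, #y < κ → ∃ Q : ℕ → Set W, ∀ γ, γ₀ ≤ γ → cd γ = S.μ →
      ∃ c, ∀ k, c ≤ k → S.K (S.L k) γ ∩ y = Q k := by
    intro y
    by_cases hy : #y < κ
    · obtain ⟨γ₀, hγ₀⟩ := S.exists_stable hlim y (h2' y hy)
      exact ⟨γ₀, fun _ => hγ₀⟩
    · have hne : Nonempty W := by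
        rw [← mk_ne_zero_iff, S.mkW]
        exact (Order.bot_lt_succ _).ne'
      exact ⟨Classical.arbitrary W, fun h => absurd h hy⟩
  choose st hst using hst
  let I : Type u := ULift.{u} ℕ
  have hI : #I = ℵ₀ := by simp [I]
  let K : I → W → Set W := fun i γ => S.K (S.L i.down) γ
  have hex : ∀ x : Set (W × I), ∃ γ : W, #x < κ → cd γ = S.μ ∧ (∀ p ∈ x, p.1 < γ) ∧
      ∀ z ⊆ Prod.fst '' x, st z ≤ γ := by
    intro x
    by_cases hx : #x < κ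
    · obtain ⟨γ₁, hγ₁⟩ := exists_strict_bound S.hμ0 S.mkW S.cdW
        (Prod.fst '' x ∪ st '' (𝒫 (Prod.fst '' x))) (by
        refine (mk_union_le _ _).trans ?_
        calc #(Prod.fst '' x) + #(st '' (𝒫 (Prod.fst '' x))) ≤ S.μ + S.μ := by
              gcongr
              · exact mk_image_le.trans (hx.trans hκμ).le
              · refine mk_image_le.trans ?_
                rw [mk_powerset]
                exact h2 _ (mk_image_le.trans_lt hx)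
          _ = S.μ := add_eq_self S.hμ0)
      obtain ⟨γ, h1, h3⟩ := S.exists_top γ₁
      exact ⟨γ, fun _ => ⟨h3, fun p hp => (hγ₁ _ (Or.inl ⟨p, hp, rfl⟩)).trans h1,
        fun z hz => ((hγ₁ _ (Or.inr ⟨z, hz, rfl⟩)).trans h1).le⟩⟩
    · have hne : Nonempty W := by
        rw [← mk_ne_zero_iff, S.mkW]
        exact (Order.bot_lt_succ _).ne'
      exact ⟨Classical.arbitrary W, fun h => absurd h hx⟩
  choose γ hγ using hex
  have hα : #(W × I) = Order.succ S.μ := by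
    rw [mk_prod, lift_id, lift_id, S.mkW, hI]
    apply mul_eq_left (S.hμ0.trans (Order.lt_succ _).le) (S.hμ0.trans (Order.lt_succ _).le)
    exact aleph0_ne_zero
  obtain ⟨b, hb⟩ := htp (W × I) hα (fun y => y ∩ grph K (γ y))
    (fun x _ => Set.inter_subset_left) (by
      intro z hz
      set y : Set W := Prod.fst '' z with hy
      have hyκ : #y < κ := mk_image_le.trans_lt hz
      obtain ⟨Q, hQ⟩ := hst y hyκ
      set 𝒯 : Set (Set W) := {T : Set W | ∃ l γ, S.ρ ≤ l ∧ l < S.μ ∧ cd γ = S.μ ∧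
        T = S.K l γ ∩ y} with h𝒯
      have h𝒯c : #𝒯 < κ := mk_traces_lt hκ h0 hnice y hyκ
      let Z : Type u := Σ c : I, (Fin c.down → 𝒯)
      let F : Z → Set (W × I) := fun s => {p | p ∈ z ∧
        (if h : p.2.down < s.1.down then p.1 ∈ (s.2 ⟨p.2.down, h⟩).1 else p.1 ∈ Q p.2.down)}
      have hsub : {t : Set (W × I) | ∃ x : Set (W × I), #x < κ ∧ z ⊆ x ∧
          t = (x ∩ grph K (γ x)) ∩ z} ⊆ Set.range F := by
        rintro t ⟨x, hx, hzx, rfl⟩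
        obtain ⟨h3, h4, h5⟩ := hγ x hx
        obtain ⟨c, hc⟩ := hQ (γ x) (h5 y (Set.image_mono hzx)) h3
        refine ⟨⟨⟨c⟩, fun k => ⟨S.K (S.L k) (γ x) ∩ y, S.L k, γ x, (S.L_spec k).1,
          (S.L_spec k).2, h3, rfl⟩⟩, ?_⟩
        ext p
        simp only [F, Set.mem_ofPred_eq, Set.mem_inter_iff, grph, K]
        constructor
        · rintro ⟨h6, h7⟩
          refine ⟨⟨hzx h6, ?_⟩, h6⟩
          split_ifs at h7 with h8
          · exact h7.1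
          · rw [← hc _ (not_lt.mp h8)] at h7
            exact h7.1
        · rintro ⟨⟨-, h6⟩, h7⟩
          refine ⟨h7, ?_⟩
          split_ifs with h8
          · exact ⟨h6, ⟨p, h7, rfl⟩⟩
          · rw [← hc _ (not_lt.mp h8)]
            exact ⟨h6, ⟨p, h7, rfl⟩⟩
      refine (mk_le_mk_of_subset hsub).trans_lt (mk_range_le.trans_lt ?_)
      have : #Z = Cardinal.sum fun c : I => #(Fin c.down → 𝒯) := mk_sigma _
      rw [this]
      apply Cardinal.sum_lt_of_isRegular hκ (by rw [hI]; exact h0)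
      intro c
      have h3 : #(Fin c.down → 𝒯) = #𝒯 ^ (c.down : Cardinal.{u}) := by simp
      rw [h3]
      calc #𝒯 ^ (c.down : Cardinal.{u}) ≤ (max #𝒯 ℵ₀) ^ (c.down : Cardinal.{u}) :=
            power_le_power_right (le_max_left _ _)
        _ ≤ max #𝒯 ℵ₀ := power_nat_le (le_max_right _ _)
        _ < κ := max_lt h𝒯c h0)
  obtain ⟨i, A, hA, hAcov⟩ := exists_covered S.hμ0 hκμ S.mkW K γ
    (fun y hy => (hγ y hy).2.1)
    (fun y hy x hx => by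
      obtain ⟨k, hk⟩ := S.exists_mem_K_L hlim (hγ y hy).1 hx
      exact ⟨⟨k⟩, hk⟩) (by rw [hI]; exact h0) ⟨⟨0⟩⟩ b hb
  -- counting
  have hch : ∀ f : ℕ → A, ∃ δ : W, ∀ n, (f n : W) ∈ K i δ := by
    intro f
    obtain ⟨δ, hδ⟩ := hAcov (Set.range fun n => (f n : W)) (by
      rintro _ ⟨n, rfl⟩
      exact (f n).2) ((mk_range_nat_le _).trans_lt h0)
    exact ⟨δ, fun n => hδ ⟨n, rfl⟩⟩
  choose g hg using hch
  have hinj : Function.Injective (fun f : ℕ → A => (⟨g f, fun n => ⟨f n, hg f n⟩⟩ :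
      Σ γ : W, (ℕ → K i γ))) := by
    intro f f' hff
    simp only [Sigma.mk.injEq] at hff
    obtain ⟨h3, h4⟩ := hff
    funext n
    apply Subtype.ext
    have key : ∀ (γ γ' : W) (u : ℕ → K i γ) (v : ℕ → K i γ'), γ = γ' → HEq u v →
        ∀ n, (u n : W) = v n := by
      rintro γ _ u v rfl h n
      rw [eq_of_heq h]
    exact key _ _ _ _ h3 h4 n
  have hLi : S.L i.down ^ ℵ₀ ≤ Order.succ S.μ :=
    ((hpow _ (S.L_spec _).1 (S.L_spec _).2).trans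
      (Order.succ_le_of_lt (S.L_spec _).2)).trans (Order.lt_succ _).le
  calc S.μ ^ ℵ₀ ≤ #A ^ ℵ₀ := power_le_power_right hA
    _ = #(ℕ → A) := by simp
    _ ≤ #(Σ γ : W, (ℕ → K i γ)) := mk_le_of_injective hinj
    _ = Cardinal.sum fun γ : W => #(ℕ → K i γ) := mk_sigma _
    _ ≤ Cardinal.sum fun _ : W => Order.succ S.μ := by
        apply sum_le_sum
        intro δ
        have h3 : #(ℕ → K i δ) = #(K i δ) ^ ℵ₀ := by simp
        rw [h3]
        calc #(K i δ) ^ ℵ₀ ≤ (S.L i.down ^ ℵ₀) ^ ℵ₀ := by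
              apply power_le_power_right
              exact mk_Kc_le _ _ _ _ _ _ (S.hρ.trans (S.L_spec _).1) δ
          _ = S.L i.down ^ ℵ₀ := by rw [← power_mul, aleph0_mul_aleph0]
          _ ≤ Order.succ S.μ := hLi
    _ = #W * Order.succ S.μ := sum_const' _ _
    _ = Order.succ S.μ := by
        rw [S.mkW, mul_eq_self (S.hμ0.trans (Order.lt_succ _).le)]

end Sys

end Run7.h199
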