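import Mathlib
import Pool.Agent.Run7.h199.Cover
import Pool.Agent.Run7.h199.Exist
import Pool.Agent.Run7.h199.Inner
import Pool.Agent.Run7.h199.Chain

/-!
Induction over the cardinals in `[ρ, μ]`: `TP(κ, μ⁺)` gives `l ^ ℵ₀ ≤ l⁺` for all of them, when
there are only countably many.
-/

universe u

open Cardinal Set

namespace Run7.h199

theorem outer {κ μ ρ : Cardinal.{u}} (hκ : κ.IsRegular) (hcov : CountCov κ)
    (hbig : a3 < κ ∨ (Order.succ ℵ₀ < κ ∧ NoChain κ)) (hκρ : κ ≤ ρ)
    (h2 : ∀ η < κ, (2 : Cardinal.{u}) ^ η ≤ ρ) (hρω : ρ ^ (ℵ₀ : Cardinal.{u}) ≤ Order.succ ρ)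
    (lv : ℕ → Cardinal.{u}) (lv3 : ∀ l, ρ ≤ l → l < μ → ∃ i, lv i = l)
    (htp : TwoCardinalTP κ (Order.succ μ)) :
    ∀ l, ρ ≤ l → l ≤ μ → l ^ (ℵ₀ : Cardinal.{u}) ≤ Order.succ l := by
  classical
  have hκ1 : Order.succ ℵ₀ < κ := by
    rcases hbig with h | h
    · refine lt_of_le_of_lt ?_ h
      exact (Order.le_succ _).trans (Order.le_succ _)
    · exact h.1
  have h0 : ℵ₀ < κ := (Order.lt_succ _).trans hκ1
  have hρ0 : ℵ₀ ≤ ρ := h0.le.trans hκρ
  intro l
  induction l using WellFoundedLT.induction with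
  | ind l ih =>
    intro hρl hlμ
    rcases hρl.eq_or_lt with h | h
    · rw [← h]
      exact hρω
    · by_cases hlim : ∀ l' < l, Order.succ l' < l
      · -- the limit case
        let lvl : ℕ → Cardinal.{u} := fun i => if ρ ≤ lv i ∧ lv i < l then lv i else ρ
        let lam : ℕ → Cardinal.{u} := fun i =>
          if ρ < lv i ∧ lv i < l ∧ (∀ l' < lv i, Order.succ l' < lv i) then lv i else l
        have lvl1 : ∀ i, ρ ≤ lvl i := by
          intro i
          simp only [lvl]
          split_ifs with h3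
          · exact h3.1
          · exact le_rfl
        have lvl2 : ∀ i, lvl i < l := by
          intro i
          simp only [lvl]
          split_ifs with h3
          · exact h3.2
          · exact h
        have lvl3 : ∀ l', ρ ≤ l' → l' < l → ∃ i, lvl i = l' := by
          intro l' h3 h4
          obtain ⟨i, hi⟩ := lv3 l' h3 (h4.trans_le hlμ)
          refine ⟨i, ?_⟩
          simp only [lvl]
          rw [if_pos (by rw [hi]; exact ⟨h3, h4⟩), hi]
        have lam1 : ∀ i, ρ < lam i ∧ lam i ≤ l ∧ ∀ l' < lam i, Order.succ l' < lam i := by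
          intro i
          simp only [lam]
          split_ifs with h3
          · exact ⟨h3.1, h3.2.1.le, h3.2.2⟩
          · exact ⟨h, le_rfl, hlim⟩
        have lam2 : ∀ l', ρ < l' → l' ≤ l → (∀ l'' < l', Order.succ l'' < l') →
            ∃ i, lam i = l' := by
          intro l' h3 h4 h5
          rcases h4.eq_or_lt with h6 | h6
          · -- `l' = l`: use an index with `lv i = ρ`
            obtain ⟨i, hi⟩ := lv3 ρ le_rfl (h.trans_le hlμ)
            refine ⟨i, ?_⟩
            simp only [lam]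
            rw [if_neg (by rw [hi]; exact fun h7 => lt_irrefl _ h7.1), h6]
          · obtain ⟨i, hi⟩ := lv3 l' h3.le (h6.trans_le hlμ)
            refine ⟨i, ?_⟩
            simp only [lam]
            rw [if_pos (by rw [hi]; exact ⟨h3, h6, h5⟩), hi]
        have hpow : ∀ l', ρ ≤ l' → l' < l → l' ^ (ℵ₀ : Cardinal.{u}) ≤ Order.succ l' :=
          fun l' h3 h4 => ih l' h4 h3 (h4.le.trans hlμ)
        obtain ⟨S, hS1, hS2, hS3, hS4⟩ := exists_sys hρ0 h lvl lam lvl1 lvl2 lvl3 lam1 lam2 hpow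
        have hin := S.inner hκ hκ1 (by rw [hS2]; exact hκρ)
          (by
            intro η hη
            rw [hS1]
            exact (h2 η hη).trans hρl)
          (fun X hX => hcov.set X hX)
          (by
            intro i a ha
            rcases hbig with h3 | h3
            · refine lt_of_le_of_lt (S.mk_R_le ?_ (S.lam1 i).1 (S.lam1 i).2.1 (S.lam1 i).2.2 a ha) h3
              rw [hS2]
              exact h3.le.trans hκρ
            · exact S.mk_R_lt_of_noChain h3.2 (S.lam1 i).1 (S.lam1 i).2.1 (S.lam1 i).2.2 a ha)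
          (by
            rw [hS1, hS2]
            exact hpow)
          (by
            rw [hS1]
            exact hlim)
          (by
            rw [hS1]
            exact htp.mono (Order.succ_le_succ hlμ))
        rw [hS1] at hin
        exact hin
      · push Not at hlim
        obtain ⟨l', h3, h4⟩ := hlim
        have h5 : Order.succ l' = l := le_antisymm (Order.succ_le_of_lt h3) h4
        have h6 : ρ ≤ l' := Order.lt_succ_iff.mp (by rw [h5]; exact h)
        have h7 : l' ^ (ℵ₀ : Cardinal.{u}) ≤ Order.succ l' := ih l' h3 h6 (h3.le.trans hlμ)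
        have h8 : ℵ₀ ≤ l' := hρ0.trans h6
        rw [← h5]
        calc (Order.succ l') ^ (ℵ₀ : Cardinal.{u}) ≤ Order.succ l' * l' ^ (ℵ₀ : Cardinal.{u}) :=
              succ_power_aleph0_le h8
          _ ≤ Order.succ l' * Order.succ l' := by gcongr
          _ = Order.succ l' := mul_eq_self (h8.trans (Order.le_succ _))
          _ ≤ Order.succ (Order.succ l') := Order.le_succ _

theorem two_power_le_of_countable {μ : Cardinal.{u}} (hμ : μ.IsStrongLimit)
    (lv : ℕ → Cardinal.{u}) (hlv : ∀ i, lv i < μ) (hcof : ∀ l, l < μ → ∃ i, l ≤ lv i) :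
    (2 : Cardinal.{u}) ^ μ ≤ μ ^ (ℵ₀ : Cardinal.{u}) := by
  let lv' : ULift.{u} ℕ → Cardinal.{u} := fun i => lv i.down
  have hsum : μ ≤ Cardinal.sum lv' := by
    by_contra hcon
    push Not at hcon
    have h1 : Order.succ (Cardinal.sum lv') < μ := hμ.isSuccLimit.succ_lt hcon
    obtain ⟨i, hi⟩ := hcof _ h1
    exact absurd (hi.trans (le_sum lv' ⟨i⟩)) (not_le.mpr (Order.lt_succ _))
  calc (2 : Cardinal.{u}) ^ μ ≤ 2 ^ Cardinal.sum lv' :=
        power_le_power_left two_ne_zero hsum
    _ = Cardinal.prod fun i => (2 : Cardinal.{u}) ^ lv' i := power_sum _ _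
    _ ≤ Cardinal.prod fun _ : ULift.{u} ℕ => μ :=
        prod_le_prod _ _ fun i => (hμ.isStrongPrelimit (hlv i.down)).le
    _ = μ ^ #(ULift.{u} ℕ) := prod_const' _ _
    _ = μ ^ (ℵ₀ : Cardinal.{u}) := by simp

theorem two_power_of_countable_tail {κ μ α : Cardinal.{u}} (hκ : κ.IsRegular)
    (hcov : CountCov κ) (hbig : a3 < κ ∨ (Order.succ ℵ₀ < κ ∧ NoChain κ))
    (hμ : μ.IsStrongLimit) (hκμ : κ < μ) (hαμ : α < μ)
    (lv : ℕ → Cardinal.{u}) (lv3 : ∀ l, α ≤ l → l < μ → ∃ i, lv i = l)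
    (htp : TwoCardinalTP κ (Order.succ μ)) : (2 : Cardinal.{u}) ^ μ = Order.succ μ := by
  classical
  have h0 : ℵ₀ ≤ κ := hκ.aleph0_le
  have hμ0 : ℵ₀ < μ := h0.trans_lt hκμ
  set ρ : Cardinal.{u} := (max α (2 ^ κ)) ^ (ℵ₀ : Cardinal.{u}) with hρ
  have h1 : max α (2 ^ κ) < μ := max_lt hαμ (hμ.isStrongPrelimit hκμ)
  have h2 : κ < 2 ^ κ := cantor κ
  have h3 : ℵ₀ ≤ max α (2 ^ κ) := h0.trans (h2.le.trans (le_max_right _ _))
  have hρμ : ρ < μ := by
    calc ρ ≤ (max α (2 ^ κ)) ^ (max α (2 ^ κ)) :=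
          power_le_power_left (aleph0_pos.trans_le h3).ne' h3
      _ = 2 ^ (max α (2 ^ κ)) := power_self_eq h3
      _ < μ := hμ.isStrongPrelimit h1
  have h4 : max α (2 ^ κ) ≤ ρ := self_le_power _ one_le_aleph0
  have hκρ : κ ≤ ρ := h2.le.trans ((le_max_right _ _).trans h4)
  have hρω : ρ ^ (ℵ₀ : Cardinal.{u}) = ρ := by
    rw [hρ, ← power_mul, aleph0_mul_aleph0]
  have hlv3 : ∀ l, ρ ≤ l → l < μ → ∃ i, lv i = l := fun l h5 h6 =>
    lv3 l (((le_max_left _ _).trans h4).trans h5) h6
  have hmain := outer hκ hcov hbig hκρ (fun η hη =>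
    (power_le_power_left two_ne_zero hη.le).trans ((le_max_right _ _).trans h4))
    (hρω.le.trans (Order.le_succ _)) lv hlv3 htp μ hρμ.le le_rfl
  apply le_antisymm _ (Order.succ_le_of_lt (cantor μ))
  refine (two_power_le_of_countable hμ (fun i => if lv i < μ then lv i else 0) ?_ ?_).trans hmain
  · intro i
    split_ifs with h5
    · exact h5
    · exact aleph0_pos.trans hμ0
  · intro l hl
    obtain ⟨i, hi⟩ := lv3 (max α l) (le_max_left _ _) (max_lt hαμ hl)
    refine ⟨i, ?_⟩
    rw [if_pos (by rw [hi]; exact max_lt hαμ hl), hi]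
    exact le_max_right _ _

end Run7.h199
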