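import Mathlib

/-!
Walks along a `C`-sequence on a well order `W` in which all initial segments of the sets `C γ`
are small, the resulting injections of `Iic γ` into lists of small ordinals, and the bound on the
number of their restrictions.
-/

universe u

open Cardinal Set

namespace Run7.h199

variable {W : Type u} [LinearOrder W] [WellFoundedLT W]

/-- The order type of a set. -/
noncomputable def otp (S : Set W) : Ordinal.{u} := Ordinal.type (α := S) (· < ·)

theorem otp_lt_ord {S : Set W} {τ : Cardinal.{u}} (h : #S < τ) : otp S < τ.ord := by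
  rw [lt_ord]
  exact h

theorem otp_lt_otp {S : Set W} {ξ ξ' : W} (h : ξ ≤ ξ') (hη : ∃ η ∈ S, ξ ≤ η ∧ η < ξ') :
    otp (S ∩ Set.Iio ξ) < otp (S ∩ Set.Iio ξ') := by
  -- take the least such element
  have hne : {η | η ∈ S ∧ ξ ≤ η ∧ η < ξ'}.Nonempty := hη
  set η := WellFounded.min (wellFounded_lt (α := W)) _ hne with hηdef
  have hmem : η ∈ S ∧ ξ ≤ η ∧ η < ξ' := WellFounded.min_mem (wellFounded_lt (α := W)) _ hne
  have hmin : ∀ x ∈ S, x < η → x < ξ := by
    intro x hx hxη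
    by_contra hcon
    exact WellFounded.not_lt_min (wellFounded_lt (α := W)) _
      (show x ∈ {η | η ∈ S ∧ ξ ≤ η ∧ η < ξ'} from
        ⟨hx, not_lt.mp hcon, hxη.trans hmem.2.2⟩) hxη
  unfold otp
  rw [Ordinal.type_lt_iff]
  refine ⟨⟨⟨⟨fun x => ⟨x.1, x.2.1, lt_of_lt_of_le x.2.2 h⟩, ?_⟩, ?_⟩, ⟨η, hmem.1, hmem.2.2⟩, ?_⟩⟩
  · intro x y hxy
    simpa [Subtype.ext_iff] using hxy
  · intro x y
    exact Iff.rfl
  · rintro ⟨b, hb1, hb2⟩
    constructor
    · rintro ⟨x, hx⟩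
      have hx' : x.1 = b := congrArg Subtype.val hx
      show b < η
      rw [← hx']
      exact lt_of_lt_of_le x.2.2 hmem.2.1
    · intro hb
      have hb' : b < η := hb
      exact ⟨⟨b, hb1, hmin b hb1 hb'⟩, rfl⟩

open Classical in
/-- The least element of `D` that is at least `ξ`. -/
noncomputable def nxt (D : Set W) (ξ : W) : W :=
  if h : {η | η ∈ D ∧ ξ ≤ η}.Nonempty then WellFounded.min (wellFounded_lt (α := W)) _ h else ξ

theorem nxt_spec {D : Set W} {ξ : W} (h : ∃ η ∈ D, ξ ≤ η) :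
    nxt D ξ ∈ D ∧ ξ ≤ nxt D ξ ∧ ∀ η ∈ D, ξ ≤ η → nxt D ξ ≤ η := by
  have h' : {η | η ∈ D ∧ ξ ≤ η}.Nonempty := h
  have he : nxt D ξ = WellFounded.min (wellFounded_lt (α := W)) _ h' := by
    unfold nxt
    rw [dif_pos h']
  have hm : WellFounded.min (wellFounded_lt (α := W)) _ h' ∈ {η | η ∈ D ∧ ξ ≤ η} :=
    WellFounded.min_mem _ _ _
  rw [he]
  refine ⟨hm.1, hm.2, fun η h1 h2 => ?_⟩
  exact not_lt.mp (WellFounded.not_lt_min (wellFounded_lt (α := W)) _
    (show η ∈ {η | η ∈ D ∧ ξ ≤ η} from ⟨h1, h2⟩))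

theorem nxt_unique {D : Set W} {ξ z : W} (h1 : z ∈ D) (h2 : ξ ≤ z)
    (h3 : ∀ η ∈ D, ξ ≤ η → z ≤ η) : nxt D ξ = z := by
  have h := nxt_spec (D := D) (ξ := ξ) ⟨z, h1, h2⟩
  exact le_antisymm (h.2.2 z h1 h2) (h3 _ h.1 h.2.1)

omit [WellFoundedLT W] in
theorem exists_Cseq {τ : Cardinal.{u}} (hW : ∀ x : W, #(Set.Iio x) ≤ τ) (γ : W) :
    ∃ C : Set W, C ⊆ Set.Iio γ ∧ (∀ ξ, ξ < γ → ∃ η ∈ C, ξ ≤ η) ∧
      ∀ α, α < γ → #(C ∩ Set.Iio α : Set W) < τ := by
  classical
  have h1 : #(Set.Iio γ) ≤ #(τ.ord.ToType) := by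
    rw [mk_ord_toType]
    exact hW γ
  obtain ⟨g⟩ := (Cardinal.le_def _ _).mp h1
  refine ⟨{x | ∃ h : x < γ, ∀ y, ∀ h' : y < γ, g ⟨y, h'⟩ < g ⟨x, h⟩ → y < x}, ?_, ?_, ?_⟩
  · rintro x ⟨h, -⟩
    exact h
  · intro ξ hξ
    -- the element of `[ξ, γ)` of least index
    have hne : {i : τ.ord.ToType | ∃ y, ∃ h' : y < γ, ξ ≤ y ∧ g ⟨y, h'⟩ = i}.Nonempty :=
      ⟨_, ξ, hξ, le_rfl, rfl⟩
    obtain ⟨y, hy, hξy, hgy⟩ := WellFounded.min_mem (wellFounded_lt (α := τ.ord.ToType)) _ hne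
    refine ⟨y, ⟨hy, ?_⟩, hξy⟩
    intro z hz hgz
    by_contra hcon
    have hzξ : ξ ≤ z := hξy.trans (not_lt.mp hcon)
    refine WellFounded.not_lt_min (wellFounded_lt (α := τ.ord.ToType)) _
      (show g ⟨z, hz⟩ ∈ {i : τ.ord.ToType | ∃ y, ∃ h' : y < γ, ξ ≤ y ∧ g ⟨y, h'⟩ = i} from
        ⟨z, hz, hzξ, rfl⟩) ?_
    rw [← hgy]
    exact hgz
  · intro α hα
    set D : Set W := {x | ∃ h : x < γ, ∀ y, ∀ h' : y < γ, g ⟨y, h'⟩ < g ⟨x, h⟩ → y < x} ∩
      Set.Iio α with hD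
    have hmap : ∀ x : D, g ⟨x.1, x.2.1.1⟩ ∈ Set.Iio (g ⟨α, hα⟩) := by
      rintro ⟨x, ⟨hx, hx'⟩, hxα⟩
      have hxα' : x < α := hxα
      simp only [Set.mem_Iio]
      rcases lt_trichotomy (g ⟨x, hx⟩) (g ⟨α, hα⟩) with h | h | h
      · exact h
      · have := g.injective h
        simp only [Subtype.mk.injEq] at this
        exact absurd this hxα'.ne
      · exact absurd (hx' α hα h) (not_lt.mpr hxα'.le)
    have hinj : Function.Injective (fun x : D => (⟨_, hmap x⟩ : Set.Iio (g ⟨α, hα⟩))) := by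
      intro x y hxy
      have := congrArg Subtype.val hxy
      simp only at this
      have := g.injective this
      simp only [Subtype.mk.injEq] at this
      exact Subtype.ext this
    refine (mk_le_of_injective hinj).trans_lt ?_
    have := mk_Iio_lt (g ⟨α, hα⟩) (by
      rw [mk_ord_toType]
      exact (Ordinal.type_toType _).symm)
    rwa [mk_ord_toType] at this

section walk

variable (C : W → Set W) (hC1 : ∀ γ, C γ ⊆ Set.Iio γ) (hC2 : ∀ γ ξ, ξ < γ → ∃ η ∈ C γ, ξ ≤ η)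
  {Z : Type u} (cod : Ordinal.{u} → Z)

include hC1 hC2 in
theorem nxt_lt {γ ξ : W} (h : ξ < γ) : nxt (C γ) ξ < γ :=
  hC1 γ (nxt_spec (hC2 γ ξ h)).1

/-- The codes of the walk from `γ` down to `ξ`. -/
noncomputable def wlk (γ ξ : W) : List Z :=
  (wellFounded_lt (α := W)).fix (C := fun _ => List Z)
    (fun γ rec => by
      classical
      exact if h : ξ < γ ∧ nxt (C γ) ξ < γ then
        cod (otp (C γ ∩ Set.Iio ξ)) :: rec (nxt (C γ) ξ) h.2 else []) γ

theorem wlk_self (γ : W) : wlk C cod γ γ = [] := by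
  unfold wlk
  rw [WellFounded.fix_eq]
  simp

include hC1 hC2 in
theorem wlk_of_lt {γ ξ : W} (h : ξ < γ) :
    wlk C cod γ ξ = cod (otp (C γ ∩ Set.Iio ξ)) :: wlk C cod (nxt (C γ) ξ) ξ := by
  unfold wlk
  rw [WellFounded.fix_eq]
  rw [dif_pos ⟨h, nxt_lt C hC1 hC2 h⟩]

include hC1 hC2 in
/-- Codes of walks from `γ` are different for different targets. -/
theorem wlk_ne {τ : Cardinal.{u}} (hC3 : ∀ γ α, α < γ → #(C γ ∩ Set.Iio α : Set W) < τ)
    (hcod : Set.InjOn cod (Set.Iio τ.ord)) (γ : W) :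
    ∀ ξ ξ', ξ < ξ' → ξ' ≤ γ → wlk C cod γ ξ ≠ wlk C cod γ ξ' := by
  induction γ using WellFoundedLT.induction with
  | ind γ ih =>
    intro ξ ξ' hξ hξ'
    rcases hξ'.eq_or_lt with h | h
    · subst h
      rw [wlk_self, wlk_of_lt C hC1 hC2 cod hξ]
      simp
    · have hξγ : ξ < γ := hξ.trans h
      rw [wlk_of_lt C hC1 hC2 cod hξγ, wlk_of_lt C hC1 hC2 cod h]
      intro heq
      rw [List.cons.injEq] at heq
      obtain ⟨h1, h2⟩ := heq
      have h3 : otp (C γ ∩ Set.Iio ξ) = otp (C γ ∩ Set.Iio ξ') :=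
        hcod (otp_lt_ord (hC3 γ ξ hξγ)) (otp_lt_ord (hC3 γ ξ' h)) h1
      have h4 : ¬ ∃ η ∈ C γ, ξ ≤ η ∧ η < ξ' := by
        intro hη
        exact absurd h3 (otp_lt_otp hξ.le hη).ne
      have h5 := nxt_spec (hC2 γ ξ hξγ)
      have h6 := nxt_spec (hC2 γ ξ' h)
      have h7 : nxt (C γ) ξ = nxt (C γ) ξ' := by
        apply nxt_unique h6.1 (hξ.le.trans h6.2.1)
        intro η hη hξη
        apply h6.2.2 η hη
        by_contra hcon
        exact h4 ⟨η, hη, hξη, not_le.mp hcon⟩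
      rw [h7] at h2
      exact ih _ (nxt_lt C hC1 hC2 h) ξ ξ' hξ h6.2.1 h2

open Classical in
/-- One step of the description of the restriction to `Iio α` of the codes of walks. -/
noncomputable def stp (α : W) (D : Set W) (G : W → List Z) (ξ : W) : List Z :=
  if ξ < α then
    if ∃ η ∈ D, ξ ≤ η then cod (otp (D ∩ Set.Iio ξ)) :: wlk C cod (nxt D ξ) ξ
    else cod (otp D) :: G ξ
  else []

open Classical in
/-- The restriction of the codes of walks from `γ` to `Iio α`. -/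
noncomputable def res (α γ ξ : W) : List Z := if ξ < α then wlk C cod γ ξ else []

/-- Iteration of `stp`. -/
noncomputable def foldStp (α : W) (Q : Set W → Prop) : List {D : Set W // Q D} → W → List Z
  | [] => res C cod α α
  | D :: l => stp C cod α D.1 (foldStp α Q l)

include hC1 hC2 in
theorem res_mem_range (α : W) (Q : Set W → Prop) (hQ : ∀ γ, α < γ → Q (C γ ∩ Set.Iio α)) (γ : W) :
    α ≤ γ → res C cod α γ ∈ Set.range (foldStp C cod α Q) := by
  induction γ using WellFoundedLT.induction with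
  | ind γ ih =>
    intro hγ
    rcases hγ.eq_or_lt with h | h
    · subst h
      exact ⟨[], rfl⟩
    · have hn := nxt_spec (hC2 γ α h)
      obtain ⟨l, hl⟩ := ih _ (nxt_lt C hC1 hC2 h) hn.2.1
      refine ⟨⟨C γ ∩ Set.Iio α, hQ γ h⟩ :: l, ?_⟩
      funext ξ
      rw [foldStp, hl]
      unfold stp res
      split_ifs with h1 h2
      · -- the walk enters `C γ ∩ Iio α`
        have hξγ : ξ < γ := h1.trans h
        rw [wlk_of_lt C hC1 hC2 cod hξγ]
        have e1 : C γ ∩ Set.Iio α ∩ Set.Iio ξ = C γ ∩ Set.Iio ξ := by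
          ext x
          simp only [Set.mem_inter_iff, Set.mem_Iio]
          constructor
          · rintro ⟨⟨a, -⟩, b⟩
            exact ⟨a, b⟩
          · rintro ⟨a, b⟩
            exact ⟨⟨a, b.trans h1⟩, b⟩
        have hm := nxt_spec h2
        have e2 : nxt (C γ) ξ = nxt (C γ ∩ Set.Iio α) ξ := by
          apply nxt_unique hm.1.1 hm.2.1
          intro η hη hξη
          rcases lt_or_ge η α with h3 | h3
          · exact hm.2.2 η ⟨hη, h3⟩ hξη
          · exact (le_of_lt hm.1.2).trans h3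
        rw [e1, e2]
      · have hξγ : ξ < γ := h1.trans h
        rw [wlk_of_lt C hC1 hC2 cod hξγ]
        have h3 : ∀ η ∈ C γ, ξ ≤ η → α ≤ η := by
          intro η hη hξη
          by_contra hcon
          exact h2 ⟨η, ⟨hη, not_le.mp hcon⟩, hξη⟩
        have e1 : C γ ∩ Set.Iio α = C γ ∩ Set.Iio ξ := by
          ext x
          simp only [Set.mem_inter_iff, Set.mem_Iio]
          constructor
          · rintro ⟨a, b⟩
            refine ⟨a, ?_⟩
            by_contra hcon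
            exact absurd b (not_lt.mpr (h3 x a (not_lt.mp hcon)))
          · rintro ⟨a, b⟩
            exact ⟨a, b.trans h1⟩
        have e2 : nxt (C γ) ξ = nxt (C γ) α := by
          apply nxt_unique hn.1 (h1.le.trans hn.2.1)
          intro η hη hξη
          exact hn.2.2 η hη (h3 η hη hξη)
        rw [e2, ← e1]
      · rfl

end walk

end Run7.h199
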