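import Mathlib
import Pool.Agent.Run7.h199.Walk
import Pool.Agent.Run7.h199.TreeProp
import Pool.Agent.Run7.h199.Main

/-!
If `2 ^ μ = μ⁺` then there is a thin `P_κ κ`-list, `κ = μ⁺⁺`, without a cofinal branch
(Specker's theorem, in the language of lists).
-/

universe u

open Cardinal Set

namespace Run7.h199

section

variable {W : Type u} [LinearOrder W] [WellFoundedLT W] {Y : Type u}

open Classical in
/-- The least strict upper bound of the first projection of `y`. -/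
noncomputable def sbd [Nonempty W] (y : Set (W × Y)) : W :=
  if h : {γ : W | ∀ p ∈ y, p.1 < γ}.Nonempty then
    WellFounded.min (wellFounded_lt (α := W)) _ h else Classical.arbitrary W

theorem lt_sbd [Nonempty W] {y : Set (W × Y)} (h : ∃ γ : W, ∀ p ∈ y, p.1 < γ) :
    ∀ p ∈ y, p.1 < sbd y := by
  have h' : {γ : W | ∀ p ∈ y, p.1 < γ}.Nonempty := h
  have he : sbd y = WellFounded.min (wellFounded_lt (α := W)) _ h' := by
    unfold sbd
    rw [dif_pos h']
  rw [he]
  exact WellFounded.min_mem (wellFounded_lt (α := W)) _ h'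

theorem sbd_le [Nonempty W] {y : Set (W × Y)} {γ : W} (h : ∀ p ∈ y, p.1 < γ) : sbd y ≤ γ := by
  have h' : {γ : W | ∀ p ∈ y, p.1 < γ}.Nonempty := ⟨γ, h⟩
  have he : sbd y = WellFounded.min (wellFounded_lt (α := W)) _ h' := by
    unfold sbd
    rw [dif_pos h']
  rw [he]
  exact not_lt.mp (WellFounded.not_lt_min (wellFounded_lt (α := W)) _
    (show γ ∈ {γ : W | ∀ p ∈ y, p.1 < γ} from h))

/-- A system of injections `F γ` of `Iio γ` into a set of size `τ`, with at most `τ` restrictions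
to each initial segment, gives a thin list without a cofinal branch. -/
theorem not_tp_of_injections {τ : Cardinal.{u}} (hτ : ℵ₀ ≤ τ) (hW : #W = Order.succ τ)
    (hcd : ∀ x : W, cd x ≤ τ) (hY : #Y = τ) (F : W → W → Y)
    (hF : ∀ γ ξ ξ', ξ < ξ' → ξ' < γ → F γ ξ ≠ F γ ξ')
    (res : W → W → W → Y) (hres : ∀ α γ ξ, ξ < α → res α γ ξ = F γ ξ)
    (hcount : ∀ α, #{R : W → Y | ∃ γ, α ≤ γ ∧ R = res α γ} ≤ τ) :
    ¬ TwoCardinalTP (Order.succ τ) (Order.succ τ) := by
  intro htp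
  have hne : Nonempty W := by
    rw [← mk_ne_zero_iff, hW]
    exact (aleph0_pos.trans_le (hτ.trans (Order.lt_succ τ).le)).ne'
  have hα : #(W × Y) = Order.succ τ := by
    rw [mk_prod, lift_id, lift_id, hW, hY]
    exact mul_eq_left (hτ.trans (Order.lt_succ τ).le) (Order.lt_succ τ).le
      (aleph0_pos.trans_le hτ).ne'
  have hbd : ∀ y : Set (W × Y), #y < Order.succ τ → ∃ γ : W, ∀ p ∈ y, p.1 < γ := by
    intro y hy
    obtain ⟨γ, hγ⟩ := exists_strict_bound hτ hW hcd (Prod.fst '' y)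
      (mk_image_le.trans (Order.lt_succ_iff.mp hy))
    exact ⟨γ, fun p hp => hγ p.1 ⟨p, hp, rfl⟩⟩
  obtain ⟨b, hb⟩ := htp (W × Y) hα (fun y => {p | p ∈ y ∧ p.2 = F (sbd y) p.1})
    (fun x _ p hp => hp.1) (by
      intro y hy
      set α := sbd y with hαdef
      have hsub : {t : Set (W × Y) | ∃ x : Set (W × Y), #x < Order.succ τ ∧ y ⊆ x ∧
          t = {p | p ∈ x ∧ p.2 = F (sbd x) p.1} ∩ y} ⊆
          (fun R : W → Y => {p : W × Y | p ∈ y ∧ p.2 = R p.1}) ''
            {R : W → Y | ∃ γ, α ≤ γ ∧ R = res α γ} := by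
        rintro t ⟨x, hx, hyx, rfl⟩
        refine ⟨res α (sbd x), ⟨sbd x, ?_, rfl⟩, ?_⟩
        · exact sbd_le fun p hp => lt_sbd (hbd x hx) p (hyx hp)
        · ext p
          simp only [Set.mem_ofPred_eq, Set.mem_inter_iff]
          constructor
          · rintro ⟨h1, h2⟩
            refine ⟨⟨hyx h1, ?_⟩, h1⟩
            rw [h2, hres _ _ _ (lt_sbd (hbd y hy) p h1)]
          · rintro ⟨⟨h1, h2⟩, h3⟩
            refine ⟨h3, ?_⟩
            rw [h2, hres _ _ _ (lt_sbd (hbd y hy) p h3)]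
      exact ((mk_le_mk_of_subset hsub).trans (mk_image_le.trans (hcount α))).trans_lt
        (Order.lt_succ τ))
  have hτκ : τ < Order.succ τ := Order.lt_succ τ
  -- the branch is the graph of an injection
  have h1 : ∀ ξ : W, ∃ s : Y, (ξ, s) ∈ b := by
    intro ξ
    have hz : #(Set.range fun s : Y => (ξ, s) : Set (W × Y)) < Order.succ τ :=
      mk_range_le.trans_lt (by rw [hY]; exact hτκ)
    obtain ⟨x, -, hyx, hx⟩ := hb _ hz
    refine ⟨F (sbd x) ξ, ?_⟩
    have : (ξ, F (sbd x) ξ) ∈ {p | p ∈ x ∧ p.2 = F (sbd x) p.1} ∩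
        (Set.range fun s : Y => (ξ, s)) := ⟨⟨hyx ⟨_, rfl⟩, rfl⟩, ⟨_, rfl⟩⟩
    rw [← hx] at this
    exact this.1
  choose s hs using h1
  have hinj : Function.Injective s := by
    intro ξ ξ' h
    by_contra hne'
    wlog hlt : ξ < ξ' generalizing ξ ξ'
    · exact this h.symm (Ne.symm hne') (lt_of_le_of_ne (not_lt.mp hlt) (Ne.symm hne'))
    have hz : #({(ξ, s ξ), (ξ', s ξ')} : Set (W × Y)) < Order.succ τ := by
      refine lt_of_lt_of_le ?_ (hτ.trans hτκ.le)
      rw [lt_aleph0_iff_set_finite]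
      exact Set.toFinite _
    obtain ⟨x, hxc, hyx, hx⟩ := hb _ hz
    have e1 : (ξ, s ξ) ∈ b ∩ {(ξ, s ξ), (ξ', s ξ')} := ⟨hs ξ, by simp⟩
    have e2 : (ξ', s ξ') ∈ b ∩ {(ξ, s ξ), (ξ', s ξ')} := ⟨hs ξ', by simp⟩
    rw [hx] at e1 e2
    have e3 : s ξ = F (sbd x) ξ := e1.1.2
    have e4 : s ξ' = F (sbd x) ξ' := e2.1.2
    have e5 : ξ' < sbd x := lt_sbd (hbd x hxc) (ξ', s ξ') e2.1.1
    apply hF (sbd x) ξ ξ' hlt e5
    rw [← e3, ← e4, h]
  have := mk_le_of_injective hinj
  rw [hW, hY] at this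
  exact absurd this (not_le.mpr hτκ)

end

/-- If `2 ^ μ = μ⁺` then `TP(μ⁺⁺, μ⁺⁺)` fails. -/
theorem not_tp_of_two_power {μ : Cardinal.{u}} (hμ : ℵ₀ ≤ μ) (h2 : 2 ^ μ = Order.succ μ) :
    ¬ TwoCardinalTP (Order.succ (Order.succ μ)) (Order.succ (Order.succ μ)) := by
  classical
  set τ := Order.succ μ with hτdef
  have hμτ : μ < τ := Order.lt_succ μ
  have hτ : ℵ₀ ≤ τ := hμ.trans hμτ.le
  have hpow : τ ^ μ = τ := by
    rw [← h2, ← power_mul, mul_eq_self hμ]
  set W : Type u := (Order.succ τ).ord.ToType with hWdef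
  have hW : #W = Order.succ τ := by simp [hWdef]
  have hcd1 : ∀ x : W, cd x < #W := by
    intro x
    apply mk_Iio_lt
    rw [hW]
    exact (Ordinal.type_toType _).symm
  have hcd : ∀ x : W, cd x ≤ τ := by
    intro x
    have := hcd1 x
    rw [hW] at this
    exact Order.lt_succ_iff.mp this
  have hC := fun γ : W => exists_Cseq (τ := τ) hcd γ
  choose C hC1 hC2 hC3 using hC
  set Z : Type u := τ.ord.ToType with hZdef
  have hZ : #Z = τ := by simp [hZdef]
  have hZinf : Infinite Z := by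
    rw [infinite_iff, hZ]
    exact hτ
  let cod : Ordinal.{u} → Z := fun o =>
    if h : o < τ.ord then Ordinal.ToType.mk ⟨o, h⟩ else Classical.arbitrary Z
  have hcod : Set.InjOn cod (Set.Iio τ.ord) := by
    intro a ha b hb hab
    have ha' : a < τ.ord := ha
    have hb' : b < τ.ord := hb
    simp only [cod, ha', hb', dif_pos] at hab
    have := Ordinal.ToType.mk.injective hab
    simpa using this
  have hY : #(List Z) = τ := by rw [mk_list_eq_mk, hZ]
  refine not_tp_of_injections (Y := List Z) hτ hW hcd hY (wlk C cod) ?_ (res C cod) ?_ ?_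
  · intro γ ξ ξ' h h'
    exact wlk_ne C hC1 hC2 cod hC3 hcod γ ξ ξ' h h'.le
  · intro α γ ξ h
    simp [res, h]
  · intro α
    have hsub : {R : W → List Z | ∃ γ, α ≤ γ ∧ R = res C cod α γ} ⊆
        Set.range (foldStp C cod α (fun D => D ⊆ Set.Iio α ∧ #D ≤ μ)) := by
      rintro R ⟨γ, hγ, rfl⟩
      exact res_mem_range C hC1 hC2 cod α _ (fun γ' hγ' => ⟨Set.inter_subset_right,
        Order.lt_succ_iff.mp (hC3 γ' α hγ')⟩) γ hγ
    refine (mk_le_mk_of_subset hsub).trans ?_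
    refine mk_range_le.trans ?_
    refine (mk_list_le_max _).trans ?_
    apply max_le hτ
    refine (mk_bounded_subset_le _ _).trans ?_
    calc max #(Set.Iio α) ℵ₀ ^ μ ≤ τ ^ μ := power_le_power_right (max_le (hcd α) hτ)
      _ = τ := hpow

end Run7.h199
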